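import Pool.Agent.HG17.Basic

/-!
# HG17/CntD: elements with periodic coordinates (PROVE ME, 30-60 lines)

Proof. An element mu of the set is determined by P 0 mu, ..., P (s-1) mu: by induction (strong, on the
natural number k < m) P k mu = psi (P (k - s) mu) for s <= k < m, and P_ext. So the set injects
into Fin s -> T, its cardinality is at most (card T)^s. Finally
2^m * t^s <= 4^(m-s) * t^s <= t^(m-s) * t^s = t^m, as m <= 2 (m - s) and t >= 4.
Do not change the statement.
-/

namespace HG17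

namespace Dat

variable {G : Type*} [Group G] {T : Type*} [Group T] {N : Subgroup G} [N.Normal] {m : ℕ}
variable (D : Dat T N m)

theorem cnt_D [Finite T] (h4 : 4 ≤ Nat.card T) (s : ℕ) (h0 : 0 < s) (hs : 2 * s ≤ m)
    (ψ : MulAut T) :
    2 ^ m * {μ : N | ∀ k : ℤ, D.P k μ = ψ (D.P (k - s) μ)}.ncard ≤ Nat.card T ^ m := by
  have hinj : {μ : N | ∀ k : ℤ, D.P k μ = ψ (D.P (k - s) μ)}.ncard ≤ Nat.card T ^ s := by
    have h1 : (Set.univ : Set (Fin s → T)).ncard = Nat.card T ^ s := by
      rw [Set.ncard_univ, Nat.card_fun, Nat.card_fin]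
    rw [← h1]
    refine Set.ncard_le_ncard_of_injOn (fun (μ : N) (k : Fin s) => D.P (k : ℕ) μ)
      (fun _ _ => Set.mem_univ _) ?_ (Set.toFinite _)
    intro μ hμ ν hν hμν
    have hμ' : ∀ k : ℤ, D.P k μ = ψ (D.P (k - s) μ) := hμ
    have hν' : ∀ k : ℤ, D.P k ν = ψ (D.P (k - s) ν) := hν
    have key : ∀ n : ℕ, D.P (n : ℤ) μ = D.P (n : ℤ) ν := by
      intro n
      induction n using Nat.strong_induction_on with
      | _ n ih =>
        by_cases hn : n < s
        · exact congrFun hμν ⟨n, hn⟩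
        · rw [not_lt] at hn
          rw [hμ' n, hν' n]
          have e : (n : ℤ) - s = ((n - s : ℕ) : ℤ) := by
            rw [Nat.cast_sub hn]
          rw [e, ih (n - s) (by omega)]
    apply D.P_ext
    intro k hk _
    have := key k.toNat
    rwa [Int.toNat_of_nonneg hk] at this
  have h2 : 2 ^ m ≤ Nat.card T ^ (m - s) := by
    calc 2 ^ m ≤ 2 ^ (2 * (m - s)) := Nat.pow_le_pow_right (by norm_num) (by omega)
      _ = 4 ^ (m - s) := by rw [pow_mul]; norm_num
      _ ≤ Nat.card T ^ (m - s) := Nat.pow_le_pow_left h4 _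
  calc 2 ^ m * {μ : N | ∀ k : ℤ, D.P k μ = ψ (D.P (k - s) μ)}.ncard
      ≤ Nat.card T ^ (m - s) * Nat.card T ^ s := Nat.mul_le_mul h2 hinj
    _ = Nat.card T ^ m := by rw [← pow_add]; congr 1; omega

end Dat

end HG17
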