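import Mathlib

/-!
# HG17/Gours: Goursat's lemma for two maps onto a simple group (PROVE ME, 40-70 lines)

Proof. M = f2 (ker f1) is normal in T (f2 is onto: conjugate by f2 x, and ker f1 is normal), so
M = bot or M = top.
If M = top: given s, t choose x with f1 x = s and y in ker f1 with f2 y = t * (f2 x)^-1; then y * x
is mapped to (s, t).
If M = bot: f1 x = 1 implies f2 x = 1, so f2 factors: for t choose x_t with f1 x_t = t and put
phi t = f2 x_t; f2 x = phi (f1 x) for all x since x * (x_(f1 x))^-1 is in ker f1. phi is a
homomorphism T -> T, onto since f2 is onto, and its kernel is a normal subgroup, not top (T is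
nontrivial and phi is onto), so phi is injective. (Or: use QuotientGroup.kerLift.) No finiteness
is needed. Do not change the statement.
-/

namespace HG17

theorem goursat {K T : Type*} [Group K] [Group T] [IsSimpleGroup T] (f1 f2 : K →* T)
    (h1 : Function.Surjective f1) (h2 : Function.Surjective f2) :
    (∀ s t : T, ∃ x, f1 x = s ∧ f2 x = t) ∨ ∃ φ : MulAut T, ∀ x, f2 x = φ (f1 x) := by
  have hn : (f1.ker.map f2).Normal := Subgroup.Normal.map (inferInstance) f2 h2
  rcases hn.eq_bot_or_eq_top with hM | hM
  · right
    have hk : ∀ x, f1 x = 1 → f2 x = 1 := by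
      intro x hx
      have : f2 x ∈ f1.ker.map f2 := Subgroup.mem_map.2 ⟨x, hx, rfl⟩
      rw [hM] at this
      exact Subgroup.mem_bot.1 this
    choose g hg using h1
    have key : ∀ x, f2 x = f2 (g (f1 x)) := by
      intro x
      have h : f1 (x * (g (f1 x))⁻¹) = 1 := by
        rw [map_mul, map_inv, hg, mul_inv_cancel]
      have h' := hk _ h
      rw [map_mul, map_inv] at h'
      exact mul_inv_eq_one.1 h'
    let φ : T →* T :=
      { toFun := fun t => f2 (g t)
        map_one' := hk _ (hg 1)
        map_mul' := by
          intro s t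
          have h := key (g s * g t)
          rw [map_mul, map_mul, hg, hg] at h
          exact h.symm }
    have hφ : ∀ t, φ t = f2 (g t) := fun t => rfl
    have hsurj : Function.Surjective φ := by
      intro t
      obtain ⟨x, hx⟩ := h2 t
      exact ⟨f1 x, by rw [hφ, ← key, hx]⟩
    have hinj : Function.Injective φ := by
      have hkn : φ.ker.Normal := inferInstance
      rcases hkn.eq_bot_or_eq_top with hb | ht
      · exact (MonoidHom.ker_eq_bot_iff φ).1 hb
      · exfalso
        obtain ⟨a, ha⟩ := exists_ne (1 : T)
        obtain ⟨b, hb⟩ := hsurj a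
        have : b ∈ φ.ker := by rw [ht]; trivial
        exact ha (by rw [← hb]; exact this)
    refine ⟨MulEquiv.ofBijective φ ⟨hinj, hsurj⟩, ?_⟩
    intro x
    exact key x
  · left
    intro s t
    obtain ⟨x, hx⟩ := h1 s
    have : t * (f2 x)⁻¹ ∈ f1.ker.map f2 := by rw [hM]; trivial
    obtain ⟨y, hy, hy2⟩ := Subgroup.mem_map.1 this
    have hy' : f1 y = 1 := hy
    refine ⟨y * x, ?_, ?_⟩
    · rw [map_mul, hy', one_mul, hx]
    · rw [map_mul, hy2, inv_mul_cancel_right]

end HG17
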