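import Mathlib

/-!
# HG17/Scott: a group with pairwise independent maps onto a perfect group maps onto the product
(PROVE ME, 50-100 lines)

(1) `commutator_eq_top`: a simple group with two non-commuting elements is perfect (the commutator
subgroup is normal, so bot or top; bot would make the group commutative).
(2) `scott`: Proof. Claim: for all i, every finite set S of indices not containing i and every
t in T there is x in K with f i x = t and f j x = 1 for all j in S. Induction on S. S empty: f i
is onto. S + j: let E = {f i x : f l x = 1 for all l in S + j}, a subgroup of T. For s, t in T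
take x with f i x = s, f l x = 1 for l in S (induction), y with f i y = t, f j y = 1 (pairwise
independence); the commutator x y x^-1 y^-1 is killed by all f l, l in S, and by f j, and f i
sends it to the commutator of s and t. So E contains all commutators, hence commutator T = top
(commutator_def / Subgroup.commutator_le).
Then for t : iota -> T multiply (Finset.noncommProd or induction on a finite set of indices) the
elements x_i with f i x_i = t i, f j x_i = 1 for j <> i. It may be easier to prove by induction on
a finset U: there is x with f i x = t i for i in U and f i x = 1 for i not in U.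
Do not change the statements.
-/

namespace HG17

open scoped commutatorElement

theorem commutator_eq_top {T : Type*} [Group T] [IsSimpleGroup T]
    (hT : ∃ a b : T, a * b ≠ b * a) : commutator T = ⊤ := by
  rcases (inferInstance : (commutator T).Normal).eq_bot_or_eq_top with h | h
  · exfalso
    obtain ⟨a, b, hab⟩ := hT
    apply hab
    have h1 : ⁅a, b⁆ ∈ commutator T := by
      rw [commutator_def]
      exact Subgroup.commutator_mem_commutator (Subgroup.mem_top a) (Subgroup.mem_top b)
    rw [h, Subgroup.mem_bot] at h1
    exact commutatorElement_eq_one_iff_mul_comm.1 h1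
  · exact h

private theorem scott_aux {K T ι : Type*} [Group K] [Group T] (hT : commutator T = ⊤)
    (f : ι → K →* T) (hs : ∀ i, Function.Surjective (f i))
    (hp : ∀ i j, i ≠ j → ∀ s t : T, ∃ x, f i x = s ∧ f j x = t) (i : ι) (S : Finset ι) :
    i ∉ S → ∀ t : T, ∃ x, f i x = t ∧ ∀ j ∈ S, f j x = 1 := by
  classical
  induction S using Finset.induction_on with
  | empty =>
    intro _ t
    obtain ⟨x, hx⟩ := hs i t
    exact ⟨x, hx, by simp⟩
  | insert j S hj ih =>
    intro hi t
    rw [Finset.mem_insert, not_or] at hi
    let E : Subgroup T :=
      { carrier := {s | ∃ x, f i x = s ∧ ∀ l ∈ insert j S, f l x = 1}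
        mul_mem' := by
          rintro a b ⟨x, hx, hx'⟩ ⟨y, hy, hy'⟩
          exact ⟨x * y, by rw [map_mul, hx, hy],
            fun l hl => by rw [map_mul, hx' l hl, hy' l hl, mul_one]⟩
        one_mem' := ⟨1, map_one _, fun l _ => map_one _⟩
        inv_mem' := by
          rintro a ⟨x, hx, hx'⟩
          exact ⟨x⁻¹, by rw [map_inv, hx], fun l hl => by rw [map_inv, hx' l hl, inv_one]⟩ }
    have hE : commutator T ≤ E := by
      rw [commutator_def, Subgroup.commutator_le]
      intro s _ t _
      obtain ⟨x, hx, hx'⟩ := ih hi.2 s
      obtain ⟨y, hy, hy'⟩ := hp i j hi.1 t 1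
      refine ⟨⁅x, y⁆, by rw [map_commutatorElement, hx, hy], ?_⟩
      intro l hl
      rw [map_commutatorElement]
      rcases Finset.mem_insert.1 hl with rfl | hl
      · rw [hy', commutatorElement_one_right]
      · rw [hx' l hl, commutatorElement_one_left]
    have ht : t ∈ E := by
      apply hE
      rw [hT]
      exact Subgroup.mem_top t
    exact ht

theorem scott {K T ι : Type*} [Group K] [Group T] [Finite ι] (hT : commutator T = ⊤)
    (f : ι → K →* T) (hs : ∀ i, Function.Surjective (f i))
    (hp : ∀ i j, i ≠ j → ∀ s t : T, ∃ x, f i x = s ∧ f j x = t) (t : ι → T) :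
    ∃ x, ∀ i, f i x = t i := by
  classical
  haveI := Fintype.ofFinite ι
  have key : ∀ U : Finset ι, ∃ x, (∀ i ∈ U, f i x = t i) ∧ ∀ i, i ∉ U → f i x = 1 := by
    intro U
    induction U using Finset.induction_on with
    | empty => exact ⟨1, by simp, fun i _ => map_one _⟩
    | insert i U hi ih =>
      obtain ⟨x, hx, hx'⟩ := ih
      obtain ⟨y, hy, hy'⟩ := scott_aux hT f hs hp i (Finset.univ.erase i)
        (Finset.notMem_erase _ _) (t i)
      have hy'' : ∀ j, j ≠ i → f j y = 1 := fun j hj =>
        hy' j (Finset.mem_erase.2 ⟨hj, Finset.mem_univ _⟩)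
      refine ⟨x * y, ?_, ?_⟩
      · intro j hj
        rw [map_mul]
        by_cases h : j = i
        · subst h
          rw [hx' j hi, hy, one_mul]
        · rw [hy'' j h, mul_one]
          exact hx j ((Finset.mem_insert.1 hj).resolve_left h)
      · intro j hj
        rw [Finset.mem_insert, not_or] at hj
        rw [map_mul, hx' j hj.2, hy'' j hj.1, mul_one]
  obtain ⟨x, hx, -⟩ := key Finset.univ
  exact ⟨x, fun i => hx i (Finset.mem_univ _)⟩

end HG17
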