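import Pool.Agent.HG17.Frame
import Pool.Agent.HG17.Gours
import Pool.Agent.HG17.Scott

/-!
# HG17/Crit: when mu in N and g do not generate G 

Proof. Let H = closure {mu, g}, not top, and K = H cap N as a subgroup of N
(K = H.subgroupOf N). mu is in K. For r in K and j in Z, conjNormal (g^j) r is in K (g is in H,
N is normal). K is not top: otherwise N <= H, and every x is n * g^i (D.cov, mem_co_iff), so
H = top.
Let K0 = image of K under D.p (a subgroup of T). P 0 = p. If r in K then P k r = p (conj by g^(-k)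
of r) is in K0. If t = p r is in K0 then a t = p (conj by g^m of r) (D.per) is in K0.
Case K0 <> top: first alternative.
Case K0 = top: each P k maps K onto T (given t take r in K with p r = t and conjugate by g^k,
P_conj). Consider the restrictions f k = P k on K, k in Fin m. If all pairs j <> l were independent
(for all s, t there is x in K with P j x = s, P l x = t) then by `scott` and `P_ext` K = top,
contradiction. So by `goursat` there are j <> l in Fin m and phi : MulAut T with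
P l r = phi (P j r) for all r in K. WLOG j < l (otherwise use phi^-1). Put s = l - j, 0 < s < m.
Applying this to conjNormal (g^i) r, r in K (P_conj): P (l - i) r = phi (P (j - i) r) for all i in Z,
that is P k r = phi (P (k - s) r) for all k in Z and r in K. Iterating u times (u natural):
P k r = (phi^u) (P (k - u s) r).
phi commutes with a: for r in K, P k r = phi (P (k-s) r) gives
a (phi (P (k-s) r)) = a (P k r) = P (k-m) r = phi (P (k-s-m) r) = phi (a (P (k-s) r)),
and P (k-s) maps K onto T.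
Let d = gcd (s, m) < m, q a prime divisor of m / d; then d divides m / q, and there are natural
numbers u and v in Z with u * s = m / q + m * v (Bezout; e.g. via Nat.gcd and ZMod, or: the
multiples of s modulo m are the multiples of d; u can be taken natural by adding multiples of m).
So P k r = phi^u (P (k - m/q - m v) r) = (phi^u * a^v) (P (k - m/q) r) by P_per_mul. Put
psi = phi^u * a^v, which commutes with a. With r = mu: second alternative.

`crit_xh` is `crit` for the frame of z and mu = x z^(-i) (x = mu z^i; Gen x z iff Gen mu z: the two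
closures are equal) with frame_P_eq_xh, frame_a.
-/

namespace HG17

namespace Dat

variable {G : Type*} [Group G] {T : Type*} [Group T] {N : Subgroup G} [N.Normal] {m : ℕ}
variable (D : Dat T N m)

/-- arithmetic: if `0 < s < m` then some multiple of `s` is `m / q` modulo `m`, `q` prime -/
theorem exists_mul_eq_div {m s : ℕ} (hs : 0 < s) (hsm : s < m) :
    ∃ q : ℕ, q.Prime ∧ q ∣ m ∧ ∃ (u : ℕ) (v : ℤ), (u : ℤ) * s = (m / q : ℕ) + m * v := by
  have hm : 0 < m := by omega
  have hd0 : 0 < Nat.gcd s m := Nat.gcd_pos_of_pos_left _ hs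
  have hds : Nat.gcd s m ≤ s := Nat.gcd_le_left _ hs
  obtain ⟨e, he⟩ := Nat.gcd_dvd_right s m
  have he1 : e ≠ 1 := by
    rintro rfl
    omega
  obtain ⟨q, hq, c, hc⟩ := Nat.exists_prime_and_dvd he1
  have hmq : m / q = Nat.gcd s m * c := by
    have e1 : m = q * (Nat.gcd s m * c) := by
      calc m = Nat.gcd s m * e := he
        _ = Nat.gcd s m * (q * c) := by rw [← hc]
        _ = q * (Nat.gcd s m * c) := by ring
    calc m / q = q * (Nat.gcd s m * c) / q := by rw [← e1]
      _ = Nat.gcd s m * c := Nat.mul_div_cancel_left _ hq.pos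
  refine ⟨q, hq, (Dvd.intro c hc.symm).trans (Dvd.intro_left _ he.symm), ?_⟩
  set A := Nat.gcdA s m with hA
  set B := Nat.gcdB s m with hB
  have hb : ((Nat.gcd s m : ℕ) : ℤ) = s * A + m * B := Nat.gcd_eq_gcd_ab s m
  have hnn : 0 ≤ A * c + m * |A * c| := by
    have h1 : -|A * c| ≤ A * c := neg_abs_le _
    have h2 : (1 : ℤ) ≤ m := by exact_mod_cast hm
    nlinarith [abs_nonneg (A * c)]
  refine ⟨(A * c + m * |A * c|).toNat, |A * c| * s - B * c, ?_⟩
  rw [Int.toNat_of_nonneg hnn, hmq]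
  push_cast
  rw [hb]
  ring

theorem crit [IsSimpleGroup T] (hT : ∃ a b : T, a * b ≠ b * a) (hm : 2 ≤ m) (μ : N)
    (h : ¬ Gen (μ : G) D.g) :
    (∃ K0 : Subgroup T, K0 ≠ ⊤ ∧ (∀ t ∈ K0, D.a t ∈ K0) ∧ ∀ k : ℤ, D.P k μ ∈ K0) ∨
    (∃ q : ℕ, q.Prime ∧ q ∣ m ∧ ∃ ψ : MulAut T, Commute ψ D.a ∧
      ∀ k : ℤ, D.P k μ = ψ (D.P (k - (m / q : ℕ)) μ)) := by
  classical
  set H : Subgroup G := Subgroup.closure ({(μ : G), D.g} : Set G) with hH
  have hμH : (μ : G) ∈ H := Subgroup.subset_closure (by simp)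
  have hgH : D.g ∈ H := Subgroup.subset_closure (by simp)
  have hHt : H ≠ ⊤ := h
  set K : Subgroup N := H.subgroupOf N with hK
  have hμK : μ ∈ K := by
    rw [hK, Subgroup.mem_subgroupOf]
    exact hμH
  have hconj : ∀ (j : ℤ) (r : N), r ∈ K → MulAut.conjNormal (D.g ^ j) r ∈ K := by
    intro j r hr
    rw [hK, Subgroup.mem_subgroupOf] at hr ⊢
    rw [MulAut.conjNormal_apply]
    exact H.mul_mem (H.mul_mem (H.zpow_mem hgH j) hr) (H.inv_mem (H.zpow_mem hgH j))
  have hKt : K ≠ ⊤ := by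
    intro hKt
    apply hHt
    rw [eq_top_iff]
    intro x _
    obtain ⟨i, hi⟩ := D.cov x
    obtain ⟨n, hn, rfl⟩ := mem_co_iff.1 hi
    have h1 : (⟨n, hn⟩ : N) ∈ K := by rw [hKt]; trivial
    rw [hK, Subgroup.mem_subgroupOf] at h1
    exact H.mul_mem h1 (H.zpow_mem hgH i)
  have hP : ∀ (k : ℤ) (r : N), r ∈ K → D.P k r ∈ K.map D.p := by
    intro k r hr
    rw [P_apply]
    exact Subgroup.mem_map_of_mem _ (hconj _ _ hr)
  by_cases hK0 : K.map D.p = ⊤
  · right
    -- each P k is onto on K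
    have honto : ∀ (k : ℤ) (t : T), ∃ r ∈ K, D.P k r = t := by
      intro k t
      have ht : t ∈ K.map D.p := by rw [hK0]; trivial
      obtain ⟨r, hr, rfl⟩ := Subgroup.mem_map.1 ht
      refine ⟨MulAut.conjNormal (D.g ^ k) r, hconj _ _ hr, ?_⟩
      rw [P_conj, sub_self, P_zero]
    -- a dependent pair
    have hdep : ∃ j l : Fin m, j ≠ l ∧ ∃ φ : MulAut T, ∀ r ∈ K, D.P ((l : ℕ) : ℤ) r =
        φ (D.P ((j : ℕ) : ℤ) r) := by
      by_contra hcon
      apply hKt
      have hpair : ∀ i j : Fin m, i ≠ j → ∀ s t : T, ∃ x : K,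
          ((D.P ((i : ℕ) : ℤ)).comp K.subtype) x = s ∧
          ((D.P ((j : ℕ) : ℤ)).comp K.subtype) x = t := by
        intro i j hij
        rcases goursat ((D.P ((i : ℕ) : ℤ)).comp K.subtype) ((D.P ((j : ℕ) : ℤ)).comp K.subtype)
          (fun t => by
            obtain ⟨r, hr, hrt⟩ := honto ((i : ℕ) : ℤ) t
            exact ⟨⟨r, hr⟩, hrt⟩)
          (fun t => by
            obtain ⟨r, hr, hrt⟩ := honto ((j : ℕ) : ℤ) t
            exact ⟨⟨r, hr⟩, hrt⟩) with h1 | ⟨φ, hφ⟩
        · exact h1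
        · exact absurd ⟨i, j, hij, φ, fun r hr => hφ ⟨r, hr⟩⟩ hcon
      rw [eq_top_iff]
      intro r _
      obtain ⟨x, hx⟩ := scott (commutator_eq_top hT)
        (fun k : Fin m => (D.P ((k : ℕ) : ℤ)).comp K.subtype)
        (fun k t => by
            obtain ⟨r, hr, hrt⟩ := honto ((k : ℕ) : ℤ) t
            exact ⟨⟨r, hr⟩, hrt⟩)
        hpair (fun k => D.P ((k : ℕ) : ℤ) r)
      have hxr : (x : N) = r := by
        apply D.P_ext
        intro k hk hk'
        have := hx ⟨k.toNat, by omega⟩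
        have e : ((k.toNat : ℕ) : ℤ) = k := Int.toNat_of_nonneg hk
        simp only [MonoidHom.comp_apply, Subgroup.coe_subtype, e] at this
        exact this
      rw [← hxr]
      exact x.2
    -- normalise j < l
    have hdep2 : ∃ (j : ℤ) (s : ℕ), 0 < s ∧ s < m ∧ ∃ φ : MulAut T, ∀ r ∈ K,
        D.P (j + s) r = φ (D.P j r) := by
      obtain ⟨j, l, hjl, φ, hφ⟩ := hdep
      rcases lt_or_gt_of_ne hjl with hlt | hlt
      · refine ⟨((j : ℕ) : ℤ), (l : ℕ) - (j : ℕ), by omega, by omega, φ, fun r hr => ?_⟩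
        have e : ((j : ℕ) : ℤ) + (((l : ℕ) - (j : ℕ) : ℕ) : ℤ) = ((l : ℕ) : ℤ) := by
          have : (j : ℕ) < l := hlt
          omega
        rw [e]
        exact hφ r hr
      · refine ⟨((l : ℕ) : ℤ), (j : ℕ) - (l : ℕ), by omega, by omega, φ⁻¹, fun r hr => ?_⟩
        have e : ((l : ℕ) : ℤ) + (((j : ℕ) - (l : ℕ) : ℕ) : ℤ) = ((j : ℕ) : ℤ) := by
          have : (l : ℕ) < j := hlt
          omega
        rw [e, hφ r hr, MulAut.inv_apply_self]
    obtain ⟨j, s, hs0, hsm, φ, hφ⟩ := hdep2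
    have hs : ∀ (k : ℤ) (r : N), r ∈ K → D.P k r = φ (D.P (k - s) r) := by
      intro k r hr
      have h1 := hφ _ (hconj (j + s - k) r hr)
      rw [P_conj, P_conj] at h1
      have e1 : j + (s : ℤ) - (j + s - k) = k := by ring
      have e2 : j - (j + (s : ℤ) - k) = k - s := by ring
      rwa [e1, e2] at h1
    have hiter : ∀ (u : ℕ) (k : ℤ) (r : N), r ∈ K → D.P k r = (φ ^ u) (D.P (k - u * s) r) := by
      intro u
      induction u with
      | zero => intro k r _; simp
      | succ u ih =>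
        intro k r hr
        rw [ih k r hr, hs (k - u * s) r hr, pow_succ, MulAut.mul_apply]
        congr 3
        push_cast
        ring_nf
    have hcomm : Commute φ D.a := by
      apply MulEquiv.ext
      intro t
      obtain ⟨r, hr, rfl⟩ := honto (0 - (s : ℤ)) t
      rw [MulAut.mul_apply, MulAut.mul_apply, ← hs 0 r hr, ← P_per, ← P_per, hs (0 - m) r hr]
      congr 2
      ring_nf
    obtain ⟨q, hq, hqm, u, v, huv⟩ := exists_mul_eq_div hs0 hsm
    refine ⟨q, hq, hqm, φ ^ u * D.a ^ v,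
      (hcomm.pow_left u).mul_left ((Commute.refl D.a).zpow_left v), fun k => ?_⟩
    rw [hiter u k μ hμK, MulAut.mul_apply, ← P_per_mul, huv]
    congr 2
    ring_nf
  · left
    refine ⟨K.map D.p, hK0, ?_, fun k => hP k μ hμK⟩
    intro t ht
    obtain ⟨r, hr, rfl⟩ := Subgroup.mem_map.1 ht
    rw [← D.per]
    exact Subgroup.mem_map_of_mem _ (hconj _ _ hr)

theorem crit_xh [IsSimpleGroup T] (hT : ∃ a b : T, a * b ≠ b * a) (hm : 2 ≤ m) {x z : G}
    {i : ℤ} (hx : x ∈ co N D.g i) (hz : z ∈ co N D.g 1) (h : ¬ Gen x z) :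
    (∃ K0 : Subgroup T, K0 ≠ ⊤ ∧ (∀ t ∈ K0, D.az z t ∈ K0) ∧ ∀ k : ℤ, D.xh x i z k ∈ K0) ∨
    (∃ q : ℕ, q.Prime ∧ q ∣ m ∧ ∃ ψ : MulAut T, Commute ψ (D.az z) ∧
      ∀ k : ℤ, D.xh x i z k = ψ (D.xh x i z (k - (m / q : ℕ)))) := by
  have h2 : ¬ Gen (((⟨x * z ^ (-i), D.xz_mem hx hz⟩ : N) : N) : G) (D.frame z hz).g := by
    intro h3
    apply h
    unfold Gen at h3 ⊢
    rw [eq_top_iff] at h3 ⊢
    refine h3.trans ?_
    rw [Subgroup.closure_le]
    intro y hy
    have hxm : x ∈ Subgroup.closure ({x, z} : Set G) := Subgroup.subset_closure (by simp)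
    have hzm : z ∈ Subgroup.closure ({x, z} : Set G) := Subgroup.subset_closure (by simp)
    rcases hy with rfl | rfl
    · exact Subgroup.mul_mem _ hxm (Subgroup.zpow_mem _ hzm _)
    · exact hzm
  have h3 := (D.frame z hz).crit hT hm _ h2
  simp only [D.frame_P_eq_xh hx hz, frame_a] at h3
  exact h3

end Dat

end HG17
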