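import Pool.Agent.HG17.CntP
import Pool.Agent.HG17.CntD
import Pool.Agent.HG17.Crit

/-!
# HG17/BadCard: the number of mu in N that do not generate with g (PROVE ME, 40-80 lines)

Proof. By `Dat.crit` the set {mu | not Gen mu g} is contained in the union of the sets
A_K0 = {mu | for all k, P k mu in K0} over the subgroups K0 <> top and of the sets
B_(s,psi) = {mu | for all k, P k mu = psi (P (k - s) mu)} over psi : MulAut T and s in
{1, ..., m} with 2 s <= m (s = m / q, q prime dividing m: s > 0 and 2 s <= q s = m).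
By `cnt_P`, `cnt_D` each of them, multiplied by 2^m, is at most (card T)^m. The number of sets is at
most card (Subgroup T) + m * card (MulAut T) (index the second family by s - 1 in Fin m; if not
2 s <= m replace the set by the empty set). Union bound: Set.ncard_iUnion_le or
Finset.card_biUnion_le; Subgroup T and MulAut T are finite. Do not change the statement.
-/

namespace HG17

namespace Dat

variable {G : Type*} [Group G] {T : Type*} [Group T] {N : Subgroup G} [N.Normal] {m : ℕ}
variable (D : Dat T N m)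

theorem bad_card [Finite G] [Finite T] [IsSimpleGroup T] (hT : ∃ a b : T, a * b ≠ b * a)
    (h4 : 4 ≤ Nat.card T) (hm : 2 ≤ m) :
    2 ^ m * {μ : N | ¬ Gen (μ : G) D.g}.ncard ≤
      (Nat.card (Subgroup T) + m * Nat.card (MulAut T)) * Nat.card T ^ m := by
  classical
  have : Finite (MulAut T) :=
    Finite.of_injective (fun f : MulAut T => (f : T → T)) DFunLike.coe_injective
  have := Fintype.ofFinite (MulAut T)
  have := Fintype.ofFinite (Subgroup T)
  let F : Subgroup T ⊕ (Fin m × MulAut T) → Set N := fun i =>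
    match i with
    | Sum.inl K => if K ≠ ⊤ then {μ : N | ∀ k : ℤ, D.P k μ ∈ K} else ∅
    | Sum.inr (s, ψ) => if 2 * ((s : ℕ) + 1) ≤ m then
        {μ : N | ∀ k : ℤ, D.P k μ = ψ (D.P (k - (((s : ℕ) + 1 : ℕ) : ℤ)) μ)} else ∅
  have hF : ∀ i, 2 ^ m * (F i).ncard ≤ Nat.card T ^ m := by
    rintro (K | ⟨s, ψ⟩)
    · by_cases hK : K ≠ ⊤
      · have e : F (Sum.inl K) = {μ : N | ∀ k : ℤ, D.P k μ ∈ K} := if_pos hK
        rw [e]
        exact D.cnt_P K hK
      · have e : F (Sum.inl K) = ∅ := if_neg hK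
        rw [e, Set.ncard_empty, mul_zero]
        exact Nat.zero_le _
    · by_cases hs : 2 * ((s : ℕ) + 1) ≤ m
      · have e : F (Sum.inr (s, ψ)) =
            {μ : N | ∀ k : ℤ, D.P k μ = ψ (D.P (k - (((s : ℕ) + 1 : ℕ) : ℤ)) μ)} := if_pos hs
        rw [e]
        exact D.cnt_D h4 ((s : ℕ) + 1) (Nat.succ_pos _) hs ψ
      · have e : F (Sum.inr (s, ψ)) = ∅ := if_neg hs
        rw [e, Set.ncard_empty, mul_zero]
        exact Nat.zero_le _
  have hsub : {μ : N | ¬ Gen (μ : G) D.g} ⊆ ⋃ i, F i := by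
    intro μ hμ
    rcases D.crit hT hm μ hμ with ⟨K0, hK0, _, hP⟩ | ⟨q, hq, hqm, ψ, _, hP⟩
    · refine Set.mem_iUnion.2 ⟨Sum.inl K0, ?_⟩
      have e : F (Sum.inl K0) = {μ : N | ∀ k : ℤ, D.P k μ ∈ K0} := if_pos hK0
      rw [e]
      exact hP
    · obtain ⟨c, rfl⟩ := hqm
      have hq0 : 0 < q := hq.pos
      have hq2 : 2 ≤ q := hq.two_le
      have hc : q * c / q = c := Nat.mul_div_cancel_left c hq0
      rw [hc] at hP
      have hc0 : 0 < c := by
        rcases Nat.eq_zero_or_pos c with h | h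
        · rw [h, mul_zero] at hm
          omega
        · exact h
      have hlt : c - 1 < q * c := by
        have : c ≤ q * c := Nat.le_mul_of_pos_left c hq0
        omega
      have hc1 : c - 1 + 1 = c := by omega
      refine Set.mem_iUnion.2 ⟨Sum.inr (⟨c - 1, hlt⟩, ψ), ?_⟩
      have hs : 2 * (((⟨c - 1, hlt⟩ : Fin (q * c)) : ℕ) + 1) ≤ q * c := by
        show 2 * (c - 1 + 1) ≤ q * c
        rw [hc1]
        exact Nat.mul_le_mul_right c hq2
      have e : F (Sum.inr (⟨c - 1, hlt⟩, ψ)) =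
          {μ : N | ∀ k : ℤ, D.P k μ = ψ (D.P (k - ((c - 1 + 1 : ℕ) : ℤ)) μ)} := if_pos hs
      rw [e, hc1]
      exact hP
  have h1 : {μ : N | ¬ Gen (μ : G) D.g}.ncard ≤ ∑ i, (F i).ncard := by
    refine (Set.ncard_le_ncard hsub (Set.toFinite _)).trans ?_
    exact Set.ncard_iUnion_le_of_fintype F
  calc 2 ^ m * {μ : N | ¬ Gen (μ : G) D.g}.ncard ≤ 2 ^ m * ∑ i, (F i).ncard :=
        Nat.mul_le_mul_left _ h1
    _ = ∑ i, 2 ^ m * (F i).ncard := Finset.mul_sum _ _ _
    _ ≤ ∑ _i : Subgroup T ⊕ (Fin m × MulAut T), Nat.card T ^ m :=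
        Finset.sum_le_sum fun i _ => hF i
    _ = (Nat.card (Subgroup T) + m * Nat.card (MulAut T)) * Nat.card T ^ m := by
        rw [Finset.sum_const, Finset.card_univ, Fintype.card_sum, Fintype.card_prod,
          Fintype.card_fin, Nat.card_eq_fintype_card (α := Subgroup T),
          Nat.card_eq_fintype_card (α := MulAut T), smul_eq_mul]

end Dat

end HG17
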