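import Pool.Agent.HG17.Coset

/-!
# Basic facts on the data
-/

namespace HG17

namespace Dat

variable {G : Type*} [Group G] {T : Type*} [Group T] {N : Subgroup G} [N.Normal] {m : ℕ}
variable (D : Dat T N m)

theorem P_apply (k : ℤ) (r : N) : D.P k r = D.p (MulAut.conjNormal (D.g ^ (-k)) r) := rfl

theorem P_zero (r : N) : D.P 0 r = D.p r := by
  rw [P_apply]
  simp

theorem P_conj (j k : ℤ) (r : N) :
    D.P k (MulAut.conjNormal (D.g ^ j) r) = D.P (k - j) r := by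
  rw [P_apply, P_apply, ← MulAut.mul_apply, ← map_mul, ← zpow_add]
  congr 3
  ring_nf

theorem P_per (k : ℤ) (r : N) : D.P (k - m) r = D.a (D.P k r) := by
  rw [P_apply D k r, ← D.per, ← MulAut.mul_apply, ← map_mul, ← zpow_add, P_apply]
  congr 3
  ring_nf

theorem P_add (k : ℤ) (r : N) : D.P (k + m) r = D.a⁻¹ (D.P k r) := by
  have h := D.P_per (k + m) r
  rw [add_sub_cancel_right] at h
  rw [h, MulAut.inv_apply_self]

theorem P_per_mul (l k : ℤ) (r : N) : D.P (k - m * l) r = (D.a ^ l) (D.P k r) := by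
  induction l using Int.induction_on generalizing k with
  | zero => simp
  | succ i ih =>
    have e : k - (m : ℤ) * ((i : ℤ) + 1) = (k - (m : ℤ) * i) - m := by ring
    rw [e, P_per, ih, zpow_add, zpow_one, ← MulAut.mul_apply]
    congr 1
    exact (Commute.refl D.a).zpow_right _ |>.eq
  | pred i ih =>
    have e : k - (m : ℤ) * (-(i : ℤ) - 1) = (k - (m : ℤ) * (-(i : ℤ))) + m := by ring
    rw [e, P_add, ih, sub_eq_add_neg, zpow_add, zpow_neg_one, ← MulAut.mul_apply]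
    congr 1
    exact ((Commute.refl D.a).zpow_right _).inv_left |>.eq

/-- `N` is determined by the coordinates `0, ..., m-1` -/
theorem P_ext {r s : N} (h : ∀ k : ℤ, 0 ≤ k → k < m → D.P k r = D.P k s) : r = s := by
  apply D.bij.1
  funext k
  exact h _ (by positivity) (by exact_mod_cast k.2)

theorem P_surj (f : ℤ → T) : ∃ r : N, ∀ k : ℤ, 0 ≤ k → k < m → D.P k r = f k := by
  obtain ⟨r, hr⟩ := D.bij.2 (fun k => f k)
  refine ⟨r, fun k hk hk' => ?_⟩
  have h := congrFun hr ⟨k.toNat, by omega⟩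
  have e : ((k.toNat : ℕ) : ℤ) = k := Int.toNat_of_nonneg hk
  simp only [e] at h
  exact h

/-- reduction modulo `m` -/
theorem P_mod (k : ℤ) (r : N) : D.P k r = (D.a ^ (-(k / m))) (D.P (k % m) r) := by
  rw [← D.P_per_mul]
  congr 2
  have := Int.emod_add_mul_ediv k m
  linarith

theorem P_onto (hm : 0 < m) (k : ℤ) : Function.Surjective (D.P k) := by
  intro t
  obtain ⟨r, hr⟩ := D.P_surj (fun _ => (D.a ^ (-(k / m)))⁻¹ t)
  refine ⟨r, ?_⟩
  have hm' : (0 : ℤ) < m := by exact_mod_cast hm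
  rw [P_mod, hr _ (Int.emod_nonneg _ hm'.ne') (Int.emod_lt_of_pos _ hm'), MulAut.apply_inv_self]

theorem P_indep (hm : 0 < m) {k l : ℤ} (h : ¬ (m : ℤ) ∣ k - l) (s t : T) :
    ∃ r, D.P k r = s ∧ D.P l r = t := by
  classical
  have hm' : (0 : ℤ) < m := by exact_mod_cast hm
  have hkl : k % m ≠ l % m := fun e => h (Int.ModEq.dvd (show l ≡ k [ZMOD m] from e.symm))
  obtain ⟨r, hr⟩ := D.P_surj (fun j => if j = k % m then (D.a ^ (-(k / m)))⁻¹ s
    else (D.a ^ (-(l / m)))⁻¹ t)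
  refine ⟨r, ?_, ?_⟩
  · rw [P_mod, hr _ (Int.emod_nonneg _ hm'.ne') (Int.emod_lt_of_pos _ hm'), if_pos rfl,
      MulAut.apply_inv_self]
  · rw [P_mod, hr _ (Int.emod_nonneg _ hm'.ne') (Int.emod_lt_of_pos _ hm'),
      if_neg (Ne.symm hkl), MulAut.apply_inv_self]

include D in
theorem card_N : Nat.card N = Nat.card T ^ m := by
  rw [Nat.card_eq_of_bijective _ D.bij, Nat.card_fun, Nat.card_fin]

/-! ### the extension `pv` of `p` -/

theorem pv_of_mem {x : G} (h : x ∈ N) : D.pv x = D.p ⟨x, h⟩ := dif_pos h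

theorem pv_coe (r : N) : D.pv r = D.p r := D.pv_of_mem r.2

theorem pv_one : D.pv 1 = 1 := by
  rw [D.pv_of_mem N.one_mem]
  exact D.p.map_one

theorem pv_mul {x y : G} (hx : x ∈ N) (hy : y ∈ N) : D.pv (x * y) = D.pv x * D.pv y := by
  rw [D.pv_of_mem hx, D.pv_of_mem hy, D.pv_of_mem (N.mul_mem hx hy), ← map_mul]
  rfl

theorem pv_inv {x : G} (hx : x ∈ N) : D.pv x⁻¹ = (D.pv x)⁻¹ := by
  rw [D.pv_of_mem hx, D.pv_of_mem (N.inv_mem hx), ← map_inv]
  rfl

theorem P_eq_pv (k : ℤ) (r : N) : D.P k r = D.pv (D.g ^ (-k) * r * D.g ^ k) := by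
  have h : D.g ^ (-k) * (r : G) * D.g ^ k = (MulAut.conjNormal (D.g ^ (-k)) r : N) := by
    rw [MulAut.conjNormal_apply, zpow_neg, inv_inv]
  rw [h, pv_coe, P_apply]

/-! ### the coordinates `eta` -/

theorem gz_mem {z : G} (hz : z ∈ co N D.g 1) (k : ℤ) : D.g ^ (-k) * z ^ k ∈ N := by
  have h := mul_mem_co (g_mem_co N D.g (-k)) (zpow_mem_co hz k)
  have e : -k + 1 * k = 0 := by ring
  rw [e, co_zero] at h
  exact h

theorem eta_zero (z : G) : D.eta z 0 = 1 := by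
  unfold eta
  simp [pv_one]

theorem eta_add {z : G} (hz : z ∈ co N D.g 1) (k t : ℤ) :
    D.eta z (k + t) = D.P t ⟨D.g ^ (-k) * z ^ k, D.gz_mem hz k⟩ * D.eta z t := by
  rw [P_eq_pv]
  unfold eta
  rw [← D.pv_mul _ (D.gz_mem hz t)]
  · congr 1
    rw [zpow_add]
    group
  · have := (inferInstance : N.Normal).conj_mem _ (D.gz_mem hz k) (D.g ^ (-t))
    rwa [zpow_neg D.g t, inv_inv, ← zpow_neg D.g t] at this

theorem eta_add_m {z : G} (hz : z ∈ co N D.g 1) (k : ℤ) :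
    D.eta z (k + m) = D.a⁻¹ (D.eta z k) * D.eta z m := by
  rw [D.eta_add hz]
  congr 1
  have h := D.P_add 0 ⟨D.g ^ (-k) * z ^ k, D.gz_mem hz k⟩
  rw [zero_add] at h
  rw [h, P_zero]
  congr 1
  exact (D.pv_of_mem _).symm

theorem eta_sub_mul {z : G} (hz : z ∈ co N D.g 1) (k l : ℤ) :
    D.eta z (k - m * l) = (D.a ^ l) (D.eta z k) * D.eta z (-(m * l)) := by
  rw [sub_eq_add_neg, D.eta_add hz]
  congr 1
  have h := D.P_per_mul l 0 ⟨D.g ^ (-k) * z ^ k, D.gz_mem hz k⟩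
  rw [zero_sub] at h
  rw [h, P_zero]
  congr 1
  exact (D.pv_of_mem _).symm

theorem eta_succ {z : G} (hz : z ∈ co N D.g 1) (k : ℤ) :
    D.eta z (k + 1) = D.P (k + 1) ⟨z * D.g ^ (-1 : ℤ), hz⟩ * D.eta z k := by
  rw [P_eq_pv]
  unfold eta
  rw [← D.pv_mul _ (D.gz_mem hz k)]
  · congr 1
    group
  · have := (inferInstance : N.Normal).conj_mem _ hz (D.g ^ (-(k + 1)))
    rwa [zpow_neg D.g (k + 1), inv_inv, ← zpow_neg D.g (k + 1)] at this

end Dat

end HG17
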