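import Pool.Agent.HG17.GDefs

/-!
# HG17/Cat: concatenation of Hamiltonian paths, complete graphs (PROVE ME, 80-130 lines)

`HamP.single`: k = 1, f = const u.
`HamP.mono`: same path; f j is in s for j < k.
`HamP.cat`: paths (k, f), (k', f'); take k + k' and F j = if j < k then f j else f' (j - k).
F is a bijection of Iio (k + k') onto s union s' (injective since s, s' are disjoint); link at
j = k - 1: F (k-1) = w, F k = f' 0 = u'.
`ham_complete`: induction on s.ncard. If s = {u, w} use cat of two singles. Otherwise pick v in s
different from u, w; by induction HamP R (s minus {u}) v w (the hypothesis is inherited), and cat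
(single u) with it (R u v), {u} union (s minus {u}) = s.
`ham_bipartite`: both statements together by induction on Y.ncard (statement: for all X, Y, u, w).
Equal sizes: if Y.ncard = 1 then X = {u}, Y = {w}, cat of two singles. Otherwise pick y in Y, y <> w;
the second statement for X minus {u} and Y gives a path of the rest from y to w; prepend u. (So prove
the second statement for size n first, from the first one for size n - 1:) sizes X.ncard + 1 = Y.ncard,
u <> w in Y: X is nonempty (Y has two elements); pick x in X; the first statement for X and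
Y minus {u} gives a path from x to w; prepend u. Do not change the statements.
-/

namespace HG17

theorem HamP.single {V : Type*} (R : V → V → Prop) (u : V) : HamP R {u} u u := by
  refine ⟨1, fun _ => u, by norm_num, rfl, rfl, ⟨?_, ?_, ?_⟩, fun j hj => by omega⟩
  · intro j _
    exact rfl
  · intro i hi j hj _
    have h1 : i < 1 := hi
    have h2 : j < 1 := hj
    omega
  · intro x hx
    exact ⟨0, by simp, hx.symm⟩

theorem HamP.mono {V : Type*} {R R' : V → V → Prop} {s : Set V} {u w : V} (h : HamP R s u w)
    (hR : ∀ a ∈ s, ∀ b ∈ s, R a b → R' a b) : HamP R' s u w := by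
  obtain ⟨k, f, hk, h0, h1, hb, hl⟩ := h
  exact ⟨k, f, hk, h0, h1, hb, fun j hj =>
    hR _ (hb.mapsTo (show j < k by omega)) _ (hb.mapsTo (show j + 1 < k from hj)) (hl j hj)⟩

theorem HamP.cat {V : Type*} {R : V → V → Prop} {s s' : Set V} {u w u' w' : V}
    (h : HamP R s u w) (h' : HamP R s' u' w') (hd : Disjoint s s') (hR : R w u') :
    HamP R (s ∪ s') u w' := by
  obtain ⟨k, f, hk, h0, h1, hb, hl⟩ := h
  obtain ⟨k', f', hk', h0', h1', hb', hl'⟩ := h'
  refine ⟨k + k', fun j => if j < k then f j else f' (j - k), by omega, ?_, ?_, ⟨?_, ?_, ?_⟩, ?_⟩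
  · show (if 0 < k then f 0 else f' (0 - k)) = u
    rw [if_pos hk, h0]
  · show (if k + k' - 1 < k then f (k + k' - 1) else f' (k + k' - 1 - k)) = w'
    rw [if_neg (by omega)]
    have : k + k' - 1 - k = k' - 1 := by omega
    rw [this, h1']
  · intro j hj
    have hj' : j < k + k' := hj
    show (if j < k then f j else f' (j - k)) ∈ s ∪ s'
    split_ifs with h
    · exact Or.inl (hb.mapsTo h)
    · exact Or.inr (hb'.mapsTo (show j - k < k' by omega))
  · intro i hi j hj hij
    have hi' : i < k + k' := hi
    have hj' : j < k + k' := hj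
    have hij' : (if i < k then f i else f' (i - k)) = (if j < k then f j else f' (j - k)) := hij
    split_ifs at hij' with h2 h3 h3
    · exact hb.injOn h2 h3 hij'
    · exfalso
      have e1 := hb.mapsTo h2
      have e2 := hb'.mapsTo (show j - k < k' by omega)
      rw [hij'] at e1
      exact Set.disjoint_left.1 hd e1 e2
    · exfalso
      have e1 := hb.mapsTo h3
      have e2 := hb'.mapsTo (show i - k < k' by omega)
      rw [← hij'] at e1
      exact Set.disjoint_left.1 hd e1 e2
    · have := hb'.injOn (show i - k < k' by omega) (show j - k < k' by omega) hij'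
      omega
  · intro x hx
    rcases hx with hx | hx
    · obtain ⟨j, hj, rfl⟩ := hb.surjOn hx
      have hj' : j < k := hj
      refine ⟨j, show j < k + k' by omega, ?_⟩
      show (if j < k then f j else f' (j - k)) = f j
      rw [if_pos hj']
    · obtain ⟨j, hj, rfl⟩ := hb'.surjOn hx
      have hj' : j < k' := hj
      refine ⟨k + j, show k + j < k + k' by omega, ?_⟩
      show (if k + j < k then f (k + j) else f' (k + j - k)) = f' j
      rw [if_neg (by omega), Nat.add_sub_cancel_left]
  · intro j hj
    show R (if j < k then f j else f' (j - k)) (if j + 1 < k then f (j + 1) else f' (j + 1 - k))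
    by_cases h2 : j + 1 < k
    · rw [if_pos (by omega), if_pos h2]
      exact hl j h2
    · by_cases h3 : j < k
      · have h4 : j = k - 1 := by omega
        have h5 : j + 1 - k = 0 := by omega
        rw [if_pos h3, if_neg h2, h5, h4, h1, h0']
        exact hR
      · have h4 : j + 1 - k = (j - k) + 1 := by omega
        rw [if_neg h3, if_neg h2, h4]
        exact hl' (j - k) (by omega)

theorem ham_complete {V : Type*} {R : V → V → Prop} {s : Set V} (hf : s.Finite)
    (hR : ∀ a ∈ s, ∀ b ∈ s, a ≠ b → R a b) {u w : V} (hu : u ∈ s) (hw : w ∈ s) (huw : u ≠ w) :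
    HamP R s u w := by
  obtain ⟨n, hn⟩ : ∃ n, n = s.ncard := ⟨_, rfl⟩
  induction n using Nat.strong_induction_on generalizing s u with
  | _ n ih =>
    by_cases h : ∃ v ∈ s, v ≠ u ∧ v ≠ w
    · obtain ⟨v, hv, hvu, hvw⟩ := h
      have hf' : (s \ {u}).Finite := hf.subset Set.diff_subset
      have hc : (s \ {u}).ncard < n := by
        rw [hn]
        exact Set.ncard_diff_singleton_lt_of_mem hu hf
      have h1 := ih _ hc hf' (fun a ha b hb hab => hR a ha.1 b hb.1 hab) (u := v)
        ⟨hv, hvu⟩ ⟨hw, fun h => huw h.symm⟩ hvw rfl
      have h2 := HamP.cat (HamP.single R u) h1 (by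
        rw [Set.disjoint_left]
        rintro x hx ⟨-, hx'⟩
        exact hx' hx) (hR u hu v hv (Ne.symm hvu))
      have e : {u} ∪ s \ {u} = s := Set.union_diff_cancel (Set.singleton_subset_iff.2 hu)
      rwa [e] at h2
    · push Not at h
      have h2 := HamP.cat (HamP.single R u) (HamP.single R w) (by
        rw [Set.disjoint_singleton]
        exact huw) (hR u hu w hw huw)
      have e : {u} ∪ {w} = s := by
        ext x
        constructor
        · rintro (rfl | rfl)
          · exact hu
          · exact hw
        · intro hx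
          by_cases hxu : x = u
          · exact Or.inl hxu
          · exact Or.inr (h x hx hxu)
      rwa [e] at h2

theorem ham_bipartite {V : Type*} {R : V → V → Prop} (hs : ∀ a b, R a b → R b a)
    {X Y : Set V} (hX : X.Finite) (hY : Y.Finite) (hd : Disjoint X Y)
    (hR : ∀ x ∈ X, ∀ y ∈ Y, R x y) :
    (X.ncard = Y.ncard → ∀ u ∈ X, ∀ w ∈ Y, HamP R (X ∪ Y) u w) ∧
    (X.ncard + 1 = Y.ncard → ∀ u ∈ Y, ∀ w ∈ Y, u ≠ w → HamP R (X ∪ Y) u w) := by
  obtain ⟨n, hn⟩ : ∃ n, n = X.ncard + Y.ncard := ⟨_, rfl⟩
  induction n using Nat.strong_induction_on generalizing X Y with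
  | _ n ih =>
    constructor
    · intro hXY u hu w hw
      have huw : u ∉ Y := Set.disjoint_left.1 hd hu
      have hX1 : 0 < X.ncard := (Set.ncard_pos hX).2 ⟨u, hu⟩
      by_cases h : ∃ y ∈ Y, y ≠ w
      · obtain ⟨y, hy, hyw⟩ := h
        have hX' : (X \ {u}).Finite := hX.subset Set.diff_subset
        have hc : (X \ {u}).ncard + 1 = X.ncard := Set.ncard_diff_singleton_add_one hu hX
        have h1 := (ih ((X \ {u}).ncard + Y.ncard) (by omega) hX' hY
          (hd.mono_left Set.diff_subset) (fun x hx y hy => hR x hx.1 y hy) rfl).2 (by omega)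
          y hy w hw hyw
        have h2 := HamP.cat (HamP.single R u) h1 (by
          rw [Set.disjoint_left]
          rintro x hx (⟨-, hx'⟩ | hx')
          · exact hx' hx
          · rw [hx] at hx'
            exact huw hx') (hR u hu y hy)
        have e : {u} ∪ (X \ {u} ∪ Y) = X ∪ Y := by
          rw [← Set.union_assoc, Set.union_diff_cancel (Set.singleton_subset_iff.2 hu)]
        rwa [e] at h2
      · push Not at h
        have hYw : Y = {w} := by
          ext x
          exact ⟨fun hx => h x hx, fun hx => by rw [hx]; exact hw⟩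
        have hXc : X.ncard = 1 := by rw [hXY, hYw, Set.ncard_singleton]
        obtain ⟨x, hx⟩ := Set.ncard_eq_one.1 hXc
        have hxu : u = x := by
          rw [hx] at hu
          exact hu
        subst hxu
        rw [hx, hYw]
        refine HamP.cat (HamP.single R u) (HamP.single R w) ?_ (hR u hu w hw)
        rw [Set.disjoint_singleton]
        rintro rfl
        exact huw hw
    · intro hXY u hu w hw huw
      have huX : u ∉ X := fun h => Set.disjoint_left.1 hd h hu
      have hY' : (Y \ {u}).Finite := hY.subset Set.diff_subset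
      have hc : (Y \ {u}).ncard + 1 = Y.ncard := Set.ncard_diff_singleton_add_one hu hY
      have hXne : X.Nonempty := by
        rw [← Set.ncard_pos hX]
        have h2 : 1 < Y.ncard := (Set.one_lt_ncard_iff hY).2 ⟨u, w, hu, hw, huw⟩
        omega
      obtain ⟨x, hx⟩ := hXne
      have h1 := (ih (X.ncard + (Y \ {u}).ncard) (by omega) hX hY'
        (hd.mono_right Set.diff_subset) (fun x hx y hy => hR x hx y hy.1) rfl).1 (by omega)
        x hx w ⟨hw, fun h => huw h.symm⟩
      have h2 := HamP.cat (HamP.single R u) h1 (by
        rw [Set.disjoint_left]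
        rintro z hz (hz' | ⟨-, hz'⟩)
        · rw [hz] at hz'
          exact huX hz'
        · exact hz' hz) (hs _ _ (hR x hx u hu))
      have e : {u} ∪ (X ∪ Y \ {u}) = X ∪ Y := by
        rw [Set.union_left_comm, Set.union_diff_cancel (Set.singleton_subset_iff.2 hu)]
      rwa [e] at h2

end HG17
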