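import Pool.Agent.HG17.Clos
import Pool.Agent.HG17.Cat

/-!
# HG17/BipPath: Hamiltonian paths in dense bipartite graphs
-/

namespace HG17

theorem bip_key {V : Type*} {R : V → V → Prop} (hs : ∀ a b, R a b → R b a)
    {X Y : Set V} (hX : X.Finite) (hY : Y.Finite) (hd : Disjoint X Y) {h l : ℕ}
    (hYh : Y.ncard = h) (hl : 4 * l + 8 ≤ h) (hX1 : X.ncard ≤ h) (hX2 : h ≤ X.ncard + 1)
    (dX : ∀ x ∈ X, l + 3 ≤ dg R Y x) (dY : ∀ y ∈ Y, l + 3 ≤ dg R X y)
    (lX : {x | x ∈ X ∧ 4 * dg R Y x < 3 * h}.ncard ≤ l)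
    (lY : {y | y ∈ Y ∧ 4 * dg R X y < 3 * h}.ncard ≤ l) {u w : V}
    (hP : HamP (fun p q => (p ∈ X ∧ q ∈ Y) ∨ (p ∈ Y ∧ q ∈ X)) (X ∪ Y) u w) :
    HamP R (X ∪ Y) u w := by
  classical
  have hdj : ∀ v, v ∈ X → v ∈ Y → False := fun v h1 h2 => Set.disjoint_left.1 hd h1 h2
  have hf : (X ∪ Y).Finite := hX.union hY
  have hsn : (X ∪ Y).ncard = X.ncard + h := by
    rw [Set.ncard_union_eq hd hX hY, hYh]
  let cr : V → V → Prop := fun p q => (p ∈ X ∧ q ∈ Y) ∨ (p ∈ Y ∧ q ∈ X)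
  have crs : ∀ p q, cr p q → cr q p := fun p q hpq => by
    rcases hpq with ⟨h1, h2⟩ | ⟨h1, h2⟩
    · exact Or.inr ⟨h2, h1⟩
    · exact Or.inl ⟨h2, h1⟩
  have crm : ∀ p q, cr p q → q ∈ X ∪ Y := fun p q hpq => by
    rcases hpq with ⟨h1, h2⟩ | ⟨h1, h2⟩
    · exact Or.inr h2
    · exact Or.inl h2
  let c : V → Bool := fun v => decide (v ∈ X)
  have hc : ∀ p q, cr p q → c p ≠ c q := by
    intro p q hpq
    rcases hpq with ⟨h1, h2⟩ | ⟨h1, h2⟩
    · have h3 : q ∉ X := fun h => hdj q h h2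
      simp [c, h1, h3]
    · have h3 : p ∉ X := fun h => hdj p h h1
      simp [c, h2, h3]
  let d0 : V → ℕ := fun v => if v ∈ X then dg R Y v else dg R X v
  let n : V → ℕ := fun v => if v ∈ X then h else X.ncard
  let hi : V → Prop := fun v => 3 * h ≤ 4 * d0 v
  let R0 : V → V → Prop := fun p q => R p q ∧ cr p q
  have F1 : ∀ v ∈ X ∪ Y, d0 v ≤ dg R0 (X ∪ Y) v := by
    intro v hv
    by_cases hvX : v ∈ X
    · have e : d0 v = dg R Y v := if_pos hvX
      rw [e]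
      exact Set.ncard_le_ncard (fun q hq => ⟨Or.inr hq.1, hq.2, Or.inl ⟨hvX, hq.1⟩⟩)
        (hf.subset fun q hq => hq.1)
    · have hvY : v ∈ Y := hv.resolve_left hvX
      have e : d0 v = dg R X v := if_neg hvX
      rw [e]
      exact Set.ncard_le_ncard (fun q hq => ⟨Or.inl hq.1, hq.2, Or.inr ⟨hvY, hq.1⟩⟩)
        (hf.subset fun q hq => hq.1)
  have F1' : ∀ v ∈ X ∪ Y, l + 3 ≤ d0 v := by
    intro v hv
    by_cases hvX : v ∈ X
    · have e : d0 v = dg R Y v := if_pos hvX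
      rw [e]; exact dX v hvX
    · have e : d0 v = dg R X v := if_neg hvX
      rw [e]; exact dY v (hv.resolve_left hvX)
  have F2 : ∀ v ∈ X ∪ Y, n v ≤ {q | cr v q ∧ hi q}.ncard + l := by
    intro v hv
    by_cases hvX : v ∈ X
    · have e : n v = Y.ncard := by rw [hYh]; exact if_pos hvX
      rw [e]
      have hsub : Y ⊆ {q | cr v q ∧ hi q} ∪ {y | y ∈ Y ∧ 4 * dg R X y < 3 * h} := by
        intro q hq
        by_cases hq' : hi q
        · exact Or.inl ⟨Or.inl ⟨hvX, hq⟩, hq'⟩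
        · refine Or.inr ⟨hq, ?_⟩
          have e2 : d0 q = dg R X q := if_neg (fun h => hdj q h hq)
          have h3 : ¬ (3 * h ≤ 4 * d0 q) := hq'
          rw [e2] at h3
          omega
      calc Y.ncard ≤ ({q | cr v q ∧ hi q} ∪ {y | y ∈ Y ∧ 4 * dg R X y < 3 * h}).ncard :=
            Set.ncard_le_ncard hsub ((hf.subset fun q hq => crm _ _ hq.1).union
              (hY.subset fun q hq => hq.1))
        _ ≤ _ := Set.ncard_union_le _ _
        _ ≤ _ := Nat.add_le_add_left lY _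
    · have hvY : v ∈ Y := hv.resolve_left hvX
      have e : n v = X.ncard := if_neg hvX
      rw [e]
      have hsub : X ⊆ {q | cr v q ∧ hi q} ∪ {y | y ∈ X ∧ 4 * dg R Y y < 3 * h} := by
        intro q hq
        by_cases hq' : hi q
        · exact Or.inl ⟨Or.inr ⟨hvY, hq⟩, hq'⟩
        · refine Or.inr ⟨hq, ?_⟩
          have e2 : d0 q = dg R Y q := if_pos hq
          have h3 : ¬ (3 * h ≤ 4 * d0 q) := hq'
          rw [e2] at h3
          omega
      calc X.ncard ≤ ({q | cr v q ∧ hi q} ∪ {y | y ∈ X ∧ 4 * dg R Y y < 3 * h}).ncard :=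
            Set.ncard_le_ncard hsub ((hf.subset fun q hq => crm _ _ hq.1).union
              (hX.subset fun q hq => hq.1))
        _ ≤ _ := Set.ncard_union_le _ _
        _ ≤ _ := Nat.add_le_add_left lX _
  have F3 : ∀ p q, cr p q → n p + n q = X.ncard + h := by
    intro p q hpq
    rcases hpq with ⟨h1, h2⟩ | ⟨h1, h2⟩
    · have e1 : n p = h := if_pos h1
      have e2 : n q = X.ncard := if_neg (fun h => hdj q h h2)
      omega
    · have e1 : n q = h := if_pos h2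
      have e2 : n p = X.ncard := if_neg (fun h => hdj p h h1)
      omega
  have F4 : ∀ v, X.ncard ≤ n v := by
    intro v
    by_cases hvX : v ∈ X
    · have e1 : n v = h := if_pos hvX
      omega
    · have e1 : n v = X.ncard := if_neg hvX
      omega
  -- the relations
  let R1 : V → V → Prop := fun p q => R0 p q ∨ (cr p q ∧ hi p ∧ hi q)
  let R2 : V → V → Prop := fun p q => R0 p q ∨ (cr p q ∧ (hi p ∨ hi q))
  have s0 : ∀ p q, R0 p q → R0 q p := fun p q hpq => ⟨hs _ _ hpq.1, crs _ _ hpq.2⟩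
  have s1 : ∀ p q, R1 p q → R1 q p := by
    rintro p q (h1 | ⟨h1, h2, h3⟩)
    · exact Or.inl (s0 _ _ h1)
    · exact Or.inr ⟨crs _ _ h1, h3, h2⟩
  have s2 : ∀ p q, R2 p q → R2 q p := by
    rintro p q (h1 | ⟨h1, h2⟩)
    · exact Or.inl (s0 _ _ h1)
    · exact Or.inr ⟨crs _ _ h1, h2.symm⟩
  have c0 : ∀ p q, R0 p q → cr p q := fun p q hpq => hpq.2
  have c1 : ∀ p q, R1 p q → cr p q := by
    rintro p q (h1 | ⟨h1, h2, h3⟩)
    · exact c0 _ _ h1
    · exact h1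
  have c2 : ∀ p q, R2 p q → cr p q := by
    rintro p q (h1 | ⟨h1, h2⟩)
    · exact c0 _ _ h1
    · exact h1
  have l01 : ∀ p q, R0 p q → R1 p q := fun p q hpq => Or.inl hpq
  have l12 : ∀ p q, R1 p q → R2 p q := by
    rintro p q (h1 | ⟨h1, h2, h3⟩)
    · exact Or.inl h1
    · exact Or.inr ⟨h1, Or.inl h2⟩
  have hcount : ∀ (Q : V → V → Prop) (p : V), (∀ q, cr p q → hi q → Q p q) →
      {q | cr p q ∧ hi q}.ncard ≤ dg Q (X ∪ Y) p := by
    intro Q p hQ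
    exact Set.ncard_le_ncard (fun q hq => ⟨crm _ _ hq.1, hQ q hq.1 hq.2⟩)
      (hf.subset fun q hq => hq.1)
  have P2 : HamP R2 (X ∪ Y) u w := by
    refine clos_bip hf s2 crs c hc c2 ?_ hP
    intro p hp q hq hpq hnot
    rw [hsn]
    have hnp : ¬ hi p := fun h => hnot (Or.inr ⟨hpq, Or.inl h⟩)
    have hnq : ¬ hi q := fun h => hnot (Or.inr ⟨hpq, Or.inr h⟩)
    have a1 := hcount R2 p (fun q' h1 h2 => Or.inr ⟨h1, Or.inr h2⟩)
    have a2 := hcount R2 q (fun q' h1 h2 => Or.inr ⟨h1, Or.inr h2⟩)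
    have b1 := F2 p hp
    have b2 := F2 q hq
    have b3 := F3 p q hpq
    omega
  have P1 : HamP R1 (X ∪ Y) u w := by
    refine clos_bip hf s1 s2 c (fun a b hab => hc _ _ (c2 _ _ hab)) l12 ?_ P2
    intro p hp q hq hpq hnot
    rw [hsn]
    have hcr := c2 _ _ hpq
    rcases hpq with h1 | ⟨-, h2⟩
    · exact absurd (l01 _ _ h1) hnot
    have low : ∀ v ∈ X ∪ Y, l + 3 ≤ dg R1 (X ∪ Y) v := fun v hv =>
      le_trans (F1' v hv) (le_trans (F1 v hv) (dg_mono hf l01 v))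
    rcases h2 with h2 | h2
    · have a1 := hcount R1 p (fun q' h1 h3 => Or.inr ⟨h1, h2, h3⟩)
      have b1 := F2 p hp
      have b2 := low q hq
      have b3 := F4 p
      omega
    · have a1 := hcount R1 q (fun q' h1 h3 => Or.inr ⟨h1, h2, h3⟩)
      have b1 := F2 q hq
      have b2 := low p hp
      have b3 := F4 q
      omega
  have P0 : HamP R0 (X ∪ Y) u w := by
    refine clos_bip hf s0 s1 c (fun a b hab => hc _ _ (c1 _ _ hab)) l01 ?_ P1
    intro p hp q hq hpq hnot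
    rw [hsn]
    rcases hpq with h1 | ⟨-, h2, h3⟩
    · exact absurd h1 hnot
    have h2' : 3 * h ≤ 4 * d0 p := h2
    have h3' : 3 * h ≤ 4 * d0 q := h3
    have b1 := F1 p hp
    have b2 := F1 q hq
    omega
  exact P0.mono (fun a _ b _ hab => hab.1)

theorem bip_path {V : Type*} {R : V → V → Prop} (hs : ∀ a b, R a b → R b a)
    {X Y : Set V} (hX : X.Finite) (hY : Y.Finite) (hd : Disjoint X Y) {h l : ℕ}
    (hYh : Y.ncard = h) (hl : 4 * l + 8 ≤ h)
    (dX : ∀ x ∈ X, l + 3 ≤ dg R Y x) (dY : ∀ y ∈ Y, l + 3 ≤ dg R X y)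
    (lX : {x | x ∈ X ∧ 4 * dg R Y x < 3 * h}.ncard ≤ l)
    (lY : {y | y ∈ Y ∧ 4 * dg R X y < 3 * h}.ncard ≤ l) :
    (X.ncard = h → ∀ u ∈ X, ∀ w ∈ Y, HamP R (X ∪ Y) u w) ∧
    (X.ncard + 1 = h → ∀ u ∈ Y, ∀ w ∈ Y, u ≠ w → HamP R (X ∪ Y) u w) := by
  have hB := ham_bipartite (R := fun p q => (p ∈ X ∧ q ∈ Y) ∨ (p ∈ Y ∧ q ∈ X))
    (fun a b hab => by
      rcases hab with ⟨h1, h2⟩ | ⟨h1, h2⟩
      · exact Or.inr ⟨h2, h1⟩
      · exact Or.inl ⟨h2, h1⟩) hX hY hd (fun x hx y hy => Or.inl ⟨hx, hy⟩)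
  constructor
  · intro hXh u hu w hw
    exact bip_key hs hX hY hd hYh hl (by omega) (by omega) dX dY lX lY
      (hB.1 (by omega) u hu w hw)
  · intro hXh u hu w hw huw
    exact bip_key hs hX hY hd hYh hl (by omega) (by omega) dX dY lX lY
      (hB.2 (by omega) u hu w hw huw)

end HG17
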