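import Mathlib

/-!
# HG17/BrAut: automorphisms of a power of a simple group
-/

namespace HG17

private theorem center_triv {T : Type*} [Group T] [IsSimpleGroup T]
    (hT : ∃ a b : T, a * b ≠ b * a) {c : T} (hc : ∀ t, c * t = t * c) : c = 1 := by
  rcases (inferInstance : (Subgroup.center T).Normal).eq_bot_or_eq_top with h | h
  · have : c ∈ Subgroup.center T := Subgroup.mem_center_iff.2 fun g => (hc g).symm
    rw [h] at this
    exact Subgroup.mem_bot.1 this
  · obtain ⟨a, b, hab⟩ := hT
    have : a ∈ Subgroup.center T := by rw [h]; trivial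
    exact absurd (Subgroup.mem_center_iff.1 this b).symm hab

theorem aut_pi {T : Type*} [Group T] [Finite T] [IsSimpleGroup T]
    (hT : ∃ a b : T, a * b ≠ b * a) {ι : Type*} [Finite ι] (φ : (ι → T) ≃* (ι → T)) :
    ∃ (σ : Equiv.Perm ι) (θ : ι → MulAut T), ∀ f k, φ f k = θ k (f (σ k)) := by
  classical
  let F : ι → ι → T →* T := fun k j =>
    ((Pi.evalMonoidHom (fun _ : ι => T) k).comp φ.toMonoidHom).comp
      (MonoidHom.mulSingle (fun _ : ι => T) j)
  have hF : ∀ k j t, F k j t = φ (Pi.mulSingle j t) k := fun _ _ _ => rfl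
  have hnorm : ∀ k j, (F k j).range.Normal := by
    intro k j
    refine ⟨?_⟩
    rintro _ ⟨t, rfl⟩ u
    obtain ⟨f, hf⟩ := φ.surjective (fun _ => u)
    refine ⟨f j * t * (f j)⁻¹, ?_⟩
    rw [hF, hF]
    have e : (Pi.mulSingle j (f j * t * (f j)⁻¹) : ι → T) = f * Pi.mulSingle j t * f⁻¹ := by
      funext i
      by_cases hi : i = j
      · subst hi
        simp
      · simp [Pi.mulSingle_eq_of_ne hi]
    rw [e, map_mul, map_mul, map_inv]
    simp only [Pi.mul_apply, Pi.inv_apply, hf]
  have hex : ∀ k, ∃ j, (F k j).range = ⊤ := by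
    intro k
    by_contra hcon
    push Not at hcon
    have h0 : ∀ j, (F k j).range = ⊥ := fun j =>
      ((hnorm k j).eq_bot_or_eq_top).resolve_right (hcon j)
    have h1 : (Pi.evalMonoidHom (fun _ : ι => T) k).comp φ.toMonoidHom = 1 := by
      apply MonoidHom.pi_ext
      intro j t
      have h2 : F k j t ∈ (F k j).range := ⟨t, rfl⟩
      rw [h0 j, Subgroup.mem_bot] at h2
      exact h2
    obtain ⟨t, ht⟩ := exists_ne (1 : T)
    obtain ⟨f, hf⟩ := φ.surjective (fun _ => t)
    have h3 := DFunLike.congr_fun h1 f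
    apply ht
    have h4 : φ f k = 1 := h3
    rw [hf] at h4
    exact h4
  choose s hs using hex
  have hzero : ∀ k f, f (s k) = 1 → φ f k = 1 := by
    intro k f hf
    apply center_triv hT
    intro t
    obtain ⟨u, hu⟩ : t ∈ (F k (s k)).range := by rw [hs k]; trivial
    rw [← hu, hF, ← Pi.mul_apply, ← Pi.mul_apply, ← map_mul, ← map_mul]
    have e : f * Pi.mulSingle (s k) u = Pi.mulSingle (s k) u * f := by
      funext i
      by_cases hi : i = s k
      · rw [hi, Pi.mul_apply, Pi.mul_apply, hf, one_mul, mul_one]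
      · rw [Pi.mul_apply, Pi.mul_apply, Pi.mulSingle_eq_of_ne hi, one_mul, mul_one]
    rw [e]
  have hform : ∀ k f, φ f k = F k (s k) (f (s k)) := by
    intro k f
    have e : f = Pi.mulSingle (s k) (f (s k)) * ((Pi.mulSingle (s k) (f (s k)))⁻¹ * f) := by
      group
    have h1 : φ ((Pi.mulSingle (s k) (f (s k)))⁻¹ * f) k = 1 := by
      apply hzero
      simp
    rw [hF]
    conv_lhs => rw [e, map_mul, Pi.mul_apply, h1, mul_one]
  have hbij : ∀ k, Function.Bijective (F k (s k)) := by
    intro k
    rw [← Finite.surjective_iff_bijective]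
    exact MonoidHom.range_eq_top.1 (hs k)
  have hinj : Function.Injective s := by
    intro k k' hkk
    by_contra hne
    obtain ⟨t, ht⟩ := exists_ne (1 : T)
    obtain ⟨f, hf⟩ := φ.surjective (Pi.mulSingle k' t)
    have h1 : φ f k = 1 := by rw [hf]; exact Pi.mulSingle_eq_of_ne hne _
    have h2 : φ f k' = t := by rw [hf]; exact Pi.mulSingle_eq_same k' _
    rw [hform] at h1
    have h3 : f (s k) = 1 := (hbij k).1 (h1.trans (map_one _).symm)
    rw [hform, ← hkk, h3] at h2
    apply ht
    rw [← h2, hkk, map_one]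
  refine ⟨Equiv.ofBijective s (Finite.injective_iff_bijective.1 hinj),
    fun k => MulEquiv.ofBijective (F k (s k)) (hbij k), fun f k => ?_⟩
  exact hform k f

end HG17
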