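import Mathlib

/-!
# HG17/BrCyc: a transitive cyclic permutation group of degree m
-/

namespace HG17

theorem cyc_perm {m : ℕ} (σ : Equiv.Perm (Fin m)) (k0 : Fin m)
    (h : ∀ k, ∃ j : ℤ, (σ ^ j) k0 = k) :
    (σ ^ (m : ℤ)) k0 = k0 ∧
      Function.Bijective (fun k : Fin m => (σ ^ (-((k : ℕ) : ℤ))) k0) := by
  classical
  have hc : σ.IsCycleOn (Finset.univ : Finset (Fin m)) := by
    refine ⟨?_, ?_⟩
    · simp only [Finset.coe_univ]
      exact ⟨fun _ _ => trivial, σ.injective.injOn, fun x _ => ⟨σ.symm x, trivial, by simp⟩⟩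
    · intro x _ y _
      obtain ⟨i, hi⟩ := h x
      obtain ⟨j, hj⟩ := h y
      refine ⟨j - i, ?_⟩
      rw [← hi, ← hj, ← Equiv.Perm.mul_apply, ← zpow_add]
      congr 2
      ring
  have hcard : ((Finset.univ : Finset (Fin m)).card : ℤ) = m := by simp
  refine ⟨?_, ?_⟩
  · have h1 := hc.pow_card_apply (Finset.mem_univ k0)
    rw [Finset.card_univ, Fintype.card_fin] at h1
    rw [zpow_natCast]
    exact h1
  · rw [← Finite.injective_iff_bijective]
    intro a b hab
    have h1 := (hc.zpow_apply_eq_zpow_apply (Finset.mem_univ k0)).1 hab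
    rw [hcard] at h1
    have h2 := h1.dvd
    have ha := a.2
    have hb := b.2
    apply Fin.ext
    have h3 : ((m : ℕ) : ℤ) ∣ ((a : ℕ) : ℤ) - (b : ℕ) := by
      have e : -((b : ℕ) : ℤ) - -((a : ℕ) : ℤ) = ((a : ℕ) : ℤ) - (b : ℕ) := by ring
      rwa [e] at h2
    have h4 : ((a : ℕ) : ℤ) - (b : ℕ) = 0 := by
      apply Int.eq_zero_of_abs_lt_dvd h3
      rw [abs_lt]
      constructor <;> omega
    omega

end HG17
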