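import Pool.Agent.HG17.Coset

/-!
# HG17/BrQuot: proper quotients are cyclic
-/

namespace HG17

variable {G : Type*} [Group G]

theorem exists_cov (hiso : ∀ x : G, x ≠ 1 → ∃ y, Gen x y) (M : Subgroup G) [M.Normal]
    (hM : M ≠ ⊥) : ∃ y : G, ∀ x : G, ∃ i : ℤ, x ∈ co M y i := by
  obtain ⟨a, ha⟩ := Subgroup.ne_bot_iff_exists_ne_one.1 hM
  obtain ⟨x, hx, hx1⟩ : ∃ x : G, x ∈ M ∧ x ≠ 1 := ⟨a, a.2, fun h => ha (Subtype.ext h)⟩
  obtain ⟨y, hy⟩ := hiso x hx1
  let H : Subgroup G :=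
    { carrier := {h | ∃ i : ℤ, h ∈ co M y i}
      one_mem' := ⟨0, by rw [co_zero]; exact M.one_mem⟩
      mul_mem' := by
        rintro a b ⟨i, hi⟩ ⟨j, hj⟩
        exact ⟨i + j, mul_mem_co hi hj⟩
      inv_mem' := by
        rintro a ⟨i, hi⟩
        exact ⟨-i, inv_mem_co hi⟩ }
  have hH : H = ⊤ := by
    rw [eq_top_iff, ← show Subgroup.closure ({x, y} : Set G) = ⊤ from hy, Subgroup.closure_le]
    rintro z (rfl | rfl)
    · exact ⟨0, by rw [co_zero]; exact hx⟩
    · exact ⟨1, g_mem_co_one M z⟩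
  refine ⟨y, fun z => ?_⟩
  have hz : z ∈ H := by rw [hH]; trivial
  exact hz

theorem comm_mem (hiso : ∀ x : G, x ≠ 1 → ∃ y, Gen x y) (M : Subgroup G) [M.Normal]
    (hM : M ≠ ⊥) (a b : G) : a * b * a⁻¹ * b⁻¹ ∈ M := by
  obtain ⟨y, hy⟩ := exists_cov hiso M hM
  obtain ⟨i, hi⟩ := hy a
  obtain ⟨j, hj⟩ := hy b
  have h := mul_mem_co (mul_mem_co (mul_mem_co hi hj) (inv_mem_co hi)) (inv_mem_co hj)
  have e : i + j + -i + -j = 0 := by ring
  rw [e, co_zero] at h
  exact h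

theorem centralizer_trivial (hiso : ∀ x : G, x ≠ 1 → ∃ y, Gen x y) {T : Type*} [Group T]
    [IsSimpleGroup T] (hT : ∃ a b : T, a * b ≠ b * a) (N : Subgroup G) [N.Normal] {m : ℕ}
    (hm : 0 < m) (e : N ≃* (Fin m → T)) (x : G) (hx : ∀ r ∈ N, x * r = r * x) : x = 1 := by
  by_contra hx1
  have hC : (Subgroup.centralizer (N : Set G)).Normal := inferInstance
  have hxC : x ∈ Subgroup.centralizer (N : Set G) := by
    rw [Subgroup.mem_centralizer_iff]
    exact fun r hr => (hx r hr).symm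
  have hne : Subgroup.centralizer (N : Set G) ≠ ⊥ := by
    intro h
    rw [h] at hxC
    exact hx1 (Subgroup.mem_bot.1 hxC)
  obtain ⟨a, b, hab⟩ := hT
  have h1 := comm_mem hiso (Subgroup.centralizer (N : Set G)) hne
    ((e.symm (fun _ => a) : N) : G) ((e.symm (fun _ => b) : N) : G)
  rw [Subgroup.mem_centralizer_iff] at h1
  have h2 : ∀ t : T, t * (a * b * a⁻¹ * b⁻¹) = (a * b * a⁻¹ * b⁻¹) * t := by
    intro t
    have h3 := h1 _ (e.symm (fun _ => t)).2
    have h4 : e.symm (fun _ => t) * (e.symm (fun _ => a) * e.symm (fun _ => b) *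
        (e.symm (fun _ => a))⁻¹ * (e.symm (fun _ => b))⁻¹) =
        (e.symm (fun _ => a) * e.symm (fun _ => b) *
        (e.symm (fun _ => a))⁻¹ * (e.symm (fun _ => b))⁻¹) * e.symm (fun _ => t) :=
      Subtype.ext h3
    have h5 := congrArg e h4
    simp only [map_mul, map_inv, MulEquiv.apply_symm_apply] at h5
    exact congrFun h5 ⟨0, hm⟩
  have h3 : a * b * a⁻¹ * b⁻¹ = 1 := by
    have hcen : a * b * a⁻¹ * b⁻¹ ∈ Subgroup.center T := Subgroup.mem_center_iff.2 h2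
    rcases (inferInstance : (Subgroup.center T).Normal).eq_bot_or_eq_top with h | h
    · rw [h] at hcen
      exact Subgroup.mem_bot.1 hcen
    · have : a ∈ Subgroup.center T := by rw [h]; trivial
      exact absurd (Subgroup.mem_center_iff.1 this b).symm hab
  apply hab
  have h4 : a * b * a⁻¹ = b := by
    rw [mul_inv_eq_one] at h3
    exact h3
  rw [mul_inv_eq_iff_eq_mul] at h4
  exact h4

end HG17
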