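import Pool.Agent.HG17.BrQuot

/-!
# HG17/BrTrans: the factors are permuted transitively
-/

namespace HG17

theorem transitive {G : Type*} [Group G] (hiso : ∀ x : G, x ≠ 1 → ∃ y, Gen x y) {T : Type*}
    [Group T] [IsSimpleGroup T] (hT : ∃ a b : T, a * b ≠ b * a) (N : Subgroup G) [N.Normal]
    {m : ℕ} (e : N ≃* (Fin m → T)) (y : G) (hy : ∀ x : G, ∃ i : ℤ, x ∈ co N y i)
    (σ : Equiv.Perm (Fin m)) (θ : Fin m → MulAut T)
    (h : ∀ (r : N) (k : Fin m), e (MulAut.conjNormal y r) k = θ k (e r (σ k)))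
    (k0 k : Fin m) : ∃ j : ℤ, (σ ^ j) k0 = k := by
  classical
  by_contra hk
  let O : Set (Fin m) := {k | ∃ j : ℤ, (σ ^ j) k0 = k}
  have hOσ : ∀ k, σ k ∈ O ↔ k ∈ O := by
    intro k
    constructor
    · rintro ⟨j, hj⟩
      refine ⟨-1 + j, ?_⟩
      rw [zpow_add, Equiv.Perm.mul_apply, hj, zpow_neg_one]
      simp
    · rintro ⟨j, hj⟩
      refine ⟨1 + j, ?_⟩
      rw [zpow_add, Equiv.Perm.mul_apply, hj, zpow_one]
  have hσσ : ∀ k, σ (σ⁻¹ k) = k := fun k => by simp
  let P : N → Prop := fun r => ∀ k, k ∉ O → e r k = 1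
  have hmulconj : ∀ (a b : G) (r : N),
      (MulAut.conjNormal (a * b) r : N) = MulAut.conjNormal a (MulAut.conjNormal b r) := by
    intro a b r
    rw [map_mul, MulAut.mul_apply]
  let H : Subgroup G :=
    { carrier := {g | ∀ r : N, P r ↔ P (MulAut.conjNormal g r)}
      one_mem' := by
        intro r
        rw [map_one, MulAut.one_apply]
      mul_mem' := by
        intro a b ha hb r
        rw [hmulconj]
        exact (hb r).trans (ha _)
      inv_mem' := by
        intro a ha r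
        have h1 := ha (MulAut.conjNormal a⁻¹ r)
        rw [← hmulconj, mul_inv_cancel, map_one, MulAut.one_apply] at h1
        exact h1.symm }
  have hyH : y ∈ H := by
    intro r
    constructor
    · intro hP k hk
      rw [h, hP (σ k) (fun hc => hk ((hOσ k).1 hc)), map_one]
    · intro hP k hk
      have hk' : σ⁻¹ k ∉ O := by
        intro hc
        apply hk
        have := (hOσ (σ⁻¹ k)).2 hc
        rwa [hσσ] at this
      have h1 := hP (σ⁻¹ k) hk'
      rw [h, hσσ] at h1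
      exact (MulEquiv.map_eq_one_iff _).1 h1
  have hNH : ∀ n ∈ N, n ∈ H := by
    intro n hn r
    have h1 : (MulAut.conjNormal n r : N) = ⟨n, hn⟩ * r * (⟨n, hn⟩ : N)⁻¹ := by
      apply Subtype.ext
      simp
    rw [h1]
    constructor
    · intro hP k hk
      rw [map_mul, map_mul, map_inv, Pi.mul_apply, Pi.mul_apply, hP k hk, mul_one, Pi.inv_apply,
        mul_inv_cancel]
    · intro hP k hk
      have h2 := hP k hk
      rw [map_mul, map_mul, map_inv, Pi.mul_apply, Pi.mul_apply, Pi.inv_apply,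
        mul_inv_eq_one] at h2
      exact mul_eq_left.1 h2
  have hH : ∀ g : G, g ∈ H := by
    intro g
    obtain ⟨i, hi⟩ := hy g
    obtain ⟨n, hn, rfl⟩ := mem_co_iff.1 hi
    exact H.mul_mem (hNH n hn) (H.zpow_mem hyH i)
  let M : Subgroup G :=
    { carrier := {x | ∃ r : N, P r ∧ (r : G) = x}
      one_mem' := ⟨1, fun k _ => by rw [map_one, Pi.one_apply], rfl⟩
      mul_mem' := by
        rintro a b ⟨r, hr, rfl⟩ ⟨s, hs, rfl⟩
        refine ⟨r * s, fun k hk => ?_, rfl⟩
        rw [map_mul, Pi.mul_apply, hr k hk, hs k hk, one_mul]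
      inv_mem' := by
        rintro a ⟨r, hr, rfl⟩
        refine ⟨r⁻¹, fun k hk => ?_, rfl⟩
        rw [map_inv, Pi.inv_apply, hr k hk, inv_one] }
  have hMn : M.Normal := by
    refine ⟨?_⟩
    rintro _ ⟨r, hr, rfl⟩ g
    exact ⟨MulAut.conjNormal g r, (hH g r).1 hr, by rw [MulAut.conjNormal_apply]⟩
  have hM : M ≠ ⊥ := by
    intro hbot
    obtain ⟨t, ht⟩ := exists_ne (1 : T)
    have h1 : ((e.symm (Pi.mulSingle k0 t) : N) : G) ∈ M := by
      refine ⟨_, fun k hk => ?_, rfl⟩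
      rw [MulEquiv.apply_symm_apply]
      apply Pi.mulSingle_eq_of_ne
      rintro rfl
      exact hk ⟨0, by simp⟩
    rw [hbot, Subgroup.mem_bot] at h1
    have h2 : (e.symm (Pi.mulSingle k0 t) : N) = 1 := Subtype.ext h1
    have h3 := (MulEquiv.map_eq_one_iff e.symm).1 h2
    have h4 := congrFun h3 k0
    rw [Pi.mulSingle_eq_same] at h4
    exact ht h4
  obtain ⟨a, b, hab⟩ := hT
  obtain ⟨r, hr, hr2⟩ := comm_mem hiso M hM ((e.symm (fun _ => a) : N) : G)
    ((e.symm (fun _ => b) : N) : G)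
  have h1 : r = e.symm (fun _ => a) * e.symm (fun _ => b) * (e.symm (fun _ => a))⁻¹ *
      (e.symm (fun _ => b))⁻¹ := Subtype.ext hr2
  have h2 := hr k hk
  rw [h1] at h2
  simp only [map_mul, map_inv, MulEquiv.apply_symm_apply] at h2
  have h3 : a * b * a⁻¹ * b⁻¹ = 1 := h2
  apply hab
  rw [mul_inv_eq_one, mul_inv_eq_iff_eq_mul] at h3
  exact h3

end HG17
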