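import Pool.Agent.HG17.BrAut
import Pool.Agent.HG17.BrTrans
import Pool.Agent.HG17.BrCyc
import Pool.Agent.HG17.Basic

/-!
# HG17/Bridge: from N = T^m to the data
-/

namespace HG17

private theorem iter {G : Type*} [Group G] {T : Type*} [Group T] {N : Subgroup G} [N.Normal]
    {m : ℕ} (e : N ≃* (Fin m → T)) (y : G) (σ : Equiv.Perm (Fin m)) (θ : Fin m → MulAut T)
    (h : ∀ (r : N) (k : Fin m), e (MulAut.conjNormal y r) k = θ k (e r (σ k))) (j : ℤ) :
    ∃ Th : Fin m → MulAut T, ∀ (r : N) (k : Fin m),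
      e (MulAut.conjNormal (y ^ j) r) k = Th k (e r ((σ ^ j) k)) := by
  have hmulconj : ∀ (a b : G) (r : N),
      (MulAut.conjNormal (a * b) r : N) = MulAut.conjNormal a (MulAut.conjNormal b r) := by
    intro a b r
    rw [map_mul, MulAut.mul_apply]
  have hσσ : ∀ k, σ (σ⁻¹ k) = k := fun k => by simp
  have hinv : ∀ (r : N) (k : Fin m), e (MulAut.conjNormal y⁻¹ r) k =
      (θ (σ⁻¹ k))⁻¹ (e r (σ⁻¹ k)) := by
    intro r k
    have h1 := h (MulAut.conjNormal y⁻¹ r) (σ⁻¹ k)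
    rw [← hmulconj, mul_inv_cancel, map_one, MulAut.one_apply, hσσ] at h1
    rw [h1, MulAut.inv_apply_self]
  induction j using Int.induction_on with
  | zero =>
    refine ⟨fun _ => 1, fun r k => ?_⟩
    simp
  | succ i ih =>
    obtain ⟨Th, hTh⟩ := ih
    refine ⟨fun k => θ k * Th (σ k), fun r k => ?_⟩
    have e1 : y ^ ((i : ℤ) + 1) = y * y ^ (i : ℤ) := by rw [add_comm, zpow_add, zpow_one]
    have e2 : (σ ^ ((i : ℤ) + 1)) k = (σ ^ (i : ℤ)) (σ k) := by
      rw [zpow_add, zpow_one, Equiv.Perm.mul_apply]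
    rw [e1, e2, hmulconj, h, hTh, MulAut.mul_apply]
  | pred i ih =>
    obtain ⟨Th, hTh⟩ := ih
    refine ⟨fun k => (θ (σ⁻¹ k))⁻¹ * Th (σ⁻¹ k), fun r k => ?_⟩
    have e1 : y ^ (-(i : ℤ) - 1) = y⁻¹ * y ^ (-(i : ℤ)) := by
      rw [← zpow_neg_one, ← zpow_add]
      congr 1
      ring
    have e2 : (σ ^ (-(i : ℤ) - 1)) k = (σ ^ (-(i : ℤ))) (σ⁻¹ k) := by
      rw [sub_eq_add_neg, zpow_add, zpow_neg_one, Equiv.Perm.mul_apply]
    rw [e1, e2, hmulconj, hinv, hTh, MulAut.mul_apply]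

theorem exists_dat {G : Type*} [Group G] {T : Type*} [Group T] [Finite T] [IsSimpleGroup T]
    (hT : ∃ a b : T, a * b ≠ b * a) (N : Subgroup G) [N.Normal] {m : ℕ} (hm : 0 < m)
    (e : N ≃* (Fin m → T)) (hiso : ∀ x : G, x ≠ 1 → ∃ y, Gen x y) :
    Nonempty (Dat T N m) := by
  classical
  have hN : N ≠ ⊥ := by
    rintro rfl
    obtain ⟨t, ht⟩ := exists_ne (1 : T)
    have h1 : (e.symm (fun _ => t) : (⊥ : Subgroup G)) = 1 := Subsingleton.elim _ _
    have h3 := (MulEquiv.map_eq_one_iff e.symm).1 h1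
    exact ht (congrFun h3 ⟨0, hm⟩)
  obtain ⟨y, hy⟩ := exists_cov hiso N hN
  obtain ⟨σ, θ, hσ⟩ := aut_pi hT (e.symm.trans ((MulAut.conjNormal y : MulAut N).trans e))
  have h : ∀ (r : N) (k : Fin m), e (MulAut.conjNormal y r) k = θ k (e r (σ k)) := by
    intro r k
    have h1 := hσ (e r) k
    rw [← h1]
    show e (MulAut.conjNormal y r) k = e (MulAut.conjNormal y (e.symm (e r))) k
    rw [MulEquiv.symm_apply_apply]
  let k0 : Fin m := ⟨0, hm⟩
  obtain ⟨hper, hbij⟩ := cyc_perm σ k0 (transitive hiso hT N e y hy σ θ h k0)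
  choose Th hTh using iter e y σ θ h
  let p : N →* T := (Pi.evalMonoidHom (fun _ : Fin m => T) k0).comp e.toMonoidHom
  have hp : ∀ r, p r = e r k0 := fun _ => rfl
  refine ⟨⟨y, p, Th m k0, hy, ?_, ?_, ?_⟩⟩
  · intro r
    rw [hp, hp, hTh, hper]
  · have hcomp : (fun (r : N) (k : Fin m) =>
        p (MulAut.conjNormal (y ^ (-((k : ℕ) : ℤ))) r)) =
        (fun (f : Fin m → T) (k : Fin m) => Th (-((k : ℕ) : ℤ)) k0 (f k)) ∘
        (fun (f : Fin m → T) (k : Fin m) => f ((σ ^ (-((k : ℕ) : ℤ))) k0)) ∘ (fun r => e r) := by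
      funext r k
      rw [hp, hTh]
      rfl
    rw [hcomp]
    refine Function.Bijective.comp ?_ (Function.Bijective.comp ?_ e.bijective)
    · constructor
      · intro f f' hff
        funext k
        exact (Th (-((k : ℕ) : ℤ)) k0).injective (congrFun hff k)
      · intro f
        refine ⟨fun k => (Th (-((k : ℕ) : ℤ)) k0)⁻¹ (f k), ?_⟩
        funext k
        exact MulAut.apply_inv_self _ _ _
    · constructor
      · intro f f' hff
        funext k
        obtain ⟨k', rfl⟩ := hbij.2 k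
        exact congrFun hff k'
      · intro f
        refine ⟨fun k => f ((Equiv.ofBijective _ hbij).symm k), ?_⟩
        funext k
        show f ((Equiv.ofBijective _ hbij).symm (Equiv.ofBijective _ hbij k)) = f k
        rw [Equiv.symm_apply_apply]
  · exact fun x hx => centralizer_trivial hiso hT N hm e x hx

end HG17
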