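import Pool.Agent.HG17.Pieces

/-!
# HG17/Chain: Hamiltonian path of the first 2 j + 2 cosets
-/

namespace HG17

variable {G : Type*} [Group G] {N : Subgroup G} [N.Normal] {g : G} {n l : ℕ}

theorem Dense.chain [Finite G] (H : Dense N g n l) (j : ℕ) (hj : 2 * j + 2 ≤ n) :
    ∀ u ∈ co N g 1, ∀ w ∈ co N g (2 * (j : ℤ) + 1), (j = 0 → u ≠ w) →
      HamP Gen {x | x ≠ 1 ∧ ∃ i : ℕ, i ≤ 2 * j + 1 ∧ x ∈ co N g (i : ℤ)} u w := by
  have h4 := H.four
  have nd : ∀ i : ℤ, 0 < i → i < n → ¬ (n : ℤ) ∣ i := by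
    intro i h0 h1 hd
    have := Int.le_of_dvd h0 hd
    omega
  induction j with
  | zero =>
    intro u hu w hw huw
    have hw' : w ∈ co N g 1 := by simpa using hw
    have key := H.pieceB hu hw' (huw rfl)
    have e : {x | x ≠ 1 ∧ ∃ i : ℕ, i ≤ 2 * 0 + 1 ∧ x ∈ co N g (i : ℤ)} =
        ((co N g 0 \ {1}) ∪ co N g 1) := by
      ext x
      constructor
      · rintro ⟨hx, i, hi, hxi⟩
        have : i = 0 ∨ i = 1 := by omega
        rcases this with rfl | rfl
        · left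
          exact ⟨by simpa using hxi, hx⟩
        · right
          simpa using hxi
      · rintro (⟨hx, hx1⟩ | hx)
        · exact ⟨hx1, 0, by omega, by simpa using hx⟩
        · refine ⟨?_, 1, by omega, by simpa using hx⟩
          rintro rfl
          exact nd 1 (by norm_num) (by omega) ((H.one_mem_co 1).1 hx)
    rw [e]
    exact key
  | succ j ih =>
    intro u hu w hw _
    -- choose w1
    have hc : 2 < (co N g (2 * (j : ℤ) + 1)).ncard := by
      rw [card_co]
      have := H.big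
      omega
    obtain ⟨w1, hw1, hw1u⟩ : ∃ w1 ∈ co N g (2 * (j : ℤ) + 1), w1 ≠ u := by
      by_contra hcon
      push Not at hcon
      have : co N g (2 * (j : ℤ) + 1) ⊆ {u} := fun x hx => hcon x hx
      have h2 := Set.ncard_le_ncard this (Set.finite_singleton u)
      rw [Set.ncard_singleton] at h2
      omega
    have hw1ne : w1 ≠ 1 := by
      rintro rfl
      exact nd (2 * (j : ℤ) + 1) (by omega) (by omega) ((H.one_mem_co _).1 hw1)
    obtain ⟨u1, hu1, hg1⟩ : ∃ u1 ∈ co N g (2 * (j : ℤ) + 2), Gen w1 u1 := by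
      have h1 := dg_succ N g hw1
      have h2 := H.deg w1 hw1ne
      have e : (2 * (j : ℤ) + 1 + 1) = 2 * (j : ℤ) + 2 := by ring
      rw [e] at h1
      have h3 : 0 < dg Gen (co N g (2 * (j : ℤ) + 2)) w1 := by omega
      unfold dg at h3
      obtain ⟨y, hy1, hy2⟩ := (Set.ncard_pos (Set.toFinite _)).1 h3
      exact ⟨y, hy1, hy2⟩
    have p1 := ih (by omega) u hu w1 hw1 (fun _ => hw1u.symm)
    have e3 : (2 * ((j + 1 : ℕ) : ℤ) + 1) = 2 * (j : ℤ) + 2 + 1 := by push_cast; ring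
    rw [e3] at hw
    have d2 : ¬ (n : ℤ) ∣ 2 * (j : ℤ) + 2 := nd _ (by omega) (by omega)
    have d3 : ¬ (n : ℤ) ∣ 2 * (j : ℤ) + 2 + 1 := nd _ (by omega) (by omega)
    have p2 := H.pieceA d2 d3 hu1 hw
    have hdis : Disjoint {x | x ≠ 1 ∧ ∃ i : ℕ, i ≤ 2 * j + 1 ∧ x ∈ co N g (i : ℤ)}
        (co N g (2 * (j : ℤ) + 2) ∪ co N g (2 * (j : ℤ) + 2 + 1)) := by
      rw [Set.disjoint_left]
      rintro x ⟨_, i, hi, hx⟩ (hx' | hx')
      · have h := (H.mem_co_iff_dvd hx' (i : ℤ)).1 hx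
        exact nd _ (by omega) (by omega) h
      · have h := (H.mem_co_iff_dvd hx' (i : ℤ)).1 hx
        exact nd _ (by omega) (by omega) h
    have p3 := p1.cat p2 hdis hg1
    have e : {x | x ≠ 1 ∧ ∃ i : ℕ, i ≤ 2 * (j + 1) + 1 ∧ x ∈ co N g (i : ℤ)} =
        {x | x ≠ 1 ∧ ∃ i : ℕ, i ≤ 2 * j + 1 ∧ x ∈ co N g (i : ℤ)} ∪
        (co N g (2 * (j : ℤ) + 2) ∪ co N g (2 * (j : ℤ) + 2 + 1)) := by
      ext x
      constructor
      · rintro ⟨hx, i, hi, hxi⟩
        rcases Nat.lt_or_ge (2 * j + 1) i with h | h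
        · have : i = 2 * j + 2 ∨ i = 2 * j + 3 := by omega
          rcases this with rfl | rfl
          · right; left
            have e : ((2 * j + 2 : ℕ) : ℤ) = 2 * (j : ℤ) + 2 := by push_cast; ring
            rwa [e] at hxi
          · right; right
            have e : ((2 * j + 3 : ℕ) : ℤ) = 2 * (j : ℤ) + 2 + 1 := by push_cast; ring
            rwa [e] at hxi
        · left
          exact ⟨hx, i, h, hxi⟩
      · rintro (⟨hx, i, hi, hxi⟩ | hx | hx)
        · exact ⟨hx, i, by omega, hxi⟩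
        · refine ⟨?_, 2 * j + 2, by omega, ?_⟩
          · rintro rfl
            exact d2 ((H.one_mem_co _).1 hx)
          · have e : ((2 * j + 2 : ℕ) : ℤ) = 2 * (j : ℤ) + 2 := by push_cast; ring
            rwa [e]
        · refine ⟨?_, 2 * j + 3, by omega, ?_⟩
          · rintro rfl
            exact d3 ((H.one_mem_co _).1 hx)
          · have e : ((2 * j + 3 : ℕ) : ℤ) = 2 * (j : ℤ) + 2 + 1 := by push_cast; ring
            rwa [e]
    rw [e]
    exact p3

end HG17
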