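import Pool.Agent.HG17.GDefs

/-!
# HG17/DegBip: degree sum at the missing link, bipartite case (PROVE ME, 60-110 lines)

Proof. By hc and induction, for j, j' < k: c (f j) = c (f j') iff j and j' have the same parity (Bool
has two values). Let A = {q < k | R (f p) (f q)}, B = {q < k | R (f (p+1)) (f q)};
dg R s (f p) = card A, dg R s (f (p+1)) = card B (f is a bijection of Iio k onto s). By hR all q in A
have parity different from p, all q in B have parity different from p + 1.
A' = {q in A | q + 1 < k}, B' = {q | q + 1 in B}: both are contained in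
E = {q < k - 1 | q has parity different from p} and they are disjoint by `no` (q <> p by parity).
card A <= card A' + (1 if k - 1 has parity different from p, otherwise 0),
card B <= card B' + (1 if p is even, otherwise 0) (0 in B only if p + 1 is odd). So the sum is at most
card E + these two numbers. card E is (k-1)/2 if p is even (odd q) and k/2 if p is odd (even q).
k even, p even: (k-1)/2 + 1 + 1 = k/2 + 1. k even, p odd: k/2 + 0 + 0.
k odd, p even: (k-1)/2 + 0 + 1. k odd, p odd: k/2 + 1 + 0. So at most k / 2 + 1.
Do not change the statement.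
-/

namespace HG17

private theorem dg_eq_DB {V : Type*} {R : V → V → Prop} {s : Set V} {k : ℕ} {f : ℕ → V}
    (hb : Set.BijOn f (Set.Iio k) s) (x : V) :
    dg R s x = {q | q < k ∧ R x (f q)}.ncard := by
  have h : {y | y ∈ s ∧ R x y} = f '' {q | q < k ∧ R x (f q)} := by
    ext y
    constructor
    · rintro ⟨h1, h2⟩
      obtain ⟨q, hq, rfl⟩ := hb.surjOn h1
      exact ⟨q, ⟨hq, h2⟩, rfl⟩
    · rintro ⟨q, ⟨h1, h2⟩, rfl⟩
      exact ⟨hb.mapsTo h1, h2⟩
  unfold dg
  rw [h]
  exact Set.ncard_image_of_injOn (hb.injOn.mono fun q hq => hq.1)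

private theorem par_DB {V : Type*} {k : ℕ} {f : ℕ → V} (c : V → Bool)
    (hc : ∀ j, j + 1 < k → c (f j) ≠ c (f (j + 1))) :
    ∀ j, j < k → (c (f j) = c (f 0) ↔ j % 2 = 0) := by
  intro j
  induction j with
  | zero => intro _; simp
  | succ j ih =>
    intro hj
    have h1 := ih (by omega)
    have h2 := hc j hj
    have h3 : c (f (j + 1)) = c (f 0) ↔ ¬ (c (f j) = c (f 0)) := by
      revert h2
      cases c (f j) <;> cases c (f (j + 1)) <;> cases c (f 0) <;> simp
    rw [h3, h1]
    omega

private theorem count_DB (n p : ℕ) :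
    ((Finset.range n).filter (fun q => q % 2 ≠ p % 2)).card = if p % 2 = 0 then n / 2 else (n + 1) / 2 := by
  induction n with
  | zero => simp
  | succ n ih =>
    rw [Finset.range_add_one, Finset.filter_insert]
    split_ifs at ih ⊢ with h1 h2 h3
    · rw [Finset.card_insert_of_notMem (by simp), ih]
      omega
    · rw [Finset.card_insert_of_notMem (by simp), ih]
      omega
    · rw [ih]
      omega
    · rw [ih]
      omega

theorem Broken.deg_le_bip {V : Type*} {R : V → V → Prop} {s : Set V} {k : ℕ} {f : ℕ → V}
    {p : ℕ} (hB : Broken R s k f p) (c : V → Bool)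
    (hc : ∀ j, j + 1 < k → c (f j) ≠ c (f (j + 1)))
    (hR : ∀ a ∈ s, ∀ b ∈ s, R a b → c a ≠ c b) :
    dg R s (f p) + dg R s (f (p + 1)) ≤ k / 2 + 1 := by
  classical
  have hlt := hB.lt
  have hpar := par_DB c hc
  have hRk : ∀ i j, i < k → j < k → R (f i) (f j) → i % 2 ≠ j % 2 := by
    intro i j hi hj h
    have h1 := hR _ (hB.bij.mapsTo hi) _ (hB.bij.mapsTo hj) h
    have h2 := hpar i hi
    have h3 := hpar j hj
    intro h4
    apply h1
    by_cases h5 : i % 2 = 0
    · rw [h2.2 h5, h3.2 (by omega)]
    · have h6 : ¬ c (f i) = c (f 0) := fun h => h5 (h2.1 h)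
      have h7 : ¬ c (f j) = c (f 0) := fun h => h5 (by have := h3.1 h; omega)
      revert h6 h7
      cases c (f i) <;> cases c (f j) <;> cases c (f 0) <;> simp
  rw [dg_eq_DB hB.bij, dg_eq_DB hB.bij]
  have hA : {q | q < k ∧ R (f p) (f q)} =
      ((Finset.range k).filter (fun q => R (f p) (f q)) : Finset ℕ) := by
    ext q
    simp
  have hBs : {q | q < k ∧ R (f (p + 1)) (f q)} =
      ((Finset.range k).filter (fun q => R (f (p + 1)) (f q)) : Finset ℕ) := by
    ext q
    simp
  rw [hA, hBs, Set.ncard_coe_finset, Set.ncard_coe_finset]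
  obtain ⟨A', hA'⟩ : ∃ A', A' = (Finset.range (k - 1)).filter (fun q => R (f p) (f q)) :=
    ⟨_, rfl⟩
  obtain ⟨B', hB'⟩ : ∃ B', B' = (Finset.range (k - 1)).filter (fun q => R (f (p + 1)) (f (q + 1))) :=
    ⟨_, rfl⟩
  have h1 : ((Finset.range k).filter (fun q => R (f p) (f q))).card ≤
      A'.card + (if (k - 1) % 2 ≠ p % 2 then 1 else 0) := by
    by_cases hkp : (k - 1) % 2 ≠ p % 2
    · rw [if_pos hkp]
      have : (Finset.range k).filter (fun q => R (f p) (f q)) ⊆ insert (k - 1) A' := by
        intro q hq
        rw [Finset.mem_filter, Finset.mem_range] at hq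
        rw [Finset.mem_insert, hA', Finset.mem_filter, Finset.mem_range]
        by_cases h : q = k - 1
        · exact Or.inl h
        · exact Or.inr ⟨by omega, hq.2⟩
      exact (Finset.card_le_card this).trans (Finset.card_insert_le _ _)
    · rw [if_neg hkp, add_zero]
      refine Finset.card_le_card fun q hq => ?_
      rw [Finset.mem_filter, Finset.mem_range] at hq
      rw [hA', Finset.mem_filter, Finset.mem_range]
      refine ⟨?_, hq.2⟩
      have h3 := hRk p q (by omega) hq.1 hq.2
      by_contra h4
      have h5 : q = k - 1 := by omega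
      subst h5
      exact hkp (fun h => h3 h.symm)
  have h2 : ((Finset.range k).filter (fun q => R (f (p + 1)) (f q))).card ≤
      B'.card + (if p % 2 = 0 then 1 else 0) := by
    by_cases hp0 : p % 2 = 0
    · rw [if_pos hp0]
      have : (Finset.range k).filter (fun q => R (f (p + 1)) (f q)) ⊆
          insert 0 (B'.image (fun q => q + 1)) := by
        intro q hq
        rw [Finset.mem_filter, Finset.mem_range] at hq
        rw [Finset.mem_insert, Finset.mem_image]
        by_cases h : q = 0
        · exact Or.inl h
        · refine Or.inr ⟨q - 1, ?_, by omega⟩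
          rw [hB', Finset.mem_filter, Finset.mem_range]
          refine ⟨by omega, ?_⟩
          rw [Nat.sub_add_cancel (by omega)]
          exact hq.2
      refine (Finset.card_le_card this).trans ((Finset.card_insert_le _ _).trans ?_)
      exact Nat.add_le_add_right Finset.card_image_le _
    · rw [if_neg hp0, add_zero]
      have : (Finset.range k).filter (fun q => R (f (p + 1)) (f q)) ⊆
          B'.image (fun q => q + 1) := by
        intro q hq
        rw [Finset.mem_filter, Finset.mem_range] at hq
        have h3 := hRk (p + 1) q (by omega) hq.1 hq.2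
        rw [Finset.mem_image]
        refine ⟨q - 1, ?_, by omega⟩
        rw [hB', Finset.mem_filter, Finset.mem_range]
        refine ⟨by omega, ?_⟩
        rw [Nat.sub_add_cancel (by omega)]
        exact hq.2
      exact (Finset.card_le_card this).trans Finset.card_image_le
  have hdisj : Disjoint A' B' := by
    rw [Finset.disjoint_left]
    intro q hqA hqB
    rw [hA', Finset.mem_filter, Finset.mem_range] at hqA
    rw [hB', Finset.mem_filter, Finset.mem_range] at hqB
    have h3 := hRk p q (by omega) (by omega) hqA.2
    exact hB.no q (by omega) (fun h => h3 (by rw [h])) ⟨hqA.2, hqB.2⟩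
  have hsub : A' ∪ B' ⊆ (Finset.range (k - 1)).filter (fun q => q % 2 ≠ p % 2) := by
    intro q hq
    rw [Finset.mem_filter, Finset.mem_range]
    rw [Finset.mem_union] at hq
    rcases hq with hq | hq
    · rw [hA', Finset.mem_filter, Finset.mem_range] at hq
      have := hRk p q (by omega) (by omega) hq.2
      exact ⟨hq.1, fun h => this h.symm⟩
    · rw [hB', Finset.mem_filter, Finset.mem_range] at hq
      have := hRk (p + 1) (q + 1) (by omega) (by omega) hq.2
      exact ⟨hq.1, by omega⟩
  have h3 := Finset.card_le_card hsub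
  rw [Finset.card_union_of_disjoint hdisj, count_DB] at h3
  split_ifs at h1 h2 h3 <;> omega

end HG17
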