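import Pool.Agent.HG17.GDefs

/-!
# HG17/DegGen: degree sum at the missing link (PROVE ME, 40-80 lines)

Proof. Let A = {q < k | R (f p) (f q)}, B = {q < k | R (f (p+1)) (f q)}; as f is a bijection of
Iio k onto s, dg R s (f p) = card A and dg R s (f (p+1)) = card B. Let A' = {q in A | q + 1 < k} and
B' = {q | q + 1 in B}: card A <= card A' + 1 (only q = k - 1 is lost), card B <= card B' + 1 (only
q + 1 = 0 is lost). A' and B' are disjoint: by `no` if q <> p, and p is not in A (irreflexive). Both
are contained in range (k - 1) minus {p}: p + 1 is not in B (irreflexive). So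
card A' + card B' <= k - 2. Do not change the statement.
-/

namespace HG17

private theorem dg_eq_DG {V : Type*} {R : V → V → Prop} {s : Set V} {k : ℕ} {f : ℕ → V}
    (hb : Set.BijOn f (Set.Iio k) s) (x : V) :
    dg R s x = {q | q < k ∧ R x (f q)}.ncard := by
  have h : {y | y ∈ s ∧ R x y} = f '' {q | q < k ∧ R x (f q)} := by
    ext y
    constructor
    · rintro ⟨h1, h2⟩
      obtain ⟨q, hq, rfl⟩ := hb.surjOn h1
      exact ⟨q, ⟨hq, h2⟩, rfl⟩
    · rintro ⟨q, ⟨h1, h2⟩, rfl⟩
      exact ⟨hb.mapsTo h1, h2⟩
  unfold dg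
  rw [h]
  exact Set.ncard_image_of_injOn (hb.injOn.mono fun q hq => hq.1)

theorem Broken.deg_le {V : Type*} {R : V → V → Prop} {s : Set V} {k : ℕ} {f : ℕ → V} {p : ℕ}
    (hB : Broken R s k f p) (hirr : ∀ a, ¬ R a a) :
    dg R s (f p) + dg R s (f (p + 1)) ≤ k := by
  classical
  rw [dg_eq_DG hB.bij, dg_eq_DG hB.bij]
  have hA : {q | q < k ∧ R (f p) (f q)} =
      ((Finset.range k).filter (fun q => R (f p) (f q)) : Finset ℕ) := by
    ext q
    simp
  have hBs : {q | q < k ∧ R (f (p + 1)) (f q)} =
      ((Finset.range k).filter (fun q => R (f (p + 1)) (f q)) : Finset ℕ) := by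
    ext q
    simp
  rw [hA, hBs, Set.ncard_coe_finset, Set.ncard_coe_finset]
  obtain ⟨A', hA'⟩ : ∃ A', A' = (Finset.range (k - 1)).filter (fun q => R (f p) (f q)) :=
    ⟨_, rfl⟩
  obtain ⟨B', hB'⟩ : ∃ B', B' = (Finset.range (k - 1)).filter (fun q => R (f (p + 1)) (f (q + 1))) :=
    ⟨_, rfl⟩
  have hlt := hB.lt
  have h1 : ((Finset.range k).filter (fun q => R (f p) (f q))).card ≤ A'.card + 1 := by
    have : (Finset.range k).filter (fun q => R (f p) (f q)) ⊆ insert (k - 1) A' := by
      intro q hq
      rw [Finset.mem_filter, Finset.mem_range] at hq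
      rw [Finset.mem_insert, hA', Finset.mem_filter, Finset.mem_range]
      by_cases h : q = k - 1
      · exact Or.inl h
      · exact Or.inr ⟨by omega, hq.2⟩
    exact (Finset.card_le_card this).trans (Finset.card_insert_le _ _)
  have h2 : ((Finset.range k).filter (fun q => R (f (p + 1)) (f q))).card ≤ B'.card + 1 := by
    have : (Finset.range k).filter (fun q => R (f (p + 1)) (f q)) ⊆
        insert 0 (B'.image (fun q => q + 1)) := by
      intro q hq
      rw [Finset.mem_filter, Finset.mem_range] at hq
      rw [Finset.mem_insert, Finset.mem_image]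
      by_cases h : q = 0
      · exact Or.inl h
      · refine Or.inr ⟨q - 1, ?_, by omega⟩
        rw [hB', Finset.mem_filter, Finset.mem_range]
        refine ⟨by omega, ?_⟩
        rw [Nat.sub_add_cancel (by omega)]
        exact hq.2
    refine (Finset.card_le_card this).trans ((Finset.card_insert_le _ _).trans ?_)
    exact Nat.add_le_add_right Finset.card_image_le _
  have hdisj : Disjoint A' B' := by
    rw [Finset.disjoint_left]
    intro q hqA hqB
    rw [hA', Finset.mem_filter, Finset.mem_range] at hqA
    rw [hB', Finset.mem_filter, Finset.mem_range] at hqB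
    by_cases hqp : q = p
    · subst hqp
      exact hirr _ hqA.2
    · exact hB.no q (by omega) hqp ⟨hqA.2, hqB.2⟩
  have hsub : A' ∪ B' ⊆ (Finset.range (k - 1)).erase p := by
    intro q hq
    rw [Finset.mem_erase, Finset.mem_range]
    rw [Finset.mem_union] at hq
    rcases hq with hq | hq
    · rw [hA', Finset.mem_filter, Finset.mem_range] at hq
      refine ⟨?_, hq.1⟩
      rintro rfl
      exact hirr _ hq.2
    · rw [hB', Finset.mem_filter, Finset.mem_range] at hq
      refine ⟨?_, hq.1⟩
      rintro rfl
      exact hirr _ hq.2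
  have h3 := Finset.card_le_card hsub
  rw [Finset.card_union_of_disjoint hdisj, Finset.card_erase_of_mem
    (Finset.mem_range.2 (by omega)), Finset.card_range] at h3
  omega

end HG17
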