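import Pool.Agent.HG17.Cross
import Pool.Agent.HG17.DegGen
import Pool.Agent.HG17.DegBip

/-!
# HG17/Clos: Bondy-Chvatal closure for Hamiltonian paths with prescribed ends
-/

namespace HG17

theorem dg_mono {V : Type*} {R R' : V → V → Prop} {s : Set V} (hf : s.Finite)
    (hle : ∀ a b, R a b → R' a b) (x : V) : dg R s x ≤ dg R' s x :=
  Set.ncard_le_ncard (fun _ hy => ⟨hy.1, hle _ _ hy.2⟩) (hf.subset fun _ hy => hy.1)

/-- the common induction: `bad R1` says that the degree sums over missing links are small -/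
theorem clos_aux {V : Type*} {R : V → V → Prop} {s : Set V} (hf : s.Finite)
    (hs : ∀ a b, R a b → R b a) (thr : ℕ)
    {u w : V}
    (n : ℕ) : ∀ (R' : V → V → Prop), (∀ a b, R' a b → R' b a) → (∀ a, ¬ R' a a) →
    (∀ a b, R a b → R' a b) →
    (∀ x ∈ s, ∀ y ∈ s, R' x y → ¬ R x y → thr < dg R s x + dg R s y) →
    (∀ (R1 : V → V → Prop) (k : ℕ) (f : ℕ → V) (p : ℕ), (∀ a b, R1 a b → R1 b a) →
      (∀ a b, R1 a b → R' a b) → Broken R1 s k f p →
      R' (f p) (f (p + 1)) → dg R1 s (f p) + dg R1 s (f (p + 1)) ≤ thr) →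
    {q : V × V | q.1 ∈ s ∧ q.2 ∈ s ∧ R' q.1 q.2 ∧ ¬ R q.1 q.2}.ncard ≤ n →
    HamP R' s u w → HamP R s u w := by
  classical
  induction n with
  | zero =>
    intro R' _ _ _ _ _ hn h
    obtain ⟨k, f, hk, h0, hk1, bij, hl⟩ := h
    refine ⟨k, f, hk, h0, hk1, bij, fun j hj => ?_⟩
    by_contra hc
    have hfin : {q : V × V | q.1 ∈ s ∧ q.2 ∈ s ∧ R' q.1 q.2 ∧ ¬ R q.1 q.2}.Finite :=
      (hf.prod hf).subset fun q hq => ⟨hq.1, hq.2.1⟩
    have := (Set.ncard_eq_zero hfin).1 (Nat.le_zero.1 hn)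
    have hm : (f j, f (j + 1)) ∈
        {q : V × V | q.1 ∈ s ∧ q.2 ∈ s ∧ R' q.1 q.2 ∧ ¬ R q.1 q.2} :=
      ⟨bij.mapsTo (show j < k by omega), bij.mapsTo (show j + 1 < k from hj), hl j hj, hc⟩
    rw [this] at hm
    exact hm
  | succ n ih =>
    intro R' hs' hirr hle hthr hbad hn h
    by_cases hex : ∃ x ∈ s, ∃ y ∈ s, R' x y ∧ ¬ R x y
    · obtain ⟨x, hx, y, hy, hR', hR⟩ := hex
      have hxy : x ≠ y := fun e => hirr x (by rw [← e] at hR'; exact hR')
      let R1 : V → V → Prop := fun a b => R' a b ∧ ¬ ((a = x ∧ b = y) ∨ (a = y ∧ b = x))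
      have hs1 : ∀ a b, R1 a b → R1 b a := by
        rintro a b ⟨h1, h2⟩
        exact ⟨hs' _ _ h1, fun h3 => h2 (by tauto)⟩
      have hle1 : ∀ a b, R a b → R1 a b := by
        intro a b hab
        refine ⟨hle _ _ hab, ?_⟩
        rintro (⟨e1, e2⟩ | ⟨e1, e2⟩)
        · exact hR (e1 ▸ e2 ▸ hab)
        · exact hR (hs _ _ (e1 ▸ e2 ▸ hab))
      have hle2 : ∀ a b, R1 a b → R' a b := fun a b hab => hab.1
      have hadd : ∀ a b, R' a b → addE R1 x y a b := by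
        intro a b hab
        by_cases hc : (a = x ∧ b = y) ∨ (a = y ∧ b = x)
        · exact Or.inr hc
        · exact Or.inl ⟨hab, hc⟩
      have hH : HamP (addE R1 x y) s u w := by
        obtain ⟨k, f, hk, h0, hk1, bij, hl⟩ := h
        exact ⟨k, f, hk, h0, hk1, bij, fun j hj => hadd _ _ (hl j hj)⟩
      by_cases hno : HamP R1 s u w
      · refine ih R1 hs1 (fun a ha => hirr a ha.1) hle1
          (fun a ha b hb hab hnab => hthr a ha b hb hab.1 hnab)
          (fun R2 k f p h1 h2 h3 h4 => hbad R2 k f p h1 (fun a b hab => (h2 a b hab).1) h3 h4.1)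
          ?_ hno
        have hfin : {q : V × V | q.1 ∈ s ∧ q.2 ∈ s ∧ R' q.1 q.2 ∧ ¬ R q.1 q.2}.Finite :=
          (hf.prod hf).subset fun q hq => ⟨hq.1, hq.2.1⟩
        have hlt : {q : V × V | q.1 ∈ s ∧ q.2 ∈ s ∧ R1 q.1 q.2 ∧ ¬ R q.1 q.2}.ncard <
            {q : V × V | q.1 ∈ s ∧ q.2 ∈ s ∧ R' q.1 q.2 ∧ ¬ R q.1 q.2}.ncard := by
          refine Set.ncard_lt_ncard ⟨fun q hq => ⟨hq.1, hq.2.1, hq.2.2.1.1, hq.2.2.2⟩, ?_⟩ hfin
          intro hsub
          have hm : (x, y) ∈ {q : V × V | q.1 ∈ s ∧ q.2 ∈ s ∧ R1 q.1 q.2 ∧ ¬ R q.1 q.2} :=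
            hsub ⟨hx, hy, hR', hR⟩
          exact hm.2.2.1.2 (Or.inl ⟨rfl, rfl⟩)
        omega
      · exfalso
        obtain ⟨k, f, p, hB, hpxy⟩ := cross hs1 hH hno
        have hRp : R' (f p) (f (p + 1)) := by
          rcases hpxy with ⟨e1, e2⟩ | ⟨e1, e2⟩
          · rw [e1, e2]; exact hR'
          · rw [e1, e2]; exact hs' _ _ hR'
        have hd := hbad R1 k f p hs1 hle2 hB hRp
        have h1 := dg_mono hf hle1 (f p)
        have h2 := dg_mono hf hle1 (f (p + 1))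
        have h3 := hthr x hx y hy hR' hR
        rcases hpxy with ⟨e1, e2⟩ | ⟨e1, e2⟩
        · rw [e1] at hd h1
          rw [e2] at hd h2
          omega
        · rw [e1] at hd h1
          rw [e2] at hd h2
          omega
    · push Not at hex
      obtain ⟨k, f, hk, h0, hk1, bij, hl⟩ := h
      exact ⟨k, f, hk, h0, hk1, bij, fun j hj =>
        hex _ (bij.mapsTo (show j < k by omega)) _ (bij.mapsTo (show j + 1 < k from hj)) (hl j hj)⟩

theorem Broken.ncard_eq {V : Type*} {R : V → V → Prop} {s : Set V} {k : ℕ} {f : ℕ → V} {p : ℕ}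
    (hB : Broken R s k f p) : s.ncard = k := by
  have h1 := hB.bij.image_eq
  rw [← h1, hB.bij.injOn.ncard_image]
  have : (Set.Iio k : Set ℕ) = ((Finset.range k : Finset ℕ) : Set ℕ) := by
    ext j; simp
  rw [this, Set.ncard_coe_finset, Finset.card_range]

theorem clos_gen {V : Type*} {R R' : V → V → Prop} {s : Set V} (hf : s.Finite)
    (hs : ∀ a b, R a b → R b a) (hs' : ∀ a b, R' a b → R' b a) (hirr : ∀ a, ¬ R' a a)
    (hle : ∀ a b, R a b → R' a b)
    (hthr : ∀ x ∈ s, ∀ y ∈ s, R' x y → ¬ R x y → s.ncard < dg R s x + dg R s y)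
    {u w : V} (h : HamP R' s u w) : HamP R s u w := by
  refine clos_aux hf hs s.ncard _ R' hs' hirr hle hthr ?_ le_rfl h
  intro R1 k f p _ hle1 hB _
  rw [hB.ncard_eq]
  exact hB.deg_le (fun a ha => hirr a (hle1 _ _ ha))

theorem clos_bip {V : Type*} {R R' : V → V → Prop} {s : Set V} (hf : s.Finite)
    (hs : ∀ a b, R a b → R b a) (hs' : ∀ a b, R' a b → R' b a) (c : V → Bool)
    (hc : ∀ a b, R' a b → c a ≠ c b) (hle : ∀ a b, R a b → R' a b)
    (hthr : ∀ x ∈ s, ∀ y ∈ s, R' x y → ¬ R x y →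
      s.ncard / 2 + 1 < dg R s x + dg R s y)
    {u w : V} (h : HamP R' s u w) : HamP R s u w := by
  refine clos_aux hf hs (s.ncard / 2 + 1) _ R' hs' (fun a ha => hc a a ha rfl) hle hthr ?_
    le_rfl h
  intro R1 k f p _ hle1 hB hRp
  rw [hB.ncard_eq]
  refine hB.deg_le_bip c ?_ (fun a _ b _ hab => hc _ _ (hle1 _ _ hab))
  intro j hj
  by_cases hjp : j = p
  · rw [hjp]; exact hc _ _ hRp
  · exact hc _ _ (hle1 _ _ (hB.adj j hj hjp))

end HG17
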