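import Pool.Agent.HG17.Chain

/-!
# HG17/Closing: a Hamiltonian path of G minus 1 that can be closed
-/

namespace HG17

variable {G : Type*} [Group G] {N : Subgroup G} [N.Normal] {g : G} {n l : ℕ}

theorem Dense.closing [Finite G] (H : Dense N g n l) :
    ∃ u w : G, HamP Gen {x : G | x ≠ 1} u w ∧ Gen w u := by
  have h4 := H.four
  have nd : ∀ i : ℤ, 0 < i → i < n → ¬ (n : ℤ) ∣ i := by
    intro i h0 h1 hd
    have := Int.le_of_dvd h0 hd
    omega
  have cov' : ∀ x : G, ∃ i : ℕ, i < n ∧ x ∈ co N g (i : ℤ) := by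
    intro x
    obtain ⟨i, hi⟩ := H.cov x
    have hn : (0 : ℤ) < n := by omega
    have h0 := Int.emod_nonneg i (ne_of_gt hn)
    have h1 := Int.emod_lt_of_pos i hn
    refine ⟨(i % n).toNat, by omega, ?_⟩
    rw [Int.toNat_of_nonneg h0, H.mem_co_iff_dvd hi]
    exact Int.dvd_self_sub_emod
  have shift : ∀ i j : ℤ, (n : ℤ) ∣ i - j → co N g i = co N g j := by
    intro i j h
    ext x
    constructor
    · intro hx
      exact (H.mem_co_iff_dvd hx j).2 h
    · intro hx
      refine (H.mem_co_iff_dvd hx i).2 ?_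
      have := (dvd_neg (α := ℤ)).2 h
      rwa [neg_sub] at this
  have hg1 := g_mem_co_one N g
  have hgne : g ≠ 1 := by
    intro h
    subst h
    exact nd 1 (by norm_num) (by omega) ((H.one_mem_co 1).1 hg1)
  rcases Nat.even_or_odd' n with ⟨k, hk | hk⟩
  · -- even
    obtain ⟨j, rfl⟩ : ∃ j, k = j + 1 := ⟨k - 1, by omega⟩
    have hj1 : 1 ≤ j := by omega
    obtain ⟨w, hw, hgw⟩ : ∃ w ∈ co N g (-1), Gen g w := by
      have h1 := dg_neg_one N g g
      have h2 := H.deg g hgne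
      have h3 : 0 < dg Gen (co N g (-1)) g := by omega
      unfold dg at h3
      obtain ⟨y, hy1, hy2⟩ := (Set.ncard_pos (Set.toFinite _)).1 h3
      exact ⟨y, hy1, hy2⟩
    have hw' : w ∈ co N g (2 * (j : ℤ) + 1) := by
      rw [← shift (-1) (2 * (j : ℤ) + 1) ⟨-1, by push_cast [hk]; ring⟩]
      exact hw
    have p := H.chain j (by omega) g hg1 w hw' (by omega)
    refine ⟨g, w, ?_, gen_comm.1 hgw⟩
    have e : {x : G | x ≠ 1} =
        {x | x ≠ 1 ∧ ∃ i : ℕ, i ≤ 2 * j + 1 ∧ x ∈ co N g (i : ℤ)} := by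
      ext x
      constructor
      · intro hx
        obtain ⟨i, hi, hxi⟩ := cov' x
        exact ⟨hx, i, by omega, hxi⟩
      · rintro ⟨hx, _⟩
        exact hx
    rw [e]
    exact p
  · -- odd
    obtain ⟨j, rfl⟩ : ∃ j, k = j + 1 := ⟨k - 1, by omega⟩
    have hj1 : 1 ≤ j := by omega
    have hinv : g⁻¹ ∈ co N g (-1) := inv_mem_co hg1
    have hinvne : g⁻¹ ≠ 1 := by simpa using hgne
    obtain ⟨w1, hw1, hgw1⟩ : ∃ w1 ∈ co N g (-1 - 1), Gen g⁻¹ w1 := by
      have h1 := dg_pred N g hinv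
      have h2 := H.deg g⁻¹ hinvne
      have h3 : 0 < dg Gen (co N g (-1 - 1)) g⁻¹ := by omega
      unfold dg at h3
      obtain ⟨y, hy1, hy2⟩ := (Set.ncard_pos (Set.toFinite _)).1 h3
      exact ⟨y, hy1, hy2⟩
    obtain ⟨w, hw, hwne, hgw⟩ : ∃ w ∈ co N g (-1), w ≠ g⁻¹ ∧ Gen g w := by
      have h1 := dg_neg_one N g g
      have h2 := H.deg g hgne
      have h3 : 1 < dg Gen (co N g (-1)) g := by omega
      unfold dg at h3
      obtain ⟨a, b, ha, hb, hab⟩ := (Set.one_lt_ncard_iff (Set.toFinite _)).1 h3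
      by_cases h : a = g⁻¹
      · refine ⟨b, hb.1, ?_, hb.2⟩
        rintro rfl
        exact hab h
      · exact ⟨a, ha.1, h, ha.2⟩
    have hw1' : w1 ∈ co N g (2 * (j : ℤ) + 1) := by
      rw [← shift (-1 - 1) (2 * (j : ℤ) + 1) ⟨-1, by push_cast [hk]; ring⟩]
      exact hw1
    have p := H.chain j (by omega) g hg1 w1 hw1' (by omega)
    have q := H.pieceC hinv hw hwne.symm
    have ec : co N g (-1) = co N g (2 * (j : ℤ) + 2) :=
      shift (-1) (2 * (j : ℤ) + 2) ⟨-1, by push_cast [hk]; ring⟩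
    have hdis : Disjoint {x | x ≠ 1 ∧ ∃ i : ℕ, i ≤ 2 * j + 1 ∧ x ∈ co N g (i : ℤ)}
        (co N g (-1)) := by
      rw [Set.disjoint_left, ec]
      rintro x ⟨_, i, hi, hx⟩ hx'
      have h := (H.mem_co_iff_dvd hx' (i : ℤ)).1 hx
      exact nd _ (by omega) (by omega) h
    have r := p.cat q hdis (gen_comm.1 hgw1)
    refine ⟨g, w, ?_, gen_comm.1 hgw⟩
    have e : {x : G | x ≠ 1} =
        {x | x ≠ 1 ∧ ∃ i : ℕ, i ≤ 2 * j + 1 ∧ x ∈ co N g (i : ℤ)} ∪ co N g (-1) := by
      ext x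
      constructor
      · intro hx
        obtain ⟨i, hi, hxi⟩ := cov' x
        rcases Nat.lt_or_ge (2 * j + 1) i with h | h
        · right
          have : i = 2 * j + 2 := by omega
          subst this
          rw [ec]
          have e : ((2 * j + 2 : ℕ) : ℤ) = 2 * (j : ℤ) + 2 := by push_cast; ring
          rwa [e] at hxi
        · left
          exact ⟨hx, i, h, hxi⟩
      · rintro (⟨hx, _⟩ | hx)
        · exact hx
        · rintro rfl
          rw [ec] at hx
          exact nd (2 * (j : ℤ) + 2) (by omega) (by omega) ((H.one_mem_co _).1 hx)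
    rw [e]
    exact r

end HG17
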