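import Pool.Agent.HG17.Basic

/-!
# HG17/CntP: elements with all coordinates in a proper subgroup
-/

namespace HG17

namespace Dat

variable {G : Type*} [Group G] {T : Type*} [Group T] {N : Subgroup G} [N.Normal] {m : ℕ}
variable (D : Dat T N m)

theorem cnt_P [Finite T] (K0 : Subgroup T) (hK : K0 ≠ ⊤) :
    2 ^ m * {μ : N | ∀ k : ℤ, D.P k μ ∈ K0}.ncard ≤ Nat.card T ^ m := by
  classical
  have h1 : {μ : N | ∀ k : ℤ, D.P k μ ∈ K0}.ncard ≤ Nat.card K0 ^ m := by
    rw [← Nat.card_coe_set_eq]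
    have e : Nat.card K0 ^ m = Nat.card (Fin m → K0) := by
      rw [Nat.card_fun, Nat.card_fin]
    rw [e]
    refine Nat.card_le_card_of_injective
      (fun μ : {μ : N | ∀ k : ℤ, D.P k μ ∈ K0} => fun k : Fin m =>
        (⟨D.P ((k : ℕ) : ℤ) μ.1, μ.2 _⟩ : K0)) ?_
    intro μ ν h
    apply Subtype.ext
    apply D.bij.1
    funext k
    have hk := congrArg Subtype.val (congrFun h k)
    exact hk
  have h2 : 2 * Nat.card K0 ≤ Nat.card T := by
    have h3 := K0.card_mul_index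
    have h4 : K0.index ≠ 1 := fun h => hK (Subgroup.index_eq_one.1 h)
    have h5 : K0.index ≠ 0 := Subgroup.index_ne_zero_of_finite
    have h6 : 2 ≤ K0.index := by omega
    calc 2 * Nat.card K0 ≤ K0.index * Nat.card K0 := Nat.mul_le_mul_right _ h6
      _ = Nat.card T := by rw [mul_comm]; exact h3
  calc 2 ^ m * {μ : N | ∀ k : ℤ, D.P k μ ∈ K0}.ncard ≤ 2 ^ m * Nat.card K0 ^ m :=
        Nat.mul_le_mul_left _ h1
    _ = (2 * Nat.card K0) ^ m := by rw [mul_pow]
    _ ≤ Nat.card T ^ m := Nat.pow_le_pow_left h2 m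

end Dat

end HG17
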