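import Mathlib

/-!
# HG17/Seq: sequential counting (PROVE ME, 80-140 lines)

`seq_count`. F l f is a set of allowed values for coordinate l, it depends only on the
coordinates of f of rank smaller than r l. Proof by induction on J: J empty is clear (the number of
all functions is (card T)^(card iota)). Otherwise choose l in J with r l maximal, J' = J minus l.
Let A' = {f | for all k in J', f k in F k f}, A = {f in A' | f l in F l f}. Changing coordinate
l of f changes neither F l f nor F k f for k in J' (r k <= r l, so l does not have rank < r k), so f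
in A' iff Function.update f l v in A'. Counting the pairs (f, v), f in A', v in F l f, by the
function update f l v in A (every element of A is obtained from exactly card T pairs: f = update g l w,
v = g l) gives: card T * card A = sum over f in A' of card (F l f). Hence
c l * card T * card A <= d l * card T * card A', and card T > 0 can be cancelled; then
(prod over J) = c l * (prod over J'). (If card T * card A = ... is awkward: only <= is needed, by the
injection A x T -> {(f, v)}, (g, w) |-> (update g l w, g l).)
`seq_set`. Proof: put F l f = {v | exists f' in A, (for all k, r k < r l -> f' k = f k) and f' l = v}.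
It depends only on the coordinates of rank < r l. If F l f is empty the bound holds trivially.
Otherwise let f' be as in the definition; F l f = F l f', and h applies to f'. A is contained in
{f | for all l in J, f l in F l f}; apply seq_count.
`fib_count`: the functions that agree with f0 on W correspond to the functions on the complement of W:
their number is t^(card iota - card W). Or apply an induction. Do not change the statements.
-/

namespace HG17

theorem seq_count {ι T : Type*} [Fintype ι] [Finite T] [Nonempty T] (J : Finset ι) (r : ι → ℕ)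
    (F : ι → (ι → T) → Set T) (c d : ι → ℕ)
    (hF : ∀ l ∈ J, ∀ f f' : ι → T, (∀ k, r k < r l → f k = f' k) → F l f = F l f')
    (h : ∀ l ∈ J, ∀ f : ι → T, c l * (F l f).ncard ≤ d l * Nat.card T) :
    (∏ l ∈ J, c l) * {f : ι → T | ∀ l ∈ J, f l ∈ F l f}.ncard ≤
      (∏ l ∈ J, d l) * Nat.card T ^ Fintype.card ι := by
  classical
  haveI := Fintype.ofFinite T
  have hTpos : 0 < Nat.card T := Nat.card_pos
  revert hF h
  refine Finset.induction_on_max_value r J ?_ ?_
  · intro _ _
    simp
  · intro a J' haJ hmax ih hF h
    have ih' := ih (fun l hl => hF l (Finset.mem_insert_of_mem hl))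
      (fun l hl => h l (Finset.mem_insert_of_mem hl))
    set A' : Finset (ι → T) := Finset.univ.filter (fun f => ∀ l ∈ J', f l ∈ F l f) with hA'
    set A : Finset (ι → T) := Finset.univ.filter (fun f => ∀ l ∈ insert a J', f l ∈ F l f) with hA
    have e1 : {f : ι → T | ∀ l ∈ J', f l ∈ F l f}.ncard = A'.card := by
      rw [← Set.ncard_coe_finset]
      congr 1
      ext f
      simp [hA']
    have e2 : {f : ι → T | ∀ l ∈ insert a J', f l ∈ F l f}.ncard = A.card := by
      rw [← Set.ncard_coe_finset]
      congr 1
      ext f
      simp [hA]
    rw [e1] at ih'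
    rw [e2]
    have hup : ∀ (f : ι → T) (w : T), ∀ k ∈ insert a J', F k (Function.update f a w) = F k f := by
      intro f w k hk
      refine hF k hk _ _ ?_
      intro j hj
      have hja : j ≠ a := by
        rintro rfl
        rcases Finset.mem_insert.1 hk with rfl | hk'
        · exact lt_irrefl _ hj
        · exact absurd (hmax k hk') (not_le.2 hj)
      rw [Function.update_of_ne hja]
    have hcount : A.card * Nat.card T ≤ ∑ f ∈ A', (F a f).ncard := by
      have h1 : ∑ f ∈ A', (F a f).ncard = (A'.sigma (fun f => (F a f).toFinset)).card := by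
        rw [Finset.card_sigma]
        exact Finset.sum_congr rfl (fun f _ => Set.ncard_eq_toFinset_card' _)
      have h2 : A.card * Nat.card T = (A ×ˢ (Finset.univ : Finset T)).card := by
        rw [Finset.card_product, Finset.card_univ, Nat.card_eq_fintype_card]
      rw [h1, h2]
      refine Finset.card_le_card_of_injOn
        (fun x => (⟨Function.update x.1 a x.2, x.1 a⟩ : Σ _ : ι → T, T)) ?_ ?_
      · rintro ⟨g, w⟩ hg
        have hgA : g ∈ A := by
          simpa using hg
        have hgA' : ∀ l ∈ insert a J', g l ∈ F l g := by simpa [hA] using hgA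
        simp only [Finset.coe_sigma, Set.mem_sigma_iff, Finset.mem_coe]
        refine ⟨?_, ?_⟩
        · rw [hA', Finset.mem_filter]
          refine ⟨Finset.mem_univ _, fun l hl => ?_⟩
          rw [hup g w l (Finset.mem_insert_of_mem hl)]
          have hla : l ≠ a := by rintro rfl; exact haJ hl
          rw [Function.update_of_ne hla]
          exact hgA' l (Finset.mem_insert_of_mem hl)
        · change g a ∈ ((F a (Function.update g a w)).toFinset : Finset T)
          rw [Set.mem_toFinset, hup g w a (Finset.mem_insert_self _ _)]
          exact hgA' a (Finset.mem_insert_self _ _)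
      · rintro ⟨g, w⟩ _ ⟨g', w'⟩ _ hgg
        simp only [Sigma.mk.injEq, heq_eq_eq] at hgg
        obtain ⟨h3, h4⟩ := hgg
        have hw : w = w' := by
          have := congrFun h3 a
          simpa using this
        have hg : g = g' := by
          funext k
          by_cases hk : k = a
          · rw [hk]; exact h4
          · have := congrFun h3 k
            rwa [Function.update_of_ne hk, Function.update_of_ne hk] at this
        rw [hw, hg]
    have hsum : c a * ∑ f ∈ A', (F a f).ncard ≤ A'.card * (d a * Nat.card T) := by
      rw [Finset.mul_sum]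
      refine le_trans (Finset.sum_le_card_nsmul _ _ (d a * Nat.card T)
        (fun f _ => h a (Finset.mem_insert_self _ _) f)) ?_
      rw [smul_eq_mul]
    have hkey : c a * A.card ≤ d a * A'.card := by
      have h5 : (c a * A.card) * Nat.card T ≤ (d a * A'.card) * Nat.card T := by
        calc (c a * A.card) * Nat.card T = c a * (A.card * Nat.card T) := by ring
          _ ≤ c a * ∑ f ∈ A', (F a f).ncard := Nat.mul_le_mul_left _ hcount
          _ ≤ A'.card * (d a * Nat.card T) := hsum
          _ = (d a * A'.card) * Nat.card T := by ring
      exact Nat.le_of_mul_le_mul_right h5 hTpos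
    rw [Finset.prod_insert haJ, Finset.prod_insert haJ]
    calc c a * (∏ l ∈ J', c l) * A.card = (∏ l ∈ J', c l) * (c a * A.card) := by ring
      _ ≤ (∏ l ∈ J', c l) * (d a * A'.card) := Nat.mul_le_mul_left _ hkey
      _ = d a * ((∏ l ∈ J', c l) * A'.card) := by ring
      _ ≤ d a * ((∏ l ∈ J', d l) * Nat.card T ^ Fintype.card ι) := Nat.mul_le_mul_left _ ih'
      _ = d a * (∏ l ∈ J', d l) * Nat.card T ^ Fintype.card ι := by ring

theorem seq_set {ι T : Type*} [Fintype ι] [Finite T] [Nonempty T] (A : Set (ι → T))
    (J : Finset ι) (r : ι → ℕ) (c d : ι → ℕ)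
    (h : ∀ l ∈ J, ∀ f0 ∈ A,
      c l * {v | ∃ f ∈ A, (∀ k, r k < r l → f k = f0 k) ∧ f l = v}.ncard ≤ d l * Nat.card T) :
    (∏ l ∈ J, c l) * A.ncard ≤ (∏ l ∈ J, d l) * Nat.card T ^ Fintype.card ι := by
  set F : ι → (ι → T) → Set T :=
    fun l f => {v | ∃ f' ∈ A, (∀ k, r k < r l → f' k = f k) ∧ f' l = v} with hFd
  have hF : ∀ l ∈ J, ∀ f f' : ι → T, (∀ k, r k < r l → f k = f' k) → F l f = F l f' := by
    intro l _ f f' hff
    ext v
    constructor
    · rintro ⟨g, hg, h1, h2⟩
      exact ⟨g, hg, fun k hk => (h1 k hk).trans (hff k hk), h2⟩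
    · rintro ⟨g, hg, h1, h2⟩
      exact ⟨g, hg, fun k hk => (h1 k hk).trans (hff k hk).symm, h2⟩
  have h1 := seq_count J r F c d hF ?_
  · refine le_trans (Nat.mul_le_mul_left _ (Set.ncard_le_ncard ?_ (Set.toFinite _))) h1
    intro f hf l _
    exact ⟨f, hf, fun _ _ => rfl, rfl⟩
  · intro l hl f
    rcases Set.eq_empty_or_nonempty (F l f) with he | ⟨v, f', hf', h2, h3⟩
    · rw [he]
      simp
    · rw [hF l hl f f' (fun k hk => (h2 k hk).symm)]
      exact h l hl f' hf'

theorem fib_count {ι T : Type*} [Fintype ι] [Finite T] [Nonempty T] (W : Finset ι)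
    (f0 : ι → T) :
    Nat.card T ^ W.card * {f : ι → T | ∀ k ∈ W, f k = f0 k}.ncard =
      Nat.card T ^ Fintype.card ι := by
  classical
  haveI := Fintype.ofFinite T
  have h1 : {f : ι → T | ∀ k ∈ W, f k = f0 k} =
      ((Fintype.piFinset (fun k => if k ∈ W then ({f0 k} : Finset T) else Finset.univ) :
        Finset (ι → T)) : Set (ι → T)) := by
    ext f
    simp only [Set.mem_setOf_eq, Finset.mem_coe, Fintype.mem_piFinset]
    constructor
    · intro hf k
      by_cases hk : k ∈ W
      · rw [if_pos hk, Finset.mem_singleton]
        exact hf k hk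
      · rw [if_neg hk]
        exact Finset.mem_univ _
    · intro hf k hk
      have := hf k
      rwa [if_pos hk, Finset.mem_singleton] at this
  rw [h1, Set.ncard_coe_finset, Fintype.card_piFinset]
  have h2 : ∀ k, (if k ∈ W then ({f0 k} : Finset T) else Finset.univ).card =
      if k ∈ W then 1 else Nat.card T := by
    intro k
    split_ifs
    · simp
    · rw [Finset.card_univ, Nat.card_eq_fintype_card]
  rw [Finset.prod_congr rfl (fun k _ => h2 k)]
  have h3 : Nat.card T ^ W.card = ∏ k : ι, if k ∈ W then Nat.card T else 1 := by
    rw [Finset.prod_ite_mem, Finset.univ_inter, Finset.prod_const]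
  rw [h3, ← Finset.prod_mul_distrib]
  have h4 : ∀ k : ι, ((if k ∈ W then Nat.card T else 1) * if k ∈ W then 1 else Nat.card T) =
      Nat.card T := by
    intro k
    split_ifs <;> simp
  rw [Finset.prod_congr rfl (fun k _ => h4 k), Finset.prod_const, Finset.card_univ]

end HG17
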