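import Pool.Agent.HG17.XDefs
import Pool.Agent.HG17.Seq

/-!
# HG17/Coord: the elements of N g have free coordinates
-/

namespace HG17

namespace Dat

variable {G : Type*} [Group G] {T : Type*} [Group T] {N : Subgroup G} [N.Normal] {m : ℕ}
variable (D : Dat T N m)

theorem eta_mul_m {z z' : G} (hz : z ∈ co N D.g 1) (hz' : z' ∈ co N D.g 1)
    (h : D.eta z m = D.eta z' m) (l : ℤ) : D.eta z (m * l) = D.eta z' (m * l) := by
  induction l using Int.induction_on with
  | zero => rw [mul_zero, eta_zero, eta_zero]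
  | succ i ih =>
    have e : (m : ℤ) * ((i : ℤ) + 1) = (m : ℤ) * i + m := by ring
    rw [e, D.eta_add_m hz, D.eta_add_m hz', ih, h]
  | pred i ih =>
    have e : (m : ℤ) * (-(i : ℤ)) = (m : ℤ) * (-(i : ℤ) - 1) + m := by ring
    rw [e, D.eta_add_m hz, D.eta_add_m hz', h] at ih
    exact (D.a⁻¹).injective (mul_right_cancel ih)

theorem agree {z z' : G} (hz : z ∈ co N D.g 1) (hz' : z' ∈ co N D.g 1) (j : Fin m)
    (hj : 0 < (j : ℕ)) (h : ∀ k : Fin m, (k : ℕ) < (j : ℕ) → D.crd z k = D.crd z' k) :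
    (∀ k : ℤ, 0 ≤ k → k < ((j : ℕ) : ℤ) → D.eta z k = D.eta z' k) ∧
      ∀ l : ℤ, D.eta z (m * l) = D.eta z' (m * l) := by
  have hm : 0 < m := lt_of_le_of_lt (Nat.zero_le _) j.2
  constructor
  · intro k hk hkj
    rcases eq_or_lt_of_le hk with h0 | h0
    · rw [← h0, eta_zero, eta_zero]
    · have hkm : k.toNat < m := by
        have := j.2
        omega
      have h1 := h ⟨k.toNat, hkm⟩ (by simp only; omega)
      rw [D.crd_pos z (by simp only; omega), D.crd_pos z' (by simp only; omega)] at h1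
      have e : ((k.toNat : ℕ) : ℤ) = k := Int.toNat_of_nonneg hk
      simp only [e] at h1
      exact h1
  · apply D.eta_mul_m hz hz'
    have h1 := h ⟨0, hm⟩ hj
    rwa [D.crd_zero z rfl, D.crd_zero z' rfl] at h1

theorem crd_inj (hm : 0 < m) {z z' : G} (hz : z ∈ co N D.g 1) (hz' : z' ∈ co N D.g 1)
    (h : D.crd z = D.crd z') : z = z' := by
  have hE : ∀ k : ℤ, 0 ≤ k → k ≤ m → D.eta z k = D.eta z' k := by
    intro k hk hkm
    rcases eq_or_lt_of_le hk with h0 | h0
    · rw [← h0, eta_zero, eta_zero]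
    · rcases eq_or_lt_of_le hkm with h1 | h1
      · have h2 := congrFun h ⟨0, hm⟩
        rw [D.crd_zero z rfl, D.crd_zero z' rfl] at h2
        rw [h1]
        exact h2
      · have h2 := congrFun h ⟨k.toNat, by omega⟩
        rw [D.crd_pos z (by simp only; omega), D.crd_pos z' (by simp only; omega)] at h2
        have e : ((k.toNat : ℕ) : ℤ) = k := Int.toNat_of_nonneg hk
        simp only [e] at h2
        exact h2
  have hP : ∀ k : ℤ, 0 ≤ k → k < m →
      D.P (k + 1) ⟨z * D.g ^ (-1 : ℤ), hz⟩ = D.P (k + 1) ⟨z' * D.g ^ (-1 : ℤ), hz'⟩ := by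
    intro k hk hkm
    have h1 := D.eta_succ hz k
    have h2 := D.eta_succ hz' k
    rw [hE (k + 1) (by omega) (by omega), h2, hE k hk (by omega)] at h1
    exact (mul_right_cancel h1).symm
  have hr : (⟨z * D.g ^ (-1 : ℤ), hz⟩ : N) = ⟨z' * D.g ^ (-1 : ℤ), hz'⟩ := by
    apply D.P_ext
    intro k hk hkm
    rcases eq_or_lt_of_le hk with h0 | h0
    · have h1 := D.P_per m (⟨z * D.g ^ (-1 : ℤ), hz⟩ : N)
      have h2 := D.P_per m (⟨z' * D.g ^ (-1 : ℤ), hz'⟩ : N)
      have h3 := hP (m - 1) (by omega) (by omega)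
      rw [sub_add_cancel] at h3
      rw [sub_self] at h1 h2
      rw [← h0, h1, h2, h3]
    · have h3 := hP (k - 1) (by omega) (by omega)
      rwa [sub_add_cancel] at h3
  have := congrArg Subtype.val hr
  exact mul_right_cancel this

theorem crd_bij [Finite G] [Finite T] (hm : 0 < m) :
    Function.Bijective (fun (z : {z : G // z ∈ co N D.g 1}) => D.crd z.1) := by
  have hinj : Function.Injective (fun (z : {z : G // z ∈ co N D.g 1}) => D.crd z.1) := by
    rintro ⟨z, hz⟩ ⟨z', hz'⟩ h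
    exact Subtype.ext (D.crd_inj hm hz hz' h)
  refine hinj.bijective_of_nat_card_le ?_
  have h1 : Nat.card {z : G // z ∈ co N D.g 1} = Nat.card T ^ m := by
    have := card_co N D.g 1
    rw [D.card_N] at this
    exact this
  rw [h1, Nat.card_fun, Nat.card_fin]

theorem seq_z [Finite G] [Finite T] (hm : 0 < m) (A : Set G) (hA : A ⊆ co N D.g 1)
    (J : Finset (Fin m)) (r : Fin m → ℕ) (c d : Fin m → ℕ)
    (h : ∀ l ∈ J, ∀ z0 ∈ A,
      c l * {v | ∃ z ∈ A, (∀ k, r k < r l → D.crd z k = D.crd z0 k) ∧ D.crd z l = v}.ncard ≤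
        d l * Nat.card T) :
    (∏ l ∈ J, c l) * A.ncard ≤ (∏ l ∈ J, d l) * Nat.card T ^ m := by
  have : Nonempty T := ⟨1⟩
  have key := seq_set (D.crd '' A) J r c d (by
    rintro l hl _ ⟨z0, hz0, rfl⟩
    have e : {v | ∃ f ∈ D.crd '' A, (∀ k, r k < r l → f k = D.crd z0 k) ∧ f l = v} =
        {v | ∃ z ∈ A, (∀ k, r k < r l → D.crd z k = D.crd z0 k) ∧ D.crd z l = v} := by
      ext v
      constructor
      · rintro ⟨_, ⟨z, hz, rfl⟩, h1, h2⟩
        exact ⟨z, hz, h1, h2⟩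
      · rintro ⟨z, hz, h1, h2⟩
        exact ⟨_, ⟨z, hz, rfl⟩, h1, h2⟩
    rw [e]
    exact h l hl z0 hz0)
  rw [Fintype.card_fin, Set.ncard_image_of_injOn] at key
  · exact key
  · intro z hz z' hz' hzz
    exact D.crd_inj hm (hA hz) (hA hz') hzz

theorem fib_z [Finite G] [Finite T] (hm : 0 < m) (W : Finset (Fin m)) {z0 : G}
    (hz0 : z0 ∈ co N D.g 1) :
    Nat.card T ^ W.card * {z | z ∈ co N D.g 1 ∧ ∀ k ∈ W, D.crd z k = D.crd z0 k}.ncard =
      Nat.card T ^ m := by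
  have : Nonempty T := ⟨1⟩
  have key := fib_count (T := T) W (D.crd z0)
  rw [Fintype.card_fin] at key
  rw [← key]
  congr 1
  have e : {f : Fin m → T | ∀ k ∈ W, f k = D.crd z0 k} =
      D.crd '' {z | z ∈ co N D.g 1 ∧ ∀ k ∈ W, D.crd z k = D.crd z0 k} := by
    ext f
    constructor
    · intro hf
      obtain ⟨⟨z, hz⟩, hzf⟩ := (D.crd_bij hm).2 f
      simp only at hzf
      subst hzf
      exact ⟨z, ⟨hz, hf⟩, rfl⟩
    · rintro ⟨z, ⟨_, hz⟩, rfl⟩
      exact hz
  rw [e, Set.ncard_image_of_injOn]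
  intro z hz z' hz' hzz
  exact D.crd_inj hm hz.1 hz'.1 hzz

end Dat

end HG17
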