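import Pool.Agent.HG17.Defs

/-!
# Cosets of N and partners: elementary facts
-/

namespace HG17

variable {G : Type*} [Group G]

theorem gen_comm {x y : G} : Gen x y ↔ Gen y x := by
  unfold Gen
  rw [Set.pair_comm]

theorem mem_co {N : Subgroup G} {g : G} {i : ℤ} {x : G} : x ∈ co N g i ↔ x * g ^ (-i) ∈ N :=
  Iff.rfl

theorem co_zero (N : Subgroup G) (g : G) : co N g 0 = (N : Set G) := by
  ext x
  simp [mem_co]

theorem g_mem_co (N : Subgroup G) (g : G) (i : ℤ) : g ^ i ∈ co N g i := by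
  rw [mem_co, ← zpow_add]
  simp [N.one_mem]

theorem g_mem_co_one (N : Subgroup G) (g : G) : g ∈ co N g 1 := by
  have := g_mem_co N g 1
  rwa [zpow_one] at this

theorem mem_co_iff {N : Subgroup G} {g : G} {i : ℤ} {x : G} :
    x ∈ co N g i ↔ ∃ n ∈ N, x = n * g ^ i := by
  rw [mem_co]
  constructor
  · intro h
    exact ⟨_, h, by rw [mul_assoc, ← zpow_add]; simp⟩
  · rintro ⟨n, hn, rfl⟩
    rw [mul_assoc, ← zpow_add]
    simpa using hn

theorem mul_mem_co {N : Subgroup G} [hN : N.Normal] {g : G} {i j : ℤ} {x y : G}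
    (hx : x ∈ co N g i) (hy : y ∈ co N g j) : x * y ∈ co N g (i + j) := by
  obtain ⟨n, hn, rfl⟩ := mem_co_iff.1 hx
  obtain ⟨k, hk, rfl⟩ := mem_co_iff.1 hy
  refine mem_co_iff.2 ⟨n * (g ^ i * k * (g ^ i)⁻¹), N.mul_mem hn (hN.conj_mem k hk _), ?_⟩
  rw [zpow_add]
  group

theorem inv_mem_co {N : Subgroup G} [hN : N.Normal] {g : G} {i : ℤ} {x : G}
    (hx : x ∈ co N g i) : x⁻¹ ∈ co N g (-i) := by
  obtain ⟨n, hn, rfl⟩ := mem_co_iff.1 hx
  refine mem_co_iff.2 ⟨g ^ (-i) * n⁻¹ * (g ^ (-i))⁻¹, hN.conj_mem _ (N.inv_mem hn) _, ?_⟩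
  group

theorem pow_mem_co {N : Subgroup G} [hN : N.Normal] {g : G} {i : ℤ} {x : G}
    (hx : x ∈ co N g i) (r : ℕ) : x ^ r ∈ co N g (i * r) := by
  induction r with
  | zero => simp [co_zero, N.one_mem]
  | succ r ih =>
    rw [pow_succ]
    have := mul_mem_co ih hx
    convert this using 1
    push_cast
    congr 1
    ring

theorem zpow_mem_co {N : Subgroup G} [hN : N.Normal] {g : G} {i : ℤ} {x : G}
    (hx : x ∈ co N g i) (r : ℤ) : x ^ r ∈ co N g (i * r) := by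
  rcases Int.eq_nat_or_neg r with ⟨n, rfl | rfl⟩
  · rw [zpow_natCast]
    exact pow_mem_co hx n
  · rw [zpow_neg, zpow_natCast]
    have := inv_mem_co (pow_mem_co hx n)
    convert this using 1
    congr 1
    ring

theorem card_co [Finite G] (N : Subgroup G) (g : G) (i : ℤ) :
    (co N g i).ncard = Nat.card N := by
  have h : co N g i = (fun x => x * g ^ i) '' (N : Set G) := by
    ext x
    rw [mem_co_iff]
    constructor
    · rintro ⟨n, hn, rfl⟩
      exact ⟨n, hn, rfl⟩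
    · rintro ⟨n, hn, rfl⟩
      exact ⟨n, hn, rfl⟩
  rw [h, Set.ncard_image_of_injective _ (mul_left_injective _)]
  rfl

/-- an element lying in two cosets -/
theorem zpow_mem_of_mem_co {N : Subgroup G} [hN : N.Normal] {g : G} {i j : ℤ} {x : G}
    (hi : x ∈ co N g i) (hj : x ∈ co N g j) : g ^ (i - j) ∈ N := by
  have h := mul_mem_co (inv_mem_co hi) hj
  rw [inv_mul_cancel, mem_co, one_mul] at h
  have e : -(-i + j) = i - j := by ring
  rwa [e] at h

theorem mem_co_of_zpow_mem {N : Subgroup G} [hN : N.Normal] {g : G} {i j : ℤ} {x : G}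
    (hi : x ∈ co N g i) (h : g ^ (i - j) ∈ N) : x ∈ co N g j := by
  obtain ⟨n, hn, rfl⟩ := mem_co_iff.1 hi
  refine mem_co_iff.2 ⟨n * g ^ (i - j), N.mul_mem hn h, ?_⟩
  rw [mul_assoc, ← zpow_add]
  congr 2
  ring

end HG17
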