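import Pool.Agent.HG17.GDefs

/-!
# HG17/Cross: the crossing lemma
-/

namespace HG17

/-- reversal of the block `(lo, hi]` -/
theorem rev_block {V : Type*} {R : V → V → Prop} (hs : ∀ a b, R a b → R b a) {s : Set V}
    {k lo hi : ℕ} {f : ℕ → V} (hlt : lo < hi) (hk : hi + 1 < k)
    (bij : Set.BijOn f (Set.Iio k) s)
    (adj : ∀ j, j + 1 < k → j ≠ lo → j ≠ hi → R (f j) (f (j + 1)))
    (h1 : R (f lo) (f hi)) (h2 : R (f (lo + 1)) (f (hi + 1))) :
    HamP R s (f 0) (f (k - 1)) := by
  classical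
  let g : ℕ → ℕ := fun j => if lo < j ∧ j ≤ hi then lo + hi + 1 - j else j
  have gin : ∀ j, lo < j → j ≤ hi → g j = lo + hi + 1 - j := fun j a b => if_pos ⟨a, b⟩
  have gout : ∀ j, ¬ (lo < j ∧ j ≤ hi) → g j = j := fun j a => if_neg a
  have gg : ∀ j, g (g j) = j := by
    intro j
    by_cases hj : lo < j ∧ j ≤ hi
    · rw [gin j hj.1 hj.2, gin _ (by omega) (by omega)]
      omega
    · rw [gout j hj, gout j hj]
  have gm : ∀ j, j < k → g j < k := by
    intro j hj
    by_cases hj' : lo < j ∧ j ≤ hi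
    · rw [gin j hj'.1 hj'.2]; omega
    · rw [gout j hj']; exact hj
  have gbij : Set.BijOn g (Set.Iio k) (Set.Iio k) := by
    refine ⟨fun j hj => gm j hj, ?_, ?_⟩
    · intro a _ b _ hab
      rw [← gg a, ← gg b, hab]
    · intro a ha
      exact ⟨g a, gm a ha, gg a⟩
  refine ⟨k, fun j => f (g j), by omega, ?_, ?_, bij.comp gbij, ?_⟩
  · show f (g 0) = f 0
    rw [gout 0 (by omega)]
  · show f (g (k - 1)) = f (k - 1)
    rw [gout (k - 1) (by omega)]
  · intro j hj
    show R (f (g j)) (f (g (j + 1)))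
    rcases lt_trichotomy j lo with h | h | h
    · rw [gout j (by omega), gout (j + 1) (by omega)]
      exact adj j hj (by omega) (by omega)
    · rw [h, gout lo (by omega), gin (lo + 1) (by omega) (by omega)]
      have e : lo + hi + 1 - (lo + 1) = hi := by omega
      rw [e]
      exact h1
    · rcases lt_trichotomy j hi with h' | h' | h'
      · rw [gin j h (by omega), gin (j + 1) (by omega) (by omega)]
        have e : lo + hi + 1 - j = (lo + hi + 1 - (j + 1)) + 1 := by omega
        rw [e]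
        exact hs _ _ (adj _ (by omega) (by omega) (by omega))
      · rw [h', gin hi (by omega) (by omega), gout (hi + 1) (by omega)]
        have e : lo + hi + 1 - hi = lo + 1 := by omega
        rw [e]
        exact h2
      · rw [gout j (by omega), gout (j + 1) (by omega)]
        exact adj j hj (by omega) (by omega)

theorem cross {V : Type*} {R : V → V → Prop} (hs : ∀ a b, R a b → R b a) {s : Set V}
    {u w x y : V} (hH : HamP (addE R x y) s u w) (hno : ¬ HamP R s u w) :
    ∃ (k : ℕ) (f : ℕ → V) (p : ℕ), Broken R s k f p ∧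
      ((f p = x ∧ f (p + 1) = y) ∨ (f p = y ∧ f (p + 1) = x)) := by
  obtain ⟨k, f, hk, h0, hk1, bij, hl⟩ := hH
  have hex : ∃ p, p + 1 < k ∧ ¬ R (f p) (f (p + 1)) := by
    by_contra hc
    push Not at hc
    exact hno ⟨k, f, hk, h0, hk1, bij, hc⟩
  obtain ⟨p, hp, hnp⟩ := hex
  have hpxy : (f p = x ∧ f (p + 1) = y) ∨ (f p = y ∧ f (p + 1) = x) :=
    (hl p hp).resolve_left hnp
  have inj : ∀ a b, a < k → b < k → f a = f b → a = b :=
    fun a b ha hb hab => bij.injOn ha hb hab
  have adj : ∀ j, j + 1 < k → j ≠ p → R (f j) (f (j + 1)) := by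
    intro j hj hjp
    by_contra hnj
    have hj' := (hl j hj).resolve_left hnj
    rcases hj' with ⟨a1, a2⟩ | ⟨a1, a2⟩ <;> rcases hpxy with ⟨b1, b2⟩ | ⟨b1, b2⟩
    · exact hjp (inj _ _ (by omega) (by omega) (a1.trans b1.symm))
    · have e1 := inj j (p + 1) (by omega) (by omega) (a1.trans b2.symm)
      have e2 := inj (j + 1) p (by omega) (by omega) (a2.trans b1.symm)
      omega
    · have e1 := inj j (p + 1) (by omega) (by omega) (a1.trans b2.symm)
      have e2 := inj (j + 1) p (by omega) (by omega) (a2.trans b1.symm)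
      omega
    · exact hjp (inj _ _ (by omega) (by omega) (a1.trans b1.symm))
  refine ⟨k, f, p, ⟨bij, hp, adj, ?_⟩, hpxy⟩
  rintro q hq hqp ⟨r1, r2⟩
  apply hno
  rw [← h0, ← hk1]
  rcases lt_or_gt_of_ne hqp with h | h
  · exact rev_block hs h hp bij (fun j hj _ hj2 => adj j hj hj2) (hs _ _ r1) (hs _ _ r2)
  · exact rev_block hs h hq bij (fun j hj hj1 _ => adj j hj hj1) r1 r2

end HG17
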