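import Mathlib

/-!
# Generating graph of groups with socle T^m: definitions
-/

namespace HG17

/-- `x` and `y` generate the group -/
def Gen {G : Type*} [Group G] (x y : G) : Prop :=
  Subgroup.closure ({x, y} : Set G) = ⊤

/-- the coset `N g^i` -/
def co {G : Type*} [Group G] (N : Subgroup G) (g : G) (i : ℤ) : Set G :=
  {x | x * g ^ (-i) ∈ N}

/-- number of partners of `x` in the coset `N g` -/
noncomputable def dd {G : Type*} [Group G] (N : Subgroup G) (g x : G) : ℕ :=
  {z | z ∈ co N g 1 ∧ Gen x z}.ncard

/-- The data of a normal subgroup `N` isomorphic to `T^m`, the factors being permuted cyclically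
by `g`: `p` is the projection of `N` to factor number 0, `a` the automorphism of factor 0
induced by `g^m`. -/
structure Dat {G : Type*} [Group G] (T : Type*) [Group T] (N : Subgroup G) [N.Normal]
    (m : ℕ) where
  /-- the rotating element -/
  g : G
  /-- the projection to factor 0 -/
  p : N →* T
  /-- the automorphism of factor 0 induced by `g^m` -/
  a : MulAut T
  cov : ∀ x : G, ∃ i : ℤ, x ∈ co N g i
  per : ∀ r : N, p (MulAut.conjNormal (g ^ (m : ℤ)) r) = a (p r)
  bij : Function.Bijective
    (fun (r : N) (k : Fin m) => p (MulAut.conjNormal (g ^ (-((k : ℕ) : ℤ))) r))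
  faith : ∀ x : G, (∀ r ∈ N, x * r = r * x) → x = 1

namespace Dat

variable {G : Type*} [Group G] {T : Type*} [Group T] {N : Subgroup G} [N.Normal] {m : ℕ}

/-- the projection to factor number `k`, identified with factor 0 by `g^(-k)` -/
def P (D : Dat T N m) (k : ℤ) : N →* T :=
  D.p.comp (MulAut.conjNormal (D.g ^ (-k))).toMonoidHom

open Classical in
/-- `p` extended by 1 to the whole group -/
noncomputable def pv (D : Dat T N m) (x : G) : T :=
  if h : x ∈ N then D.p ⟨x, h⟩ else 1

/-- the coordinates of `z` in `N g`: `eta z k = p (g^(-k) z^k)` -/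
noncomputable def eta (D : Dat T N m) (z : G) (k : ℤ) : T :=
  D.pv (D.g ^ (-k) * z ^ k)

end Dat

end HG17
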