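import Pool.Agent.HG17.GDefs
import Pool.Agent.HG17.Defs

/-!
# HG17/CycG: from enumerations to Mathlib Hamiltonian cycles
-/

namespace HG17

theorem walk_of_enum {W : Type*} (Γ : SimpleGraph W) (k : ℕ) (f : ℕ → W)
    (ha : ∀ j, j + 1 < k → Γ.Adj (f j) (f (j + 1))) (j : ℕ) (hj : j < k) :
    ∃ p : Γ.Walk (f 0) (f j), p.support = (List.range (j + 1)).map f ∧
      p.edges = (List.range j).map (fun i => s(f i, f (i + 1))) := by
  induction j with
  | zero => exact ⟨SimpleGraph.Walk.nil, by simp, by simp⟩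
  | succ j ih =>
    obtain ⟨p, hp, he⟩ := ih (by omega)
    refine ⟨p.concat (ha j hj), ?_, ?_⟩
    · rw [SimpleGraph.Walk.support_concat, hp, List.range_succ (n := j + 1), List.map_append]
      simp
    · rw [SimpleGraph.Walk.edges_concat, he, List.range_succ (n := j), List.map_append,
        List.concat_eq_append]
      simp

theorem isHamiltonian_of_enum {W : Type*} [Fintype W] [DecidableEq W] (Γ : SimpleGraph W)
    (k : ℕ) (f : ℕ → W) (hk : 3 ≤ k) (hb : Set.BijOn f (Set.Iio k) Set.univ)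
    (ha : ∀ j, j + 1 < k → Γ.Adj (f j) (f (j + 1))) (hc : Γ.Adj (f (k - 1)) (f 0)) :
    Γ.IsHamiltonian := by
  intro _
  obtain ⟨p, hp, he⟩ := walk_of_enum Γ k f ha (k - 1) (by omega)
  have hk1 : k - 1 + 1 = k := by omega
  rw [hk1] at hp
  have hpath : p.IsPath := by
    rw [SimpleGraph.Walk.isPath_def, hp]
    refine List.Nodup.map_on ?_ List.nodup_range
    intro a ha' b hb' hab
    exact hb.injOn (List.mem_range.1 ha') (List.mem_range.1 hb') hab
  have hham : p.IsHamiltonian := by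
    refine hpath.isHamiltonian_of_mem fun w => ?_
    rw [hp]
    obtain ⟨j, hj, rfl⟩ := hb.surjOn (Set.mem_univ w)
    exact List.mem_map.2 ⟨j, List.mem_range.2 hj, rfl⟩
  refine ⟨f (k - 1), SimpleGraph.Walk.cons hc p, ?_⟩
  rw [SimpleGraph.Walk.isHamiltonianCycle_iff_isCycle_and_support_count_tail_eq_one]
  refine ⟨(SimpleGraph.Walk.cons_isCycle_iff _ _).2 ⟨hpath, ?_⟩, ?_⟩
  · rw [he]
    intro hmem
    obtain ⟨i, hi, hie⟩ := List.mem_map.1 hmem
    have hi' : i < k - 1 := List.mem_range.1 hi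
    rw [Sym2.eq_iff] at hie
    have inj : ∀ a b, a < k → b < k → f a = f b → a = b := fun a b h1 h2 h3 => hb.injOn h1 h2 h3
    rcases hie with ⟨h1, h2⟩ | ⟨h1, h2⟩
    · have := inj _ _ (by omega) (by omega) h1
      omega
    · have := inj _ _ (by omega) (by omega) h1
      have := inj _ _ (by omega) (by omega) h2
      omega
  · intro a
    rw [SimpleGraph.Walk.support_cons, List.tail_cons]
    exact hham a

theorem isHamiltonian_of_hamP {G : Type*} [Group G] [Fintype G] [DecidableEq G]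
    (h4 : 4 ≤ Fintype.card G) {u w : G} (h : HamP Gen {x : G | x ≠ 1} u w) (hwu : Gen w u) :
    (SimpleGraph.fromRel (fun x y : {g : G // g ≠ 1} =>
      Subgroup.closure ({(x : G), (y : G)} : Set G) = ⊤)).IsHamiltonian := by
  obtain ⟨k, f, hk, h0, hk1, bij, hl⟩ := h
  have hu : u ≠ 1 := by
    rw [← h0]
    exact bij.mapsTo (show 0 < k from hk)
  have hmem : ∀ j, j < k → f j ≠ 1 := fun j hj => bij.mapsTo (show j ∈ Set.Iio k from hj)
  have hcard : k = Fintype.card G - 1 := by
    have e1 : (Set.Iio k : Set ℕ).ncard = k := by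
      have : (Set.Iio k : Set ℕ) = ((Finset.range k : Finset ℕ) : Set ℕ) := by
        ext j; simp
      rw [this, Set.ncard_coe_finset, Finset.card_range]
    have e2 : {x : G | x ≠ 1}.ncard = Fintype.card G - 1 := by
      have : {x : G | x ≠ 1} = ((Finset.univ.erase (1 : G) : Finset G) : Set G) := by
        ext x; simp
      rw [this, Set.ncard_coe_finset, Finset.card_erase_of_mem (Finset.mem_univ _),
        Finset.card_univ]
    rw [← e2, ← bij.image_eq, bij.injOn.ncard_image, e1]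
  let f' : ℕ → {g : G // g ≠ 1} := fun j => if h : f j ≠ 1 then ⟨f j, h⟩ else ⟨u, hu⟩
  have hf' : ∀ j, j < k → (f' j : G) = f j := by
    intro j hj
    have := hmem j hj
    simp only [f', dif_pos this]
  have inj : ∀ a b, a < k → b < k → f' a = f' b → a = b := by
    intro a b h1 h2 h3
    apply bij.injOn h1 h2
    rw [← hf' a h1, ← hf' b h2, h3]
  have hgen : ∀ a b, a < k → b < k → a ≠ b → Gen (f a) (f b) →
      (SimpleGraph.fromRel (fun x y : {g : G // g ≠ 1} =>
      Subgroup.closure ({(x : G), (y : G)} : Set G) = ⊤)).Adj (f' a) (f' b) := by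
    intro a b h1 h2 h3 h5
    rw [SimpleGraph.fromRel_adj]
    refine ⟨fun h6 => h3 (inj a b h1 h2 h6), Or.inl ?_⟩
    rw [hf' a h1, hf' b h2]
    exact h5
  refine isHamiltonian_of_enum _ k f' (by omega) ⟨fun _ _ => Set.mem_univ _, ?_, ?_⟩ ?_ ?_
  · intro a h1 b h2 h3
    exact inj a b h1 h2 h3
  · rintro ⟨x, hx⟩ _
    obtain ⟨j, hj, hjx⟩ := bij.surjOn (show x ∈ {x : G | x ≠ 1} from hx)
    exact ⟨j, hj, Subtype.ext ((hf' j hj).trans hjx)⟩
  · intro j hj
    exact hgen _ _ (by omega) hj (by omega) (hl j hj)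
  · refine hgen _ _ (by omega) hk (by omega) ?_
    rw [hk1, h0]
    exact hwu

theorem partner_of_isHamiltonian {G : Type*} [Group G] [Fintype G] [DecidableEq G]
    (h4 : 4 ≤ Fintype.card G)
    (h : (SimpleGraph.fromRel (fun x y : {g : G // g ≠ 1} =>
      Subgroup.closure ({(x : G), (y : G)} : Set G) = ⊤)).IsHamiltonian) :
    ∀ x : G, x ≠ 1 → ∃ y : G, Subgroup.closure ({x, y} : Set G) = ⊤ := by
  intro x hx
  have hW : 3 ≤ Fintype.card {g : G // g ≠ 1} := by
    have e : Fintype.card {g : G // g ≠ 1} = Fintype.card G - 1 := by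
      rw [Fintype.card_subtype_compl]
      simp
    omega
  haveI : Nontrivial {g : G // g ≠ 1} := Fintype.one_lt_card_iff_nontrivial.1 (by omega)
  obtain ⟨p, hp⟩ := h.exists_isHamiltonianCycle ⟨x, hx⟩
  have hadj := p.adj_snd hp.not_nil
  rw [SimpleGraph.fromRel_adj] at hadj
  rcases hadj.2 with h1 | h1
  · exact ⟨_, h1⟩
  · refine ⟨(p.snd : G), ?_⟩
    rw [Set.pair_comm]
    exact h1

end HG17
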