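import Mathlib

/-!
# Hamiltonian paths with prescribed ends, for relations on sets: definitions
-/

namespace HG17

/-- there is a Hamiltonian path of the set `s` from `u` to `w` -/
def HamP {V : Type*} (R : V → V → Prop) (s : Set V) (u w : V) : Prop :=
  ∃ (k : ℕ) (f : ℕ → V), 0 < k ∧ f 0 = u ∧ f (k - 1) = w ∧ Set.BijOn f (Set.Iio k) s ∧
    ∀ j, j + 1 < k → R (f j) (f (j + 1))

/-- the number of `R`-neighbours of `x` in `s` -/
noncomputable def dg {V : Type*} (R : V → V → Prop) (s : Set V) (x : V) : ℕ :=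
  {y | y ∈ s ∧ R x y}.ncard

/-- the relation with the edge `xy` added -/
def addE {V : Type*} (R : V → V → Prop) (x y : V) : V → V → Prop :=
  fun a b => R a b ∨ (a = x ∧ b = y) ∨ (a = y ∧ b = x)

/-- a Hamiltonian path of `s` whose only missing link is at position `p`, and which cannot be
repaired by reversing a block -/
structure Broken {V : Type*} (R : V → V → Prop) (s : Set V) (k : ℕ) (f : ℕ → V) (p : ℕ) :
    Prop where
  bij : Set.BijOn f (Set.Iio k) s
  lt : p + 1 < k
  adj : ∀ j, j + 1 < k → j ≠ p → R (f j) (f (j + 1))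
  no : ∀ q, q + 1 < k → q ≠ p → ¬ (R (f p) (f q) ∧ R (f (p + 1)) (f (q + 1)))

end HG17
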