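import Pool.Agent.HG17.Coset
import Pool.Agent.HG17.GDefs

/-!
# Hypotheses of the graph part
-/

namespace HG17

/-- the hypotheses used to build the Hamiltonian cycle: `G / N` is cyclic of order `n >= 4`
generated by `g N`, every nontrivial element has at least `l + 3` partners in `N g`, at most `l`
elements of every coset have less than `3 |N| / 4` partners, and `4 l + 8 <= |N|` -/
structure Dense {G : Type*} [Group G] (N : Subgroup G) [N.Normal] (g : G) (n l : ℕ) : Prop where
  four : 4 ≤ n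
  ord : ∀ j : ℤ, g ^ j ∈ N ↔ (n : ℤ) ∣ j
  cov : ∀ x : G, ∃ i : ℤ, x ∈ co N g i
  ncyc : ∀ x : G, ¬ Gen x 1
  deg : ∀ x : G, x ≠ 1 → l + 3 ≤ dd N g x
  low : ∀ i : ℤ, {x | x ∈ co N g i ∧ 4 * dd N g x < 3 * Nat.card N}.ncard ≤ l
  big : 4 * l + 8 ≤ Nat.card N

end HG17
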