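import Mathlib

/-!
# HG17/Gens: few generators suffice
-/

namespace HG17

theorem exists_finset_gens {A : Type*} [Group A] [Finite A] {ι : Type*} [Finite ι]
    (C : Subgroup A) (f : ι → A) (n : ℕ)
    (h : Nat.card (C ⊔ Subgroup.closure (Set.range f) : Subgroup A) ≤ 2 ^ n * Nat.card C) :
    ∃ S : Finset ι, S.card ≤ n ∧
      C ⊔ Subgroup.closure (f '' (S : Set ι)) = C ⊔ Subgroup.closure (Set.range f) := by
  classical
  haveI := Fintype.ofFinite ι
  let good : Finset ι → Prop := fun S =>
    2 ^ S.card * Nat.card C ≤ Nat.card (C ⊔ Subgroup.closure (f '' (S : Set ι)) : Subgroup A)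
  have hempty : good ∅ := by
    simp only [good, Finset.card_empty, pow_zero, one_mul, Finset.coe_empty, Set.image_empty,
      Subgroup.closure_empty, sup_bot_eq]
    exact le_rfl
  obtain ⟨S, hS, hmax⟩ := Finset.exists_max_image (Finset.univ.filter good) Finset.card
    ⟨∅, by simp [hempty]⟩
  have hS' : good S := (Finset.mem_filter.1 hS).2
  have hle : C ⊔ Subgroup.closure (f '' (S : Set ι)) ≤ C ⊔ Subgroup.closure (Set.range f) :=
    sup_le_sup_left (Subgroup.closure_mono (Set.image_subset_range _ _)) _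
  have heq : C ⊔ Subgroup.closure (f '' (S : Set ι)) = C ⊔ Subgroup.closure (Set.range f) := by
    apply le_antisymm hle
    refine sup_le le_sup_left ?_
    rw [Subgroup.closure_le]
    rintro _ ⟨k, rfl⟩
    by_contra hk
    have hk' : f k ∉ C ⊔ Subgroup.closure (f '' (S : Set ι)) := hk
    have hkS : k ∉ S := by
      intro hkS
      exact hk' ((le_sup_right : Subgroup.closure (f '' (S : Set ι)) ≤ _)
        (Subgroup.subset_closure ⟨k, hkS, rfl⟩))
    have hBB : C ⊔ Subgroup.closure (f '' (S : Set ι)) ≤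
        C ⊔ Subgroup.closure (f '' ((insert k S : Finset ι) : Set ι)) :=
      sup_le_sup_left (Subgroup.closure_mono (Set.image_mono (by simp))) _
    have hkB : f k ∈ C ⊔ Subgroup.closure (f '' ((insert k S : Finset ι) : Set ι)) :=
      (le_sup_right : Subgroup.closure (f '' ((insert k S : Finset ι) : Set ι)) ≤ _)
        (Subgroup.subset_closure ⟨k, by simp, rfl⟩)
    have hdvd := Subgroup.card_dvd_of_le hBB
    have hne : Nat.card (C ⊔ Subgroup.closure (f '' (S : Set ι)) : Subgroup A) ≠
        Nat.card (C ⊔ Subgroup.closure (f '' ((insert k S : Finset ι) : Set ι)) : Subgroup A) := by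
      intro h'
      have := Subgroup.eq_of_le_of_card_ge hBB h'.ge
      exact hk' (this ▸ hkB)
    obtain ⟨c, hc⟩ := hdvd
    have hpos : 0 < Nat.card (C ⊔ Subgroup.closure (f '' ((insert k S : Finset ι) : Set ι)) :
        Subgroup A) := Nat.card_pos
    have hc2 : 2 ≤ c := by
      rcases c with _ | _ | c
      · rw [mul_zero] at hc; omega
      · rw [zero_add, mul_one] at hc; exact absurd hc.symm hne
      · omega
    have hgood : good (insert k S) := by
      simp only [good]
      rw [Finset.card_insert_of_notMem hkS, pow_succ, hc]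
      calc 2 ^ S.card * 2 * Nat.card C = 2 * (2 ^ S.card * Nat.card C) := by ring
        _ ≤ 2 * Nat.card (C ⊔ Subgroup.closure (f '' (S : Set ι)) : Subgroup A) :=
            Nat.mul_le_mul_left _ hS'
        _ ≤ c * Nat.card (C ⊔ Subgroup.closure (f '' (S : Set ι)) : Subgroup A) :=
            Nat.mul_le_mul_right _ hc2
        _ = _ := by rw [mul_comm]
    have := hmax (insert k S) (by simp [hgood])
    rw [Finset.card_insert_of_notMem hkS] at this
    omega
  refine ⟨S, ?_, heq⟩
  have hS'' : 2 ^ S.card * Nat.card C ≤ 2 ^ n * Nat.card C := by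
    refine le_trans hS' ?_
    rw [heq]
    exact h
  have hC : 0 < Nat.card C := Nat.card_pos
  have := Nat.le_of_mul_le_mul_right hS'' hC
  exact (Nat.pow_le_pow_iff_right (by norm_num)).1 this

theorem exists_gens {A : Type*} [Group A] [Finite A] (H : Subgroup A) :
    ∃ v : Fin (Nat.clog 2 (Nat.card A)) → A, Subgroup.closure (Set.range v) = H := by
  classical
  obtain ⟨S, hS, hS2⟩ := exists_finset_gens (⊥ : Subgroup A) (fun h : H => (h : A))
    (Nat.clog 2 (Nat.card A)) (by
      rw [Subtype.range_coe_subtype]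
      have e : (⊥ ⊔ Subgroup.closure {x | x ∈ H} : Subgroup A) = H := by
        rw [bot_sup_eq]
        exact Subgroup.closure_eq H
      rw [e, Subgroup.card_bot, mul_one]
      exact le_trans (Subgroup.card_le_card_group H) (Nat.le_pow_clog (by norm_num) _))
  have hS3 : Subgroup.closure ((fun h : H => (h : A)) '' (S : Set H)) = H := by
    rw [Subtype.range_coe_subtype, bot_sup_eq, bot_sup_eq] at hS2
    rw [hS2]
    exact Subgroup.closure_eq H
  let e := S.equivFin.symm
  let v : Fin (Nat.clog 2 (Nat.card A)) → A := fun i =>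
    if hi : (i : ℕ) < S.card then ((e ⟨i, hi⟩ : H) : A) else 1
  refine ⟨v, ?_⟩
  apply le_antisymm
  · rw [Subgroup.closure_le]
    rintro _ ⟨i, rfl⟩
    by_cases hi : (i : ℕ) < S.card
    · simp only [v, dif_pos hi]
      exact (e ⟨i, hi⟩ : H).2
    · simp only [v, dif_neg hi]
      exact H.one_mem
  · conv_lhs => rw [← hS3]
    rw [Subgroup.closure_le]
    rintro _ ⟨h, hh, rfl⟩
    apply Subgroup.subset_closure
    have hh' : h ∈ S := hh
    let j := S.equivFin ⟨h, hh'⟩
    refine ⟨⟨j, lt_of_lt_of_le j.2 hS⟩, ?_⟩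
    have hj : ((⟨j, lt_of_lt_of_le j.2 hS⟩ : Fin (Nat.clog 2 (Nat.card A))) : ℕ) < S.card := j.2
    simp only [v, dif_pos hj]
    have : e ⟨((⟨j, lt_of_lt_of_le j.2 hS⟩ : Fin (Nat.clog 2 (Nat.card A))) : ℕ), hj⟩ = ⟨h, hh'⟩ := by
      simp only [e, j]
      exact S.equivFin.symm_apply_apply _
    rw [this]

end HG17
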