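import Pool.Agent.HG17.Xi
import Pool.Agent.HG17.Gens

/-!
# HG17/L1b: few factors suffice (PROVE ME, 50-90 lines)

Proof. Put c = az z, C = Subgroup.zpowers c, I = conj.range (normal in MulAut T: phi * conj t * phi^-1 =
conj (phi t); card I <= card T, MonoidHom.range), f : Fin m -> MulAut T, f k = xiz x l z k.
(1) xiz x l z k for k : Z is c^j * f (k mod m) * c^(-j) for some j : Z (iterate xiz_per; induction, or use
the subgroup property: for every k : Z, xiz k in B := C sup closure (range f): by induction on |k div m|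
through xiz_per). So closure ({c} union range over Z) <= B and I <= B.
(2) B <= C sup I: f k = conj (..) * c^l.
(3) card (C sup I) <= card C * card I (Subgroup.mul_normal: the underlying set of C sup I is C * I, I
normal; Set.natCard_mul_le or card of an image of C x I), card I <= card T <= 2^(clog 2 (card T))
(Nat.le_pow_clog). So card B <= 2^(clog 2 (card T)) * card C.
(4) exists_finset_gens gives S with card S <= clog 2 (card T) and C sup closure (f '' S) = B;
closure ({c} union f '' S) = C sup closure (f '' S) (Subgroup.closure_union, zpowers_eq_closure).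
Do not change the statement.
-/

namespace HG17

namespace Dat

variable {G : Type*} [Group G] {T : Type*} [Group T] {N : Subgroup G} [N.Normal] {m : ℕ}
variable (D : Dat T N m)

private theorem range_normal_L1b : ((MulAut.conj : T →* MulAut T).range).Normal := by
  constructor
  rintro _ ⟨t, rfl⟩ φ
  refine ⟨φ t, ?_⟩
  ext u
  rw [MulAut.conj_apply, MulAut.mul_apply, MulAut.mul_apply, MulAut.conj_apply, map_mul,
    map_mul, map_inv, MulAut.apply_inv_self]

open Pointwise in
theorem exists_small [Finite G] [Finite T] (hm : 0 < m) {x z : G} {l : ℤ}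
    (hx : x ∈ co N D.g (m * l)) (hz : z ∈ co N D.g 1)
    (h : (MulAut.conj : T →* MulAut T).range ≤
      Subgroup.closure ({D.az z} ∪ Set.range (fun k : ℤ => D.xiz x l z k))) :
    ∃ S : Finset (Fin m), S.card ≤ Nat.clog 2 (Nat.card T) ∧
      (MulAut.conj : T →* MulAut T).range ≤
        Subgroup.closure ({D.az z} ∪
          (fun k : Fin m => D.xiz x l z ((k : ℕ) : ℤ)) '' (S : Set (Fin m))) := by
  classical
  obtain ⟨C, hC⟩ : ∃ C, C = Subgroup.zpowers (D.az z) := ⟨_, rfl⟩
  obtain ⟨f, hf⟩ : ∃ f : Fin m → MulAut T, f = fun k : Fin m => D.xiz x l z ((k : ℕ) : ℤ) :=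
    ⟨_, rfl⟩
  rw [← hf]
  have hcC : D.az z ∈ C := by rw [hC]; exact Subgroup.mem_zpowers _
  have hstep : ∀ k : ℤ, D.xiz x l z (k - m) ∈ C ⊔ Subgroup.closure (Set.range f) ↔
      D.xiz x l z k ∈ C ⊔ Subgroup.closure (Set.range f) := by
    intro k
    have hc' : D.az z ∈ C ⊔ Subgroup.closure (Set.range f) := Subgroup.mem_sup_left hcC
    rw [D.xiz_per hx hz]
    constructor
    · intro h1
      have h2 := Subgroup.mul_mem _ (Subgroup.mul_mem _ (Subgroup.inv_mem _ hc') h1) hc'
      have e : (D.az z)⁻¹ * (D.az z * D.xiz x l z k * (D.az z)⁻¹) * D.az z = D.xiz x l z k := by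
        group
      rwa [e] at h2
    · intro h1
      exact Subgroup.mul_mem _ (Subgroup.mul_mem _ hc' h1) (Subgroup.inv_mem _ hc')
  have hstep2 : ∀ (j : ℤ) (k : ℤ), D.xiz x l z (k + m * j) ∈ C ⊔ Subgroup.closure (Set.range f) ↔
      D.xiz x l z k ∈ C ⊔ Subgroup.closure (Set.range f) := by
    intro j
    induction j using Int.induction_on with
    | zero => intro k; rw [mul_zero, add_zero]
    | succ i ih =>
      intro k
      have e : k + (m : ℤ) * i = (k + m * ((i : ℤ) + 1)) - m := by ring
      rw [← ih k, e, hstep]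
    | pred i ih =>
      intro k
      have e : k + (m : ℤ) * (-(i : ℤ) - 1) = (k + m * (-(i : ℤ))) - m := by ring
      rw [e, hstep, ih]
  have hall : ∀ k : ℤ, D.xiz x l z k ∈ C ⊔ Subgroup.closure (Set.range f) := by
    intro k
    have hm' : (0 : ℤ) < m := by exact_mod_cast hm
    have h1 := Int.emod_nonneg k hm'.ne'
    have h2 := Int.emod_lt_of_pos k hm'
    have e : k % m + m * (k / m) = k := Int.emod_add_mul_ediv k m
    rw [← e, hstep2]
    refine Subgroup.mem_sup_right (Subgroup.subset_closure ⟨⟨(k % m).toNat, by omega⟩, ?_⟩)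
    rw [hf]
    show D.xiz x l z (((k % m).toNat : ℕ) : ℤ) = _
    rw [Int.toNat_of_nonneg h1]
  have hle1 : Subgroup.closure ({D.az z} ∪ Set.range (fun k : ℤ => D.xiz x l z k)) ≤
      C ⊔ Subgroup.closure (Set.range f) := by
    rw [Subgroup.closure_le]
    rintro φ (rfl | ⟨k, rfl⟩)
    · exact Subgroup.mem_sup_left hcC
    · exact hall k
  obtain ⟨I, hI⟩ : ∃ I, I = (MulAut.conj : T →* MulAut T).range := ⟨_, rfl⟩
  have hIn : I.Normal := by rw [hI]; exact range_normal_L1b
  have hle2 : C ⊔ Subgroup.closure (Set.range f) ≤ C ⊔ I := by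
    refine sup_le le_sup_left ?_
    rw [Subgroup.closure_le]
    rintro _ ⟨k, rfl⟩
    rw [hf]
    show D.xiz x l z ((k : ℕ) : ℤ) ∈ C ⊔ I
    unfold xiz
    refine Subgroup.mul_mem _ (Subgroup.mem_sup_right ?_) (Subgroup.mem_sup_left (C.zpow_mem hcC _))
    rw [hI]
    exact ⟨_, rfl⟩
  have hcardI : Nat.card I ≤ Nat.card T := by
    rw [hI]
    exact Nat.card_le_card_of_surjective _ (MonoidHom.rangeRestrict_surjective MulAut.conj)
  have hcardT : Nat.card T ≤ 2 ^ Nat.clog 2 (Nat.card T) := Nat.le_pow_clog (by norm_num) _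
  have hcard : Nat.card (C ⊔ Subgroup.closure (Set.range f) : Subgroup (MulAut T)) ≤
      2 ^ Nat.clog 2 (Nat.card T) * Nat.card C := by
    have h1 : Nat.card (C ⊔ Subgroup.closure (Set.range f) : Subgroup (MulAut T)) ≤
        Nat.card (C ⊔ I : Subgroup (MulAut T)) :=
      Nat.card_mono (Set.toFinite _) hle2
    have h2 : Nat.card (C ⊔ I : Subgroup (MulAut T)) ≤ Nat.card C * Nat.card I := by
      have h3 : ((C ⊔ I : Subgroup (MulAut T)) : Set (MulAut T)) = (C : Set (MulAut T)) * (I : Set (MulAut T)) :=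
        Subgroup.mul_normal C I
      have h4 : Nat.card (C ⊔ I : Subgroup (MulAut T)) =
          Nat.card ((C : Set (MulAut T)) * (I : Set (MulAut T)) : Set (MulAut T)) := by
        rw [← h3]
        rfl
      rw [h4]
      exact Set.natCard_mul_le
    calc _ ≤ Nat.card C * Nat.card I := h1.trans h2
      _ ≤ Nat.card C * 2 ^ Nat.clog 2 (Nat.card T) :=
        Nat.mul_le_mul_left _ (hcardI.trans hcardT)
      _ = _ := mul_comm _ _
  obtain ⟨S, hS1, hS2⟩ := exists_finset_gens C f _ hcard
  refine ⟨S, hS1, ?_⟩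
  calc (MulAut.conj : T →* MulAut T).range ≤ C ⊔ Subgroup.closure (Set.range f) := h.trans hle1
    _ = C ⊔ Subgroup.closure (f '' (S : Set (Fin m))) := hS2.symm
    _ = Subgroup.closure ({D.az z} ∪ f '' (S : Set (Fin m))) := by
        rw [Subgroup.closure_union, hC, Subgroup.zpowers_eq_closure]

end Dat

end HG17
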