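import Pool.Agent.HG17.Xi
import Pool.Agent.HG17.Crit

/-!
# HG17/L1c: x fixing the factors and z do not generate: a twisted period (PROVE ME, 50-90 lines)

Proof. Put c = az z. crit_xh with i = m l.
First alternative: K0 <> top, c maps K0 into K0, all xh x (m l) z k in K0. K0 is finite, so c and c^-1
preserve K0 (c K0 = K0 by cardinality; for powers: (c^l) t in K0 for t in K0). conj (xh ..) preserves K0. The
set of automorphisms phi with phi K0 = K0 (Subgroup.map) is a subgroup, which contains c and all
xiz x l z k = conj (xh ..) * c^l, so it contains closure ..., hence all conj t: K0 is normal, so K0 = bot as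
T is simple and K0 <> top. Then all xh .. = 1, xiz x l z k = c^l, so the closure is contained in zpowers c, which
is commutative; so conj a and conj b commute for all a, b in T, i.e. commutators are in the center of T; the
center is normal, not top (hT), so it is bot (simple); so a * b = b * a for all a, b, contradiction to hT.
Second alternative: q, psi with Commute psi c and xh k = psi (xh (k - m/q)). Then
xiz k = conj (psi (xh (k - m/q))) * c^l = psi * conj (xh (k - m/q)) * psi^-1 * c^l
= psi * (conj (xh (k - m/q)) * c^l) * psi^-1 (psi commutes with c^l). Do not change the statement.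
-/

namespace HG17

namespace Dat

variable {G : Type*} [Group G] {T : Type*} [Group T] {N : Subgroup G} [N.Normal] {m : ℕ}
variable (D : Dat T N m)

private theorem conj_inj_L1c [IsSimpleGroup T] (hT : ∃ a b : T, a * b ≠ b * a) {a b : T}
    (h : MulAut.conj a = MulAut.conj b) : a = b := by
  have hc : b⁻¹ * a ∈ Subgroup.center T := by
    rw [Subgroup.mem_center_iff]
    intro g
    have h1 := DFunLike.congr_fun h g
    rw [MulAut.conj_apply, MulAut.conj_apply] at h1
    have h2 : a * g = b * g * b⁻¹ * a := by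
      rw [← h1]
      group
    calc g * (b⁻¹ * a) = b⁻¹ * (b * g * b⁻¹ * a) := by group
      _ = b⁻¹ * a * g := by rw [← h2, mul_assoc]
  rcases IsSimpleGroup.eq_bot_or_eq_top_of_normal (Subgroup.center T) inferInstance with h1 | h1
  · rw [h1, Subgroup.mem_bot] at hc
    exact (inv_mul_eq_one.1 hc).symm
  · exfalso
    obtain ⟨u, v, huv⟩ := hT
    have hu : v ∈ Subgroup.center T := by rw [h1]; exact Subgroup.mem_top _
    exact huv ((Subgroup.mem_center_iff.1 hu) u)

theorem rel_of_not_gen [Finite T] [IsSimpleGroup T] (hT : ∃ a b : T, a * b ≠ b * a)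
    (hm : 2 ≤ m) {x z : G} {l : ℤ} (hx : x ∈ co N D.g (m * l)) (hz : z ∈ co N D.g 1)
    (hinn : (MulAut.conj : T →* MulAut T).range ≤
      Subgroup.closure ({D.az z} ∪ Set.range (fun k : ℤ => D.xiz x l z k)))
    (h : ¬ Gen x z) :
    ∃ q : ℕ, q.Prime ∧ q ∣ m ∧ ∃ ψ : MulAut T, Commute ψ (D.az z) ∧
      ∀ k : ℤ, D.xiz x l z k = ψ * D.xiz x l z (k - (m / q : ℕ)) * ψ⁻¹ := by
  rcases D.crit_xh hT hm hx hz h with ⟨K0, hK0, haK, hxK⟩ | ⟨q, hq, hqm, ψ, hψ, hrel⟩
  · exfalso
    let S : Subgroup (MulAut T) :=
      { carrier := {φ | ∀ t, φ t ∈ K0 ↔ t ∈ K0}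
        mul_mem' := by
          intro a b ha hb t
          rw [MulAut.mul_apply, ha, hb]
        one_mem' := fun t => Iff.rfl
        inv_mem' := by
          intro a ha t
          have := ha (a⁻¹ t)
          rw [MulAut.apply_inv_self] at this
          exact this.symm }
    have hcS : D.az z ∈ S := by
      intro t
      refine ⟨fun ht => ?_, haK t⟩
      have hinj : Function.Injective (fun u : K0 => (⟨D.az z u, haK u u.2⟩ : K0)) := by
        intro u v huv
        have := congrArg Subtype.val huv
        exact Subtype.ext ((D.az z).injective this)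
      obtain ⟨u, hu⟩ := (Finite.injective_iff_surjective.1 hinj) ⟨D.az z t, ht⟩
      have := (D.az z).injective (congrArg Subtype.val hu)
      rw [← this]
      exact u.2
    have hconjS : ∀ u ∈ K0, MulAut.conj u ∈ S := by
      intro u hu t
      rw [MulAut.conj_apply]
      constructor
      · intro h1
        have h2 := K0.mul_mem (K0.mul_mem (K0.inv_mem hu) h1) hu
        have e : u⁻¹ * (u * t * u⁻¹) * u = t := by group
        rwa [e] at h2
      · intro h1
        exact K0.mul_mem (K0.mul_mem hu h1) (K0.inv_mem hu)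
    have hclS : Subgroup.closure ({D.az z} ∪ Set.range (fun k : ℤ => D.xiz x l z k)) ≤ S := by
      rw [Subgroup.closure_le]
      rintro φ (rfl | ⟨k, rfl⟩)
      · exact hcS
      · exact S.mul_mem (hconjS _ (hxK k)) (S.zpow_mem hcS l)
    have hnorm : K0.Normal := by
      constructor
      intro n hn g
      have h1 : MulAut.conj g ∈ S := hclS (hinn ⟨g, rfl⟩)
      exact (h1 n).2 hn
    have hbot : K0 = ⊥ := by
      rcases IsSimpleGroup.eq_bot_or_eq_top_of_normal K0 hnorm with h1 | h1
      · exact h1
      · exact absurd h1 hK0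
    have hxi : ∀ k, D.xiz x l z k = (D.az z) ^ l := by
      intro k
      have h1 := hxK k
      rw [hbot, Subgroup.mem_bot] at h1
      unfold xiz
      rw [h1, map_one, one_mul]
    have hcl2 : Subgroup.closure ({D.az z} ∪ Set.range (fun k : ℤ => D.xiz x l z k)) ≤
        Subgroup.zpowers (D.az z) := by
      rw [Subgroup.closure_le]
      rintro φ (rfl | ⟨k, rfl⟩)
      · exact Subgroup.mem_zpowers _
      · show D.xiz x l z k ∈ Subgroup.zpowers (D.az z)
        rw [hxi]
        exact Subgroup.zpow_mem _ (Subgroup.mem_zpowers _) l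
    obtain ⟨a, b, hab⟩ := hT
    apply hab
    apply conj_inj_L1c ⟨a, b, hab⟩
    obtain ⟨i, hi⟩ := Subgroup.mem_zpowers_iff.1 (hcl2 (hinn ⟨a, rfl⟩))
    obtain ⟨j, hj⟩ := Subgroup.mem_zpowers_iff.1 (hcl2 (hinn ⟨b, rfl⟩))
    have hi' : D.az z ^ i = MulAut.conj a := hi
    have hj' : D.az z ^ j = MulAut.conj b := hj
    rw [map_mul, map_mul, ← hi', ← hj', ← zpow_add, ← zpow_add, add_comm]
  · refine ⟨q, hq, hqm, ψ, hψ, fun k => ?_⟩
    have h1 : MulAut.conj (D.xh x (m * l) z k) =
        ψ * MulAut.conj (D.xh x (m * l) z (k - (m / q : ℕ))) * ψ⁻¹ := by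
      rw [hrel k]
      ext t
      rw [MulAut.conj_apply, MulAut.mul_apply, MulAut.mul_apply, MulAut.conj_apply, map_mul,
        map_mul, map_inv, MulAut.apply_inv_self]
    unfold xiz
    rw [h1]
    have h2 : ψ⁻¹ * (D.az z) ^ l = (D.az z) ^ l * ψ⁻¹ := (hψ.inv_left.zpow_right l).eq
    rw [mul_assoc (ψ * _) ψ⁻¹, h2, ← mul_assoc, ← mul_assoc]

end Dat

end HG17
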