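import Pool.Agent.HG17.MovHalf
import Pool.Agent.HG17.Coord

/-!
# HG17/RelCount: counting z with a twisted period (PROVE ME, 120-180 lines)

Notation: t = card T, s = m / q (0 < s, 2 s <= m), c = az z0, A = the set of the statement, M = mov x l.
If A is empty the claim is trivial. Otherwise mov_half gives M.ncard <= 2 * card {k in M | s <= k}.
Let C = image of S under k |-> (k + s) mod m (in Fin m), W' = W union C (card W' <= card W + card S),
J2 = {k in M | s <= k, k not in W'}: 2 * card J2 >= M.ncard - 2 * card W' >= 2 j, so j <= card J2. J1 = W,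
J = J1 union J2 (disjoint). Rank: r k = 0 if k in W', r k = k + 1 otherwise. c k = t, d k = 1 on J1;
c k = 2, d k = 1 on J2 (0 is in W, so k > 0 for k in J2). Apply seq_z: the products are
t^(card W) * 2^(card J2) and 1, and 2^j <= 2^(card J2).
Bound on J1: all values crd z k, z in A, are crd z0 k: at most one value, t * 1 <= 1 * t.
Bound on J2: let k in J2, let z, z' in A agree (with a third element of A, so with each other) on all
coordinates of rank < r k = k + 1, i.e. on W' and on all numbers < k. Let psi, psi' belong to z, z'.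
All of z0, z, z' have the same eta (_) m, so the same az = c.
(1) psi = psi'. For i in S: xiz z i = xiz z0 i = xiz z' i (i in W: xiz_congr with crd_pos, or xiz_zero if
i = 0). And xiz z (i + s) = xiz z' (i + s): let i' = (i + s) mod m in C; xiz z i' = xiz z' i' (xiz_zero if
i' = 0, otherwise crd_pos, xiz_congr); if i + s >= m then i + s = i' + m and xiz z i' = c * xiz z (i' + m) *
c^-1 (xiz_per). So psi * xiz z0 i * psi^-1 = xiz z (i+s) = psi' * xiz z0 i * psi'^-1 for i in S: the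
automorphism w = psi'^-1 * psi commutes with c and with xiz z0 i for i in S, hence with the closure, hence with
conj u for all u in T: conj (w u) = conj u, so (w u)^-1 * u is in the center of T, which is trivial (the center
is normal, T simple, hT), so w u = u, w = 1.
(2) xiz z k = psi * xiz z (k - s) * psi^-1, and xiz z (k - s) = xiz z' (k - s) (0 <= k - s < k: coordinate
k - s has number < k, or k - s = 0 and xiz_zero). So xiz z k = xiz z' k. Let xi = xiz x l g k <> 1 (k in M),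
u = eta z k = crd z k, u' = eta z' k. By xiz_eq conj(u)^-1 xi conj(u) = conj(u')^-1 xi conj(u'), so
conj (u' u^-1) commutes with xi, i.e. conj (xi (u' u^-1)) = conj (u' u^-1), so xi (u' u^-1) = u' u^-1 (trivial
center). So u' = y u with y in the subgroup K1 = {y | xi y = y}, which is proper as xi <> 1.
So the set of values is empty or contained in a right coset K1 u, at most card K1 elements, and
2 * card K1 <= t. Do not change the statement.
-/

namespace HG17

namespace Dat

variable {G : Type*} [Group G] {T : Type*} [Group T] {N : Subgroup G} [N.Normal] {m : ℕ}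
variable (D : Dat T N m)

private theorem conj_inj_RC [IsSimpleGroup T] (hT : ∃ a b : T, a * b ≠ b * a) {a b : T}
    (h : MulAut.conj a = MulAut.conj b) : a = b := by
  have hc : b⁻¹ * a ∈ Subgroup.center T := by
    rw [Subgroup.mem_center_iff]
    intro g
    have h1 := DFunLike.congr_fun h g
    rw [MulAut.conj_apply, MulAut.conj_apply] at h1
    have h2 : a * g = b * g * b⁻¹ * a := by
      rw [← h1]
      group
    calc g * (b⁻¹ * a) = b⁻¹ * (b * g * b⁻¹ * a) := by group
      _ = b⁻¹ * a * g := by rw [← h2, mul_assoc]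
  rcases IsSimpleGroup.eq_bot_or_eq_top_of_normal (Subgroup.center T) inferInstance with h1 | h1
  · rw [h1, Subgroup.mem_bot] at hc
    exact (inv_mul_eq_one.1 hc).symm
  · exfalso
    obtain ⟨u, v, huv⟩ := hT
    have hu : v ∈ Subgroup.center T := by rw [h1]; exact Subgroup.mem_top _
    exact huv ((Subgroup.mem_center_iff.1 hu) u)

private theorem conj_aut_RC (φ : MulAut T) (u : T) :
    φ * MulAut.conj u * φ⁻¹ = MulAut.conj (φ u) := by
  ext t
  rw [MulAut.conj_apply, MulAut.mul_apply, MulAut.mul_apply, MulAut.conj_apply, map_mul,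
    map_mul, map_inv, MulAut.apply_inv_self]

private theorem fix_of_comm_RC [IsSimpleGroup T] (hT : ∃ a b : T, a * b ≠ b * a) {φ : MulAut T}
    {u : T} (h : Commute φ (MulAut.conj u)) : φ u = u := by
  apply conj_inj_RC hT
  rw [← conj_aut_RC, h.eq, mul_inv_cancel_right]

private theorem same_xiz_RC (hm : 0 < m) {x z z' : G} {l : ℤ} (hx : x ∈ co N D.g (m * l))
    (hz : z ∈ co N D.g 1) (hz' : z' ∈ co N D.g 1) (k : Fin m) (h : D.crd z k = D.crd z' k) :
    D.xiz x l z ((k : ℕ) : ℤ) = D.xiz x l z' ((k : ℕ) : ℤ) := by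
  by_cases h0 : (k : ℕ) = 0
  · rw [h0, Nat.cast_zero, D.xiz_zero hm hx hz, D.xiz_zero hm hx hz']
  · rw [D.crd_pos z h0, D.crd_pos z' h0] at h
    exact D.xiz_congr hm hx hz hz' h

private theorem key_RC [IsSimpleGroup T] (hT : ∃ a b : T, a * b ≠ b * a)
    (hm : 0 < m) {x z0 z z' : G} {l : ℤ} (hx : x ∈ co N D.g (m * l)) (hz0 : z0 ∈ co N D.g 1)
    (hz : z ∈ co N D.g 1) (hz' : z' ∈ co N D.g 1) (S : Finset (Fin m))
    (hS : (MulAut.conj : T →* MulAut T).range ≤
      Subgroup.closure ({D.az z0} ∪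
        (fun k : Fin m => D.xiz x l z0 ((k : ℕ) : ℤ)) '' (S : Set (Fin m))))
    (haz : D.az z = D.az z0) (haz' : D.az z' = D.az z0)
    (hSz : ∀ k ∈ S, D.xiz x l z ((k : ℕ) : ℤ) = D.xiz x l z0 ((k : ℕ) : ℤ))
    (hSz' : ∀ k ∈ S, D.xiz x l z' ((k : ℕ) : ℤ) = D.xiz x l z0 ((k : ℕ) : ℤ))
    (s : ℕ) (hsm : s ≤ m)
    (hC : ∀ k ∈ S, ∀ k' : Fin m, (k' : ℕ) = ((k : ℕ) + s) % m →
      D.xiz x l z ((k' : ℕ) : ℤ) = D.xiz x l z' ((k' : ℕ) : ℤ))
    (ψ ψ' : MulAut T) (hψ : Commute ψ (D.az z)) (hψ' : Commute ψ' (D.az z'))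
    (hr : ∀ k : ℤ, D.xiz x l z k = ψ * D.xiz x l z (k - (s : ℕ)) * ψ⁻¹)
    (hr' : ∀ k : ℤ, D.xiz x l z' k = ψ' * D.xiz x l z' (k - (s : ℕ)) * ψ'⁻¹)
    (e : Fin m) (hse : s ≤ (e : ℕ)) (hs0 : 0 < s)
    (hlow : ∀ k : Fin m, (k : ℕ) < (e : ℕ) →
      D.xiz x l z ((k : ℕ) : ℤ) = D.xiz x l z' ((k : ℕ) : ℤ)) :
    D.xiz x l D.g ((e : ℕ) : ℤ) (D.crd z e * (D.crd z' e)⁻¹) = D.crd z e * (D.crd z' e)⁻¹ := by
  -- values at i + s
  have hshift : ∀ k ∈ S, D.xiz x l z (((k : ℕ) : ℤ) + s) = D.xiz x l z' (((k : ℕ) : ℤ) + s) := by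
    intro k hk
    have hkm := k.2
    have h1 := hC k hk ⟨((k : ℕ) + s) % m, Nat.mod_lt _ hm⟩ rfl
    simp only at h1
    by_cases hlt : (k : ℕ) + s < m
    · rw [Nat.mod_eq_of_lt hlt] at h1
      push_cast at h1
      exact h1
    · have h2 : ((k : ℕ) + s) % m = (k : ℕ) + s - m := by
        rw [Nat.mod_eq_sub_mod (by omega), Nat.mod_eq_of_lt (by omega)]
      rw [h2] at h1
      have h3 : (((k : ℕ) + s - m : ℕ) : ℤ) = ((k : ℕ) : ℤ) + s - m := by
        push_cast [Nat.cast_sub (show m ≤ (k : ℕ) + s by omega)]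
        ring
      rw [h3, D.xiz_per hx hz, D.xiz_per hx hz', haz, haz'] at h1
      exact mul_left_cancel (mul_right_cancel h1)
  -- the two automorphisms are equal
  have hw : ψ'⁻¹ * ψ = 1 := by
    have hcl : ∀ φ ∈ Subgroup.closure ({D.az z0} ∪
        (fun k : Fin m => D.xiz x l z0 ((k : ℕ) : ℤ)) '' (S : Set (Fin m))),
        Commute (ψ'⁻¹ * ψ) φ := by
      intro φ hφ
      have hle : Subgroup.closure ({D.az z0} ∪
        (fun k : Fin m => D.xiz x l z0 ((k : ℕ) : ℤ)) '' (S : Set (Fin m))) ≤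
          Subgroup.centralizer {ψ'⁻¹ * ψ} := by
        rw [Subgroup.closure_le]
        rintro θ (rfl | ⟨k, hk, rfl⟩)
        · show D.az z0 ∈ Subgroup.centralizer _
          rw [Subgroup.mem_centralizer_singleton_iff]
          have h1 : Commute ψ (D.az z0) := by rw [← haz]; exact hψ
          have h2 : Commute ψ' (D.az z0) := by rw [← haz']; exact hψ'
          exact ((h2.inv_left).mul_left h1).eq.symm
        · show D.xiz x l z0 ((k : ℕ) : ℤ) ∈ Subgroup.centralizer _
          rw [Subgroup.mem_centralizer_singleton_iff]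
          have h1 := hr (((k : ℕ) : ℤ) + s)
          have h2 := hr' (((k : ℕ) : ℤ) + s)
          rw [add_sub_cancel_right, hSz k hk] at h1
          rw [add_sub_cancel_right, hSz' k hk] at h2
          rw [hshift k hk, h2] at h1
          -- ψ' X ψ'⁻¹ = ψ X ψ⁻¹
          have h3 : D.xiz x l z0 ((k : ℕ) : ℤ) * (ψ'⁻¹ * ψ) =
              ψ'⁻¹ * (ψ' * D.xiz x l z0 ((k : ℕ) : ℤ) * ψ'⁻¹) * ψ := by group
          rw [h3, h1]
          group
      have h1 := hle hφ
      rw [Subgroup.mem_centralizer_singleton_iff] at h1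
      exact h1.symm
    ext u
    exact fix_of_comm_RC hT (hcl _ (hS ⟨u, rfl⟩))
  have hψψ : ψ = ψ' := by
    have := (inv_mul_eq_one.1 hw).symm
    exact this
  -- values at e
  have he : D.xiz x l z ((e : ℕ) : ℤ) = D.xiz x l z' ((e : ℕ) : ℤ) := by
    rw [hr ((e : ℕ) : ℤ), hr' ((e : ℕ) : ℤ), hψψ]
    have hk := hlow ⟨(e : ℕ) - s, by have := e.2; omega⟩ (by simp only; omega)
    simp only at hk
    rw [Nat.cast_sub hse] at hk
    rw [hk]
  rw [D.xiz_eq hm hx hz, D.xiz_eq hm hx hz'] at he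
  have he0 : (e : ℕ) ≠ 0 := by omega
  rw [D.crd_pos z he0, D.crd_pos z' he0]
  apply fix_of_comm_RC hT
  rw [map_mul, map_inv]
  generalize D.xiz x l D.g ((e : ℕ) : ℤ) = ξ at *
  generalize MulAut.conj (D.eta z ((e : ℕ) : ℤ)) = a at *
  generalize MulAut.conj (D.eta z' ((e : ℕ) : ℤ)) = b at *
  show ξ * (a * b⁻¹) = a * b⁻¹ * ξ
  have h3 : ξ * (a * b⁻¹) = a * (a⁻¹ * ξ * a) * b⁻¹ := by group
  rw [h3, he]
  group

theorem rel_count [Finite G] [Finite T] [IsSimpleGroup T] (hT : ∃ a b : T, a * b ≠ b * a)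
    (hm : 2 ≤ m) {x z0 : G} {l : ℤ} (hx : x ∈ co N D.g (m * l)) (hz0 : z0 ∈ co N D.g 1)
    (S W : Finset (Fin m)) (hW : ∀ k : Fin m, k ∈ W ↔ ((k : ℕ) = 0 ∨ k ∈ S))
    (hS : (MulAut.conj : T →* MulAut T).range ≤
      Subgroup.closure ({D.az z0} ∪
        (fun k : Fin m => D.xiz x l z0 ((k : ℕ) : ℤ)) '' (S : Set (Fin m))))
    {q : ℕ} (hq : q.Prime) (hqm : q ∣ m) (j : ℕ)
    (hj : 2 * (j + W.card + S.card) ≤ (D.mov x l).ncard) :
    2 ^ j * Nat.card T ^ W.card *
      {z | z ∈ co N D.g 1 ∧ (∀ k ∈ W, D.crd z k = D.crd z0 k) ∧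
        ∃ ψ : MulAut T, Commute ψ (D.az z) ∧
          ∀ k : ℤ, D.xiz x l z k = ψ * D.xiz x l z (k - (m / q : ℕ)) * ψ⁻¹}.ncard ≤
      Nat.card T ^ m := by
  classical
  have hm0 : 0 < m := by omega
  obtain ⟨s, hs⟩ : ∃ s, s = m / q := ⟨_, rfl⟩
  have hqs : q * s = m := by rw [hs]; exact Nat.mul_div_cancel' hqm
  have hs0 : 0 < s := by
    rcases Nat.eq_zero_or_pos s with h | h
    · rw [h, mul_zero] at hqs
      omega
    · exact h
  have hs2 : 2 * s ≤ m := by
    rw [← hqs]
    exact Nat.mul_le_mul_right _ hq.two_le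
  obtain ⟨A, hA⟩ : ∃ A : Set G, A = {z | z ∈ co N D.g 1 ∧ (∀ k ∈ W, D.crd z k = D.crd z0 k) ∧
        ∃ ψ : MulAut T, Commute ψ (D.az z) ∧
          ∀ k : ℤ, D.xiz x l z k = ψ * D.xiz x l z (k - (m / q : ℕ)) * ψ⁻¹} := ⟨_, rfl⟩
  rw [← hA]
  rcases A.eq_empty_or_nonempty with hAe | ⟨z1, hz1⟩
  · rw [hAe, Set.ncard_empty, mul_zero]
    exact Nat.zero_le _
  have hAco : A ⊆ co N D.g 1 := by
    intro z hz
    rw [hA] at hz
    exact hz.1
  have hAW : ∀ z ∈ A, ∀ k ∈ W, D.crd z k = D.crd z0 k := by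
    intro z hz
    rw [hA] at hz
    exact hz.2.1
  have hAψ : ∀ z ∈ A, ∃ ψ : MulAut T, Commute ψ (D.az z) ∧
          ∀ k : ℤ, D.xiz x l z k = ψ * D.xiz x l z (k - (s : ℕ)) * ψ⁻¹ := by
    intro z hz
    rw [hA] at hz
    rw [hs]
    exact hz.2.2
  have hhalf : (D.mov x l).ncard ≤ 2 * {k : Fin m | k ∈ D.mov x l ∧ s ≤ (k : ℕ)}.ncard := by
    have h1 := hz1
    rw [hA] at h1
    obtain ⟨h2, -, ψ, -, h4⟩ := h1
    rw [hs]
    exact D.mov_half hm hx h2 hq hqm ψ h4
  -- the sets
  obtain ⟨C, hC⟩ : ∃ C, C = S.image (fun k : Fin m =>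
    (⟨((k : ℕ) + s) % m, Nat.mod_lt _ hm0⟩ : Fin m)) := ⟨_, rfl⟩
  obtain ⟨J2, hJ2⟩ : ∃ J2 : Finset (Fin m), J2 = Finset.univ.filter
    (fun k => k ∈ D.mov x l ∧ s ≤ (k : ℕ) ∧ k ∉ W ∪ C) := ⟨_, rfl⟩
  have hcardC : C.card ≤ S.card := by
    rw [hC]
    exact Finset.card_image_le
  have hcardJ2 : {k : Fin m | k ∈ D.mov x l ∧ s ≤ (k : ℕ)}.ncard ≤ J2.card + (W.card + S.card) := by
    have h1 : {k : Fin m | k ∈ D.mov x l ∧ s ≤ (k : ℕ)} ⊆ ((J2 ∪ (W ∪ C) : Finset (Fin m)) :
        Set (Fin m)) := by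
      rintro k ⟨hk1, hk2⟩
      rw [Finset.mem_coe, Finset.mem_union]
      by_cases hk3 : k ∈ W ∪ C
      · exact Or.inr hk3
      · left
        rw [hJ2, Finset.mem_filter]
        exact ⟨Finset.mem_univ _, hk1, hk2, hk3⟩
    have h2 := Set.ncard_le_ncard h1 (Set.toFinite _)
    rw [Set.ncard_coe_finset] at h2
    refine h2.trans ((Finset.card_union_le _ _).trans ?_)
    have h3 := Finset.card_union_le W C
    omega
  have hj2 : j ≤ J2.card := by omega
  have hdisj : Disjoint W J2 := by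
    rw [Finset.disjoint_left]
    intro k hk hk'
    rw [hJ2, Finset.mem_filter] at hk'
    exact hk'.2.2.2 (Finset.mem_union_left _ hk)
  have hmain := D.seq_z hm0 A hAco (W ∪ J2) (fun k => if k ∈ W ∪ C then 0 else (k : ℕ) + 1)
    (fun k => if k ∈ W then Nat.card T else 2) (fun _ => 1) (by
    intro e he z2 hz2
    rw [one_mul]
    by_cases heW : e ∈ W
    · rw [if_pos heW]
      have h1 : {v | ∃ z ∈ A, (∀ k, (if k ∈ W ∪ C then 0 else (k : ℕ) + 1) <
          (if e ∈ W ∪ C then 0 else (e : ℕ) + 1) → D.crd z k = D.crd z2 k) ∧ D.crd z e = v} ⊆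
          {D.crd z0 e} := by
        rintro v ⟨z, hz, -, rfl⟩
        exact hAW z hz e heW
      have h2 := Set.ncard_le_ncard h1 (Set.toFinite _)
      rw [Set.ncard_singleton] at h2
      calc Nat.card T * _ ≤ Nat.card T * 1 := Nat.mul_le_mul_left _ h2
        _ = Nat.card T := mul_one _
    · rw [if_neg heW]
      have heJ : e ∈ J2 := by
        rw [Finset.mem_union] at he
        exact he.resolve_left heW
      rw [hJ2, Finset.mem_filter] at heJ
      obtain ⟨-, heM, hse, heWC⟩ := heJ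
      rw [if_neg heWC]
      -- the subgroup of fixed points
      let K1 : Subgroup T :=
        { carrier := {y | D.xiz x l D.g ((e : ℕ) : ℤ) y = y}
          mul_mem' := by
            intro a b ha hb
            show D.xiz x l D.g ((e : ℕ) : ℤ) (a * b) = a * b
            rw [map_mul]
            exact congrArg₂ _ ha hb
          one_mem' := map_one _
          inv_mem' := by
            intro a ha
            show D.xiz x l D.g ((e : ℕ) : ℤ) a⁻¹ = a⁻¹
            rw [map_inv]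
            exact congrArg _ ha }
      have hK1 : K1 ≠ ⊤ := by
        intro h1
        apply heM
        ext y
        have h2 : y ∈ K1 := by rw [h1]; exact Subgroup.mem_top _
        exact h2
      have hsub : {v | ∃ z ∈ A, (∀ k, (if k ∈ W ∪ C then 0 else (k : ℕ) + 1) <
          (e : ℕ) + 1 → D.crd z k = D.crd z2 k) ∧ D.crd z e = v} ⊆
          (fun y => y * D.crd z2 e) '' (K1 : Set T) := by
        rintro v ⟨z, hz, hagree, rfl⟩
        refine ⟨D.crd z e * (D.crd z2 e)⁻¹, ?_, by simp⟩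
        obtain ⟨ψ, hψ, hr⟩ := hAψ z hz
        obtain ⟨ψ', hψ', hr'⟩ := hAψ z2 hz2
        have hWz : ∀ z ∈ A, D.az z = D.az z0 := by
          intro z hz
          apply D.az_congr
          have h1 := hAW z hz ⟨0, hm0⟩ ((hW _).2 (Or.inl rfl))
          rwa [D.crd_zero z rfl, D.crd_zero z0 rfl] at h1
        have hSW : ∀ z ∈ A, ∀ k ∈ S, D.xiz x l z ((k : ℕ) : ℤ) = D.xiz x l z0 ((k : ℕ) : ℤ) := by
          intro z hz k hk
          exact same_xiz_RC D hm0 hx (hAco hz) hz0 k (hAW z hz k ((hW k).2 (Or.inr hk)))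
        refine key_RC D hT hm0 hx hz0 (hAco hz) (hAco hz2) S hS (hWz z hz) (hWz z2 hz2)
          (hSW z hz) (hSW z2 hz2) s (by omega) ?_ ψ ψ' hψ hψ' hr hr' e hse hs0 ?_
        · intro k hk k' hk'
          apply same_xiz_RC D hm0 hx (hAco hz) (hAco hz2)
          apply hagree
          have h1 : k' ∈ W ∪ C := by
            rw [Finset.mem_union, hC, Finset.mem_image]
            exact Or.inr ⟨k, hk, Fin.ext hk'.symm⟩
          rw [if_pos h1]
          omega
        · intro k hk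
          apply same_xiz_RC D hm0 hx (hAco hz) (hAco hz2)
          apply hagree
          split_ifs <;> omega
      have h1 := Set.ncard_le_ncard hsub (Set.toFinite _)
      rw [Set.ncard_image_of_injective _ (mul_left_injective _)] at h1
      have h2 : (K1 : Set T).ncard = Nat.card K1 := rfl
      rw [h2] at h1
      have h3 : 2 * Nat.card K1 ≤ Nat.card T := by
        have h4 := K1.index_mul_card
        have h5 : K1.index ≠ 1 := fun h => hK1 (Subgroup.index_eq_one.1 h)
        have h6 : K1.index ≠ 0 := Subgroup.index_ne_zero_of_finite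
        rw [← h4]
        exact Nat.mul_le_mul_right _ (by omega)
      omega)
  rw [Finset.prod_const_one, one_mul, Finset.prod_union hdisj] at hmain
  have hp1 : ∏ k ∈ W, (if k ∈ W then Nat.card T else 2) = Nat.card T ^ W.card := by
    rw [Finset.prod_congr rfl (fun k hk => if_pos hk), Finset.prod_const]
  have hp2 : ∏ k ∈ J2, (if k ∈ W then Nat.card T else 2) = 2 ^ J2.card := by
    rw [Finset.prod_congr rfl (fun k hk => if_neg (fun h => Finset.disjoint_left.1 hdisj h hk)),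
      Finset.prod_const]
  rw [hp1, hp2] at hmain
  have h2j : 2 ^ j ≤ 2 ^ J2.card := Nat.pow_le_pow_right (by norm_num) hj2
  calc 2 ^ j * Nat.card T ^ W.card * A.ncard ≤ 2 ^ J2.card * Nat.card T ^ W.card * A.ncard :=
        Nat.mul_le_mul_right _ (Nat.mul_le_mul_right _ h2j)
    _ = Nat.card T ^ W.card * 2 ^ J2.card * A.ncard := by rw [mul_comm (2 ^ J2.card)]
    _ ≤ Nat.card T ^ m := hmain

end Dat

end HG17
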