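import Pool.Agent.HG17.L1a
import Pool.Agent.HG17.L1b
import Pool.Agent.HG17.L1c
import Pool.Agent.HG17.RelCount

/-!
# HG17/DdLarge: x acting on many factors (PROVE ME, 80-130 lines)

Notation: t = card T, L = clog 2 t, la = clog 2 m >= 1, M = mov x l.
Proof. inn_le for z0 and exists_small give S, card S <= L. Let W = {k | (k : N) = 0 or k in S},
card W <= card S + 1 <= L + 1. E = {z in co 1 | crd z k = crd z0 k for k in W}, E0 = {z in E | not Gen x z}.
(1) For z in E: az z = az z0 and xiz z k = xiz z0 k for k in S (coordinate 0 gives eta z m; xiz_zero if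
k = 0, otherwise crd_pos and xiz_congr). So conj.range is contained in the closure for z and S, hence in the
closure ({az z} union range over Z) (closure_mono).
(2) By rel_of_not_gen E0 is contained in the union over the primes q | m (m.primeFactors) of the sets
A_q of rel_count. With j = la: 2 * (la + card W + card S) <= 2 la + 4 L + 2 <= M.ncard, so
2^la * t^(card W) * card A_q <= t^m.
(3) card m.primeFactors <= la: 2^(card) <= product of the primes <= m <= 2^la. And 2 * la <= 2^la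
(la >= 1, induction). So 2^la * t^(card W) * card E0 <= la * t^m, hence
2 * la * t^(card W) * card E0 <= la * t^m, 2 * t^(card W) * card E0 <= t^m = t^(card W) * card E (fib_z), so
2 * card E0 <= card E and card E <= 2 * card (E minus E0) <= 2 * dd x.
(4) t^m = t^(card W) * card E <= t^(1+L) * 2 * dd x. Do not change the statement.
-/

namespace HG17

namespace Dat

variable {G : Type*} [Group G] {T : Type*} [Group T] {N : Subgroup G} [N.Normal] {m : ℕ}
variable (D : Dat T N m)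

private theorem ncard_biUnion_DL {α : Type*} [Finite α] (P : Finset ℕ) (A : ℕ → Set α) :
    (⋃ q ∈ P, A q).ncard ≤ ∑ q ∈ P, (A q).ncard := by
  classical
  induction P using Finset.induction_on with
  | empty => simp
  | insert a P ha ih =>
    rw [Finset.set_biUnion_insert, Finset.sum_insert ha]
    exact (Set.ncard_union_le _ _).trans (Nat.add_le_add_left ih _)

private theorem card_primeFactors_DL {m : ℕ} (hm : 0 < m) :
    m.primeFactors.card ≤ Nat.clog 2 m := by
  have h1 : 2 ^ m.primeFactors.card ≤ ∏ p ∈ m.primeFactors, p :=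
    Finset.pow_card_le_prod _ _ _ fun p hp => (Nat.prime_of_mem_primeFactors hp).two_le
  have h2 : ∏ p ∈ m.primeFactors, p ≤ m := Nat.le_of_dvd hm (Nat.prod_primeFactors_dvd m)
  have h3 : m ≤ 2 ^ Nat.clog 2 m := Nat.le_pow_clog (by norm_num) _
  exact (Nat.pow_le_pow_iff_right (by norm_num)).1 ((h1.trans h2).trans h3)

private theorem two_mul_le_DL : ∀ n : ℕ, 1 ≤ n → 2 * n ≤ 2 ^ n := by
  intro n hn
  induction n, hn using Nat.le_induction with
  | base => norm_num
  | succ n hn ih =>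
    rw [pow_succ]
    have h1 : 2 ≤ 2 ^ n := by
      calc 2 = 2 ^ 1 := rfl
        _ ≤ 2 ^ n := Nat.pow_le_pow_right (by norm_num) hn
    omega

theorem dd_large [Finite G] [Finite T] [IsSimpleGroup T] (hT : ∃ a b : T, a * b ≠ b * a)
    (hm : 2 ≤ m) {x z0 : G} {l : ℤ} (hx : x ∈ co N D.g (m * l)) (hz0 : z0 ∈ co N D.g 1)
    (hgen : Gen x z0)
    (hY : 4 * Nat.clog 2 (Nat.card T) + 2 * Nat.clog 2 m + 2 < (D.mov x l).ncard) :
    Nat.card T ^ m ≤ 2 * dd N D.g x * Nat.card T ^ (1 + Nat.clog 2 (Nat.card T)) := by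
  classical
  have hm0 : 0 < m := by omega
  have : Nontrivial T := inferInstance
  have hTpos : 0 < Nat.card T := Nat.card_pos
  have hinn0 := D.inn_le hm0 hx hz0 hgen
  obtain ⟨S, hSc, hS⟩ := D.exists_small hm0 hx hz0 hinn0
  obtain ⟨L, hL⟩ : ∃ L, L = Nat.clog 2 (Nat.card T) := ⟨_, rfl⟩
  obtain ⟨la, hla⟩ : ∃ la, la = Nat.clog 2 m := ⟨_, rfl⟩
  rw [← hL] at hSc hY ⊢
  rw [← hla] at hY
  have hla1 : 1 ≤ la := by
    rw [hla]
    exact Nat.clog_pos (by norm_num) hm
  obtain ⟨W, hW⟩ : ∃ W : Finset (Fin m), W = Finset.univ.filter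
    (fun k : Fin m => (k : ℕ) = 0 ∨ k ∈ S) := ⟨_, rfl⟩
  have hWm : ∀ k : Fin m, k ∈ W ↔ ((k : ℕ) = 0 ∨ k ∈ S) := by
    intro k
    rw [hW, Finset.mem_filter]
    simp
  have hWc : W.card ≤ S.card + 1 := by
    have h1 : W ⊆ insert ⟨0, hm0⟩ S := by
      intro k hk
      rw [Finset.mem_insert]
      rcases (hWm k).1 hk with h | h
      · left
        exact Fin.ext h
      · exact Or.inr h
    exact (Finset.card_le_card h1).trans (Finset.card_insert_le _ _)
  obtain ⟨E, hE⟩ : ∃ E : Set G, E = {z | z ∈ co N D.g 1 ∧ ∀ k ∈ W, D.crd z k = D.crd z0 k} :=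
    ⟨_, rfl⟩
  have hfib := D.fib_z hm0 W hz0
  rw [← hE] at hfib
  obtain ⟨A, hA⟩ : ∃ A : ℕ → Set G, ∀ q, A q = {z | z ∈ co N D.g 1 ∧
        (∀ k ∈ W, D.crd z k = D.crd z0 k) ∧
        ∃ ψ : MulAut T, Commute ψ (D.az z) ∧
          ∀ k : ℤ, D.xiz x l z k = ψ * D.xiz x l z (k - (m / q : ℕ)) * ψ⁻¹} := ⟨_, fun _ => rfl⟩
  obtain ⟨E0, hE0⟩ : ∃ E0 : Set G, E0 = {z | z ∈ E ∧ ¬ Gen x z} := ⟨_, rfl⟩
  have hsub : E0 ⊆ ⋃ q ∈ m.primeFactors, A q := by
    intro z hz
    rw [hE0, hE] at hz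
    obtain ⟨⟨hzc, hzW⟩, hng⟩ := hz
    have haz : D.az z = D.az z0 := by
      apply D.az_congr
      have h1 := hzW ⟨0, hm0⟩ ((hWm _).2 (Or.inl rfl))
      rwa [D.crd_zero z rfl, D.crd_zero z0 rfl] at h1
    have hbase : ∀ k ∈ S, D.xiz x l z ((k : ℕ) : ℤ) = D.xiz x l z0 ((k : ℕ) : ℤ) := by
      intro k hk
      have h1 := hzW k ((hWm k).2 (Or.inr hk))
      by_cases h0 : (k : ℕ) = 0
      · rw [h0, Nat.cast_zero, D.xiz_zero hm0 hx hzc, D.xiz_zero hm0 hx hz0]
      · rw [D.crd_pos z h0, D.crd_pos z0 h0] at h1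
        exact D.xiz_congr hm0 hx hzc hz0 h1
    have hinn : (MulAut.conj : T →* MulAut T).range ≤
        Subgroup.closure ({D.az z} ∪ Set.range (fun k : ℤ => D.xiz x l z k)) := by
      refine hS.trans (Subgroup.closure_mono ?_)
      rintro φ (rfl | ⟨k, hk, rfl⟩)
      · exact Or.inl haz.symm
      · right
        exact ⟨((k : ℕ) : ℤ), hbase k hk⟩
    obtain ⟨q, hq, hqm, ψ, hψ, hrel⟩ := D.rel_of_not_gen hT hm hx hzc hinn hng
    simp only [Set.mem_iUnion]
    refine ⟨q, Nat.mem_primeFactors.2 ⟨hq, hqm, by omega⟩, ?_⟩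
    rw [hA]
    exact ⟨hzc, hzW, ψ, hψ, hrel⟩
  have hAq : ∀ q ∈ m.primeFactors, 2 ^ la * Nat.card T ^ W.card * (A q).ncard ≤ Nat.card T ^ m := by
    intro q hq
    rw [hA]
    exact D.rel_count hT hm hx hz0 S W hWm hS (Nat.prime_of_mem_primeFactors hq)
      (Nat.dvd_of_mem_primeFactors hq) la (by omega)
  have hcnt : 2 ^ la * Nat.card T ^ W.card * E0.ncard ≤ la * Nat.card T ^ m := by
    have h1 : E0.ncard ≤ ∑ q ∈ m.primeFactors, (A q).ncard :=
      (Set.ncard_le_ncard hsub (Set.toFinite _)).trans (ncard_biUnion_DL _ _)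
    calc 2 ^ la * Nat.card T ^ W.card * E0.ncard
        ≤ 2 ^ la * Nat.card T ^ W.card * ∑ q ∈ m.primeFactors, (A q).ncard :=
          Nat.mul_le_mul_left _ h1
      _ = ∑ q ∈ m.primeFactors, 2 ^ la * Nat.card T ^ W.card * (A q).ncard := Finset.mul_sum _ _ _
      _ ≤ ∑ _q ∈ m.primeFactors, Nat.card T ^ m := Finset.sum_le_sum hAq
      _ = m.primeFactors.card * Nat.card T ^ m := by rw [Finset.sum_const, smul_eq_mul]
      _ ≤ la * Nat.card T ^ m := by
          rw [hla]
          exact Nat.mul_le_mul_right _ (card_primeFactors_DL hm0)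
  have h2E : 2 * E0.ncard ≤ E.ncard := by
    have h1 : 2 * la * (Nat.card T ^ W.card * E0.ncard) ≤ la * (Nat.card T ^ W.card * E.ncard) := by
      rw [hfib]
      calc 2 * la * (Nat.card T ^ W.card * E0.ncard)
          ≤ 2 ^ la * (Nat.card T ^ W.card * E0.ncard) :=
            Nat.mul_le_mul_right _ (two_mul_le_DL la hla1)
        _ = 2 ^ la * Nat.card T ^ W.card * E0.ncard := by ring
        _ ≤ _ := hcnt
    have h2 : (la * Nat.card T ^ W.card) * (2 * E0.ncard) ≤ (la * Nat.card T ^ W.card) * E.ncard := by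
      calc (la * Nat.card T ^ W.card) * (2 * E0.ncard) = 2 * la * (Nat.card T ^ W.card * E0.ncard) := by
            ring
        _ ≤ _ := h1
        _ = _ := by ring
    exact Nat.le_of_mul_le_mul_left h2 (by positivity)
  have hEsplit : E ⊆ E0 ∪ {z | z ∈ co N D.g 1 ∧ Gen x z} := by
    intro z hz
    by_cases hg : Gen x z
    · right
      rw [hE] at hz
      exact ⟨hz.1, hg⟩
    · left
      rw [hE0]
      exact ⟨hz, hg⟩
  have hEle : E.ncard ≤ E0.ncard + dd N D.g x :=
    (Set.ncard_le_ncard hEsplit (Set.toFinite _)).trans (Set.ncard_union_le _ _)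
  have hE2 : E.ncard ≤ 2 * dd N D.g x := by omega
  calc Nat.card T ^ m = Nat.card T ^ W.card * E.ncard := hfib.symm
    _ ≤ Nat.card T ^ (1 + L) * (2 * dd N D.g x) :=
        Nat.mul_le_mul (Nat.pow_le_pow_right hTpos (by omega)) hE2
    _ = _ := mul_comm _ _

end Dat

end HG17
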