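import Pool.Agent.HG17.Coord

/-!
# HG17/L2D1: a twisted period, x moving the factors, first case
-/

namespace HG17

namespace Dat

variable {G : Type*} [Group G] {T : Type*} [Group T] {N : Subgroup G} [N.Normal] {m : ℕ}
variable (D : Dat T N m)

theorem xh_eq_l2D1 {x z : G} {i0 l : ℤ} (hx : x ∈ co N D.g (i0 + m * l))
    (hz : z ∈ co N D.g 1) (k : ℤ) :
    D.xh x (i0 + m * l) z k = (D.eta z k)⁻¹ * D.P k ⟨x * D.g ^ (-(i0 + m * l)), hx⟩ *
      ((D.a ^ l) (D.eta z (k - i0)) * D.eta z (m * (-l))) := by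
  rw [D.xh_eq hx hz k]
  congr 1
  have e : k - (i0 + m * l) = (k - i0) - m * l := by ring
  have e2 : (m : ℤ) * (-l) = -(m * l) := by ring
  rw [e, D.eta_sub_mul hz, e2]

theorem card_filter_le_l2D1 (m t : ℕ) :
    ((Finset.univ : Finset (Fin m)).filter (fun j : Fin m => t ≤ (j : ℕ))).card = m - t := by
  rw [← Finset.card_map Fin.valEmbedding, ← Nat.card_Ico]
  congr 1
  ext k
  simp only [Finset.mem_map, Finset.mem_filter, Finset.mem_univ, true_and, Fin.valEmbedding_apply,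
    Finset.mem_Ico]
  constructor
  · rintro ⟨j, hj, rfl⟩
    exact ⟨hj, j.2⟩
  · rintro ⟨h1, h2⟩
    exact ⟨⟨k, h2⟩, h1, rfl⟩

theorem l2D1 [Finite G] [Finite T] {x : G} {i0 s : ℕ} {l : ℤ}
    (hx : x ∈ co N D.g ((i0 : ℤ) + m * l)) (h1 : 1 ≤ i0) (hs : 1 ≤ s) (h2 : i0 + s ≤ m)
    (ψ : MulAut T) :
    Nat.card T ^ (m - (i0 + s)) *
      {z | z ∈ co N D.g 1 ∧ ∀ k : ℤ, D.xh x ((i0 : ℤ) + m * l) z k =
        ψ (D.xh x ((i0 : ℤ) + m * l) z (k - s))}.ncard ≤ Nat.card T ^ m := by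
  have hm : 0 < m := by omega
  have key := D.seq_z hm {z | z ∈ co N D.g 1 ∧ ∀ k : ℤ, D.xh x ((i0 : ℤ) + m * l) z k =
        ψ (D.xh x ((i0 : ℤ) + m * l) z (k - s))} (fun z hz => hz.1)
    ((Finset.univ : Finset (Fin m)).filter (fun j : Fin m => i0 + s ≤ (j : ℕ))) (fun j : Fin m => (j : ℕ))
    (fun _ => Nat.card T) (fun _ => 1) ?_
  · rw [Finset.prod_const, Finset.prod_const, card_filter_le_l2D1, one_pow, one_mul] at key
    exact key
  · intro j hj z0 _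
    rw [Finset.mem_filter] at hj
    have hj2 : i0 + s ≤ (j : ℕ) := hj.2
    have hle : {v | ∃ z ∈ {z | z ∈ co N D.g 1 ∧ ∀ k : ℤ, D.xh x ((i0 : ℤ) + m * l) z k =
        ψ (D.xh x ((i0 : ℤ) + m * l) z (k - s))},
        (∀ k : Fin m, (k : ℕ) < (j : ℕ) → D.crd z k = D.crd z0 k) ∧ D.crd z j = v}.ncard ≤ 1 := by
      rw [Set.ncard_le_one (Set.toFinite _)]
      rintro v ⟨z, ⟨hz, hzk⟩, hz1, rfl⟩ v' ⟨z', ⟨hz', hzk'⟩, hz1', rfl⟩
      obtain ⟨ha, hb⟩ := D.agree hz hz' j (by omega)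
        (fun k hk => (hz1 k hk).trans (hz1' k hk).symm)
      have e1 : D.xh x ((i0 : ℤ) + m * l) z (((j : ℕ) : ℤ) - s) =
          D.xh x ((i0 : ℤ) + m * l) z' (((j : ℕ) : ℤ) - s) := by
        rw [D.xh_eq_l2D1 hx hz, D.xh_eq_l2D1 hx hz', hb, ha (((j : ℕ) : ℤ) - s) (by omega) (by omega),
          ha (((j : ℕ) : ℤ) - s - i0) (by omega) (by omega)]
      have e2 : D.xh x ((i0 : ℤ) + m * l) z ((j : ℕ) : ℤ) =
          D.xh x ((i0 : ℤ) + m * l) z' ((j : ℕ) : ℤ) := by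
        rw [hzk, hzk', e1]
      rw [D.xh_eq_l2D1 hx hz, D.xh_eq_l2D1 hx hz', hb,
        ha (((j : ℕ) : ℤ) - i0) (by omega) (by omega)] at e2
      have e3 := mul_right_cancel (mul_right_cancel e2)
      rw [inv_inj] at e3
      rw [D.crd_pos z (by omega), D.crd_pos z' (by omega), e3]
    calc Nat.card T * _ ≤ Nat.card T * 1 := Nat.mul_le_mul_left _ hle
      _ = 1 * Nat.card T := by ring

end Dat

end HG17
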