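import Mathlib

/-!
# HG17/Inv: t * chi t = v has at most 3/4 |T| solutions (PROVE ME, 40-70 lines)

Proof. If there is no solution the claim is clear. Let t0 be a solution, chi' = conj (chi t0) * chi
(MulAut). If t = t0 * s is a solution then t0 * s * chi t0 * chi s = t0 * chi t0, so
s * (chi' s) = 1: chi t0 * chi s * (chi t0)^-1 = s^-1. So the solution set injects into
I = {s | chi' s = s^-1} by t |-> t0^-1 * t, and it suffices to show 4 * card I <= 3 * card T.
Suppose 4 card I > 3 card T. Let s in I. The sets I and {u | s * u in I} both have card I elements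
(the second is a translate), so their intersection has more than card T / 2 elements
(inclusion-exclusion); for u in it: chi' (s * u) = (s * u)^-1 = u^-1 * s^-1 and = s^-1 * u^-1, so
s and u commute. So the centralizer of {s} has more than card T / 2 elements, hence is top
(Subgroup index: card_mul_index, index_eq_one), i.e. s is in the center. So I is contained in the center
(a subgroup), which then has more than 3/4 card T elements, hence is top; contradiction to hT.
Do not change the statement.
-/

namespace HG17

theorem top_of_two_card {T : Type*} [Group T] [Finite T] (H : Subgroup T)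
    (h : Nat.card T < 2 * Nat.card H) : H = ⊤ := by
  have h1 := H.card_mul_index
  have h2 : H.index < 2 := by
    by_contra h3
    rw [not_lt] at h3
    have : Nat.card H * 2 ≤ Nat.card H * H.index := Nat.mul_le_mul_left _ h3
    omega
  have h3 : H.index ≠ 0 := Subgroup.index_ne_zero_of_finite
  exact Subgroup.index_eq_one.1 (by omega)

theorem inv_card {T : Type*} [Group T] [Finite T] (hT : ∃ a b : T, a * b ≠ b * a)
    (χ : MulAut T) (v : T) : 4 * {t : T | t * χ t = v}.ncard ≤ 3 * Nat.card T := by
  classical
  rcases Set.eq_empty_or_nonempty {t : T | t * χ t = v} with he | ⟨t0, ht0⟩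
  · rw [he]
    simp
  have ht0' : t0 * χ t0 = v := ht0
  set χ' : MulAut T := MulAut.conj (χ t0) * χ with hχ'
  have hχa : ∀ s, χ' s = χ t0 * χ s * (χ t0)⁻¹ := fun s => by
    rw [hχ', MulAut.mul_apply, MulAut.conj_apply]
  set I : Set T := {s | χ' s = s⁻¹} with hI
  have hfin : I.Finite := Set.toFinite _
  have hA : {t : T | t * χ t = v}.ncard ≤ I.ncard := by
    refine Set.ncard_le_ncard_of_injOn (fun t => t0⁻¹ * t) ?_ ?_ hfin
    · intro t ht
      have ht' : t * χ t = v := ht
      change χ' (t0⁻¹ * t) = (t0⁻¹ * t)⁻¹
      have e : χ t = t⁻¹ * (t0 * χ t0) := by rw [ht0', ← ht', inv_mul_cancel_left]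
      rw [hχa, map_mul, map_inv, e]
      group
    · intro a _ b _ hab
      exact mul_left_cancel hab
  refine le_trans (Nat.mul_le_mul_left 4 hA) ?_
  by_contra hcon
  rw [not_le] at hcon
  have hcent : ∀ s ∈ I, s ∈ Subgroup.center T := by
    intro s hs
    have hs' : χ' s = s⁻¹ := hs
    set J : Set T := {u | s * u ∈ I} with hJ
    have hJc : J.ncard = I.ncard := by
      have : I = (fun u => s * u) '' J := by
        ext x
        constructor
        · intro hx
          exact ⟨s⁻¹ * x, by change s * (s⁻¹ * x) ∈ I; rwa [mul_inv_cancel_left],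
            mul_inv_cancel_left s x⟩
        · rintro ⟨u, hu, rfl⟩
          exact hu
      rw [this, Set.ncard_image_of_injective _ (mul_right_injective s)]
    have h1 := Set.ncard_union_add_ncard_inter I J
    have h2 : (I ∪ J).ncard ≤ Nat.card T := by
      rw [← Set.ncard_univ]
      exact Set.ncard_le_ncard (Set.subset_univ _)
    have h3 : (I ∩ J).ncard ≤ Nat.card (Subgroup.centralizer ({s} : Set T)) := by
      have h4 : I ∩ J ⊆ (Subgroup.centralizer ({s} : Set T) : Set T) := by
        rintro u ⟨hu, hu2⟩
        have hu' : χ' u = u⁻¹ := hu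
        have hu2' : χ' (s * u) = (s * u)⁻¹ := hu2
        rw [map_mul, hs', hu', mul_inv_rev] at hu2'
        rw [SetLike.mem_coe, Subgroup.mem_centralizer_iff]
        intro x hx
        rw [Set.mem_singleton_iff.1 hx]
        have h5 := congrArg (fun y => y⁻¹) hu2'
        simp only [mul_inv_rev, inv_inv] at h5
        exact h5.symm
      exact Set.ncard_le_ncard h4
    have h5 : Subgroup.centralizer ({s} : Set T) = ⊤ := top_of_two_card _ (by omega)
    rw [Subgroup.mem_center_iff]
    intro g
    have h6 : g ∈ Subgroup.centralizer ({s} : Set T) := by rw [h5]; exact Subgroup.mem_top g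
    exact (Subgroup.mem_centralizer_iff.1 h6 s rfl).symm
  have h1 : I.ncard ≤ Nat.card (Subgroup.center T) :=
    Set.ncard_le_ncard (t := (Subgroup.center T : Set T)) hcent
  have h2 : Subgroup.center T = ⊤ := top_of_two_card _ (by omega)
  obtain ⟨a, b, hab⟩ := hT
  have h3 : b ∈ Subgroup.center T := by rw [h2]; exact Subgroup.mem_top b
  exact hab (Subgroup.mem_center_iff.1 h3 a)

end HG17
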