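import Pool.Agent.HG17.Coord
import Pool.Agent.HG17.Inv

/-!
# HG17/L2D2: a twisted period, x moving the factors, second case
-/

namespace HG17

namespace Dat

variable {G : Type*} [Group G] {T : Type*} [Group T] {N : Subgroup G} [N.Normal] {m : ℕ}
variable (D : Dat T N m)

theorem xh_eq_l2D2 {x z : G} {i0 l : ℤ} (hx : x ∈ co N D.g (i0 + m * l))
    (hz : z ∈ co N D.g 1) (k : ℤ) :
    D.xh x (i0 + m * l) z k = (D.eta z k)⁻¹ * D.P k ⟨x * D.g ^ (-(i0 + m * l)), hx⟩ *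
      ((D.a ^ l) (D.eta z (k - i0)) * D.eta z (m * (-l))) := by
  rw [D.xh_eq hx hz k]
  congr 1
  have e : k - (i0 + m * l) = (k - i0) - m * l := by ring
  have e2 : (m : ℤ) * (-l) = -(m * l) := by ring
  rw [e, D.eta_sub_mul hz, e2]

theorem xh_eq_l2D2' {x z : G} {i0 l : ℤ} (hx : x ∈ co N D.g (i0 + m * l))
    (hz : z ∈ co N D.g 1) (h2 : 2 * i0 = m) (k : ℤ) :
    D.xh x (i0 + m * l) z (k - i0) =
      (D.eta z (k - i0))⁻¹ * D.P (k - i0) ⟨x * D.g ^ (-(i0 + m * l)), hx⟩ *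
      ((D.a ^ (l + 1)) (D.eta z k) * D.eta z (m * (-(l + 1)))) := by
  rw [D.xh_eq hx hz (k - i0)]
  congr 1
  have e : k - i0 - (i0 + m * l) = k - m * (l + 1) := by rw [← h2]; ring
  have e2 : (m : ℤ) * (-(l + 1)) = -(m * (l + 1)) := by ring
  rw [e, D.eta_sub_mul hz, e2]

theorem card_filter_le_l2D2 (m t : ℕ) :
    ((Finset.univ : Finset (Fin m)).filter (fun j : Fin m => t ≤ (j : ℕ))).card = m - t := by
  rw [← Finset.card_map Fin.valEmbedding, ← Nat.card_Ico]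
  congr 1
  ext k
  simp only [Finset.mem_map, Finset.mem_filter, Finset.mem_univ, true_and, Fin.valEmbedding_apply,
    Finset.mem_Ico]
  constructor
  · rintro ⟨j, hj, rfl⟩
    exact ⟨hj, j.2⟩
  · rintro ⟨h1, h2⟩
    exact ⟨⟨k, h2⟩, h1, rfl⟩

theorem l2D2 [Finite G] [Finite T] (hT : ∃ a b : T, a * b ≠ b * a) {x : G} {i0 : ℕ} {l : ℤ}
    (hx : x ∈ co N D.g ((i0 : ℤ) + m * l)) (h1 : 1 ≤ i0) (h2 : 2 * i0 = m) (ψ : MulAut T) :
    4 ^ i0 *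
      {z | z ∈ co N D.g 1 ∧ ∀ k : ℤ, D.xh x ((i0 : ℤ) + m * l) z k =
        ψ (D.xh x ((i0 : ℤ) + m * l) z (k - i0))}.ncard ≤ 3 ^ i0 * Nat.card T ^ m := by
  have hm : 0 < m := by omega
  have h2' : 2 * (i0 : ℤ) = m := by exact_mod_cast h2
  have key := D.seq_z hm {z | z ∈ co N D.g 1 ∧ ∀ k : ℤ, D.xh x ((i0 : ℤ) + m * l) z k =
        ψ (D.xh x ((i0 : ℤ) + m * l) z (k - i0))} (fun z hz => hz.1)
    ((Finset.univ : Finset (Fin m)).filter (fun j : Fin m => i0 ≤ (j : ℕ)))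
    (fun j : Fin m => (j : ℕ))
    (fun _ => 4) (fun _ => 3) ?_
  · have e : m - i0 = i0 := by omega
    rw [Finset.prod_const, Finset.prod_const, card_filter_le_l2D2, e] at key
    exact key
  · intro j hj z0 hz0
    rw [Finset.mem_filter] at hj
    have hj2 : i0 ≤ (j : ℕ) := hj.2
    obtain ⟨hz0c, _⟩ := hz0
    set μ : N := ⟨x * D.g ^ (-((i0 : ℤ) + m * l)), hx⟩ with hμ
    set v0 := D.eta z0 (((j : ℕ) : ℤ) - i0) with hv0
    set A1 := D.P ((j : ℕ) : ℤ) μ * ((D.a ^ l) v0 * D.eta z0 (m * (-l))) with hA1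
    set B := ψ (v0⁻¹ * D.P (((j : ℕ) : ℤ) - i0) μ) with hB
    set C := ψ (D.eta z0 (m * (-(l + 1)))) with hC
    have hinv := inv_card hT (MulAut.conj B * (ψ * D.a ^ (l + 1))) (A1 * C⁻¹ * B⁻¹)
    refine le_trans (Nat.mul_le_mul_left _ (Set.ncard_le_ncard ?_ (Set.toFinite _))) hinv
    rintro v ⟨z, ⟨hz, hzk⟩, hz1, rfl⟩
    obtain ⟨ha, hb⟩ := D.agree hz hz0c j (by omega) hz1
    have e1 := hzk ((j : ℕ) : ℤ)
    rw [D.xh_eq_l2D2 hx hz, D.xh_eq_l2D2' hx hz h2', hb, hb, ha (((j : ℕ) : ℤ) - i0) (by omega)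
      (by omega)] at e1
    rw [D.crd_pos z (by omega)]
    change D.eta z ((j : ℕ) : ℤ) * (MulAut.conj B * (ψ * D.a ^ (l + 1))) (D.eta z ((j : ℕ) : ℤ)) =
      A1 * C⁻¹ * B⁻¹
    set u := D.eta z ((j : ℕ) : ℤ) with hu
    have e2 : u⁻¹ * A1 = B * (ψ ((D.a ^ (l + 1)) u) * C) := by
      rw [hA1, hB, hC, ← map_mul, ← map_mul, ← mul_assoc]
      exact e1
    rw [MulAut.mul_apply, MulAut.mul_apply, MulAut.conj_apply]
    have e3 : A1 = u * (B * (ψ ((D.a ^ (l + 1)) u) * C)) := by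
      rw [← e2]; group
    rw [e3]
    group

end Dat

end HG17
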