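import Pool.Agent.HG17.L2P
import Pool.Agent.HG17.L2D1
import Pool.Agent.HG17.L2D2
import Pool.Agent.HG17.Crit

/-!
# HG17/DdMov: elements moving the factors by m/q have many partners
-/

namespace HG17

theorem four_pow_le {t h e : ℕ} (ht : 4 ≤ t) (he : h ≤ 3 * e) : 4 ^ h ≤ 3 ^ h * t ^ e := by
  obtain ⟨r, hr⟩ := Nat.exists_eq_add_of_le he
  have h1 : (27 : ℕ) ^ e = 3 ^ h * 3 ^ r := by
    rw [← pow_add, ← hr, pow_mul]; norm_num
  have h2 : (64 : ℕ) ^ e = 4 ^ h * 4 ^ r := by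
    rw [← pow_add, ← hr, pow_mul]; norm_num
  have h3 : (64 : ℕ) ^ e ≤ 27 ^ e * t ^ e := by
    rw [← mul_pow]
    exact Nat.pow_le_pow_left (by omega) e
  have h4 : (3 : ℕ) ^ r ≤ 4 ^ r := Nat.pow_le_pow_left (by norm_num) r
  have h5 : 27 ^ e * 4 ^ h ≤ 27 ^ e * (3 ^ h * t ^ e) := by
    calc 27 ^ e * 4 ^ h = 3 ^ h * 4 ^ h * 3 ^ r := by rw [h1]; ring
      _ ≤ 3 ^ h * 4 ^ h * 4 ^ r := Nat.mul_le_mul_left _ h4
      _ = 3 ^ h * 64 ^ e := by rw [h2]; ring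
      _ ≤ 3 ^ h * (27 ^ e * t ^ e) := Nat.mul_le_mul_left _ h3
      _ = 27 ^ e * (3 ^ h * t ^ e) := by ring
  exact Nat.le_of_mul_le_mul_left h5 (by positivity)

namespace Dat

variable {G : Type*} [Group G] {T : Type*} [Group T] {N : Subgroup G} [N.Normal] {m : ℕ}
variable (D : Dat T N m)

theorem dd_mov_P [Finite G] [Finite T] {x : G} {q : ℕ} (hq : q.Prime) (hqm : q ∣ m)
    (hm : 2 ≤ m) {l : ℤ} (hx : x ∈ co N D.g (((m / q : ℕ) : ℤ) + m * l)) (K0 : Subgroup T)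
    (hK : K0 ≠ ⊤) :
    4 ^ (m / 2) *
      {z | z ∈ co N D.g 1 ∧ ∀ k : ℤ, D.xh x (((m / q : ℕ) : ℤ) + m * l) z k ∈ K0}.ncard ≤
        3 ^ (m / 2) * Nat.card T ^ m := by
  obtain ⟨c, rfl⟩ := hqm
  have hq0 : 0 < q := hq.pos
  have hq2 : 2 ≤ q := hq.two_le
  have hc : q * c / q = c := Nat.mul_div_cancel_left c hq0
  rw [hc] at hx ⊢
  have hc0 : 0 < c := by
    rcases Nat.eq_zero_or_pos c with h | h
    · rw [h, mul_zero] at hm; omega
    · exact h
  have h2c : 2 * c ≤ q * c := Nat.mul_le_mul_right c hq2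
  have key := D.l2P hx hc0 (by omega) K0 hK
  have h1 : q * c / 2 ≤ q * c - c := by omega
  have h4 : (4 : ℕ) ^ (q * c / 2) = 2 ^ (q * c / 2) * 2 ^ (q * c / 2) := by
    rw [← mul_pow]; norm_num
  rw [h4, mul_assoc]
  refine Nat.mul_le_mul (Nat.pow_le_pow_left (by norm_num) _) ?_
  refine le_trans (Nat.mul_le_mul_right _ (Nat.pow_le_pow_right (by norm_num) h1)) key

theorem dd_mov_D [Finite G] [Finite T] (hT : ∃ a b : T, a * b ≠ b * a)
    (h4 : 4 ≤ Nat.card T) (hm : 2 ≤ m)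
    {x : G} {q : ℕ} (hq : q.Prime) (hqm : q ∣ m) {l : ℤ}
    (hx : x ∈ co N D.g (((m / q : ℕ) : ℤ) + m * l)) {p : ℕ} (hp : p.Prime) (hpm : p ∣ m)
    (ψ : MulAut T) :
    4 ^ (m / 2) *
      {z | z ∈ co N D.g 1 ∧ ∀ k : ℤ, D.xh x (((m / q : ℕ) : ℤ) + m * l) z k =
        ψ (D.xh x (((m / q : ℕ) : ℤ) + m * l) z (k - ((m / p : ℕ) : ℤ)))}.ncard ≤
        3 ^ (m / 2) * Nat.card T ^ m := by
  have hqc : q * (m / q) = m := Nat.mul_div_cancel' hqm
  have hpc : p * (m / p) = m := Nat.mul_div_cancel' hpm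
  have hq2 : 2 ≤ q := hq.two_le
  have hp2 : 2 ≤ p := hp.two_le
  have hq1 : 1 ≤ m / q := by
    rcases Nat.eq_zero_or_pos (m / q) with h | h
    · rw [h, mul_zero] at hqc; omega
    · exact h
  have hp1 : 1 ≤ m / p := by
    rcases Nat.eq_zero_or_pos (m / p) with h | h
    · rw [h, mul_zero] at hpc; omega
    · exact h
  by_cases hpq : p = 2 ∧ q = 2
  · obtain ⟨rfl, rfl⟩ := hpq
    exact D.l2D2 hT hx hq1 hqc ψ
  · have h2q : 2 * (m / q) ≤ m := by
      calc 2 * (m / q) ≤ q * (m / q) := Nat.mul_le_mul_right _ hq2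
        _ = m := hqc
    have h2p : 2 * (m / p) ≤ m := by
      calc 2 * (m / p) ≤ p * (m / p) := Nat.mul_le_mul_right _ hp2
        _ = m := hpc
    have h3 : 3 * (m / q) ≤ m ∨ 3 * (m / p) ≤ m := by
      by_cases h : 3 ≤ q
      · left
        calc 3 * (m / q) ≤ q * (m / q) := Nat.mul_le_mul_right _ h
          _ = m := hqc
      · right
        have hq' : q = 2 := by omega
        have hp' : 3 ≤ p := by
          rcases Nat.lt_or_ge p 3 with h' | h'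
          · exact absurd ⟨by omega, hq'⟩ hpq
          · exact h'
        calc 3 * (m / p) ≤ p * (m / p) := Nat.mul_le_mul_right _ hp'
          _ = m := hpc
    have key := D.l2D1 hx hq1 hp1 (by omega) ψ
    have hn := four_pow_le (t := Nat.card T) (h := m / 2) (e := m - (m / q + m / p)) h4 (by omega)
    calc _ ≤ 3 ^ (m / 2) * Nat.card T ^ (m - (m / q + m / p)) * _ :=
          Nat.mul_le_mul_right _ hn
      _ ≤ 3 ^ (m / 2) * Nat.card T ^ m := by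
          rw [mul_assoc]
          exact Nat.mul_le_mul_left _ key

theorem dd_mov [Finite G] [Finite T] [IsSimpleGroup T] (hT : ∃ a b : T, a * b ≠ b * a)
    (h4 : 4 ≤ Nat.card T) (hm : 2 ≤ m)
    (hnum : 2 * (Nat.card (Subgroup T) + m * Nat.card (MulAut T)) * 3 ^ (m / 2) ≤ 4 ^ (m / 2))
    {x : G} {q : ℕ} (hq : q.Prime) (hqm : q ∣ m) {l : ℤ}
    (hx : x ∈ co N D.g (((m / q : ℕ) : ℤ) + m * l)) :
    Nat.card N ≤ 2 * dd N D.g x := by
  classical
  have : Finite (MulAut T) :=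
    Finite.of_injective (fun f : MulAut T => (f : T → T)) DFunLike.coe_injective
  have := Fintype.ofFinite (MulAut T)
  have := Fintype.ofFinite (Subgroup T)
  let F : Subgroup T ⊕ (Fin m × MulAut T) → Set G := fun i =>
    match i with
    | Sum.inl K => if K ≠ ⊤ then
        {z | z ∈ co N D.g 1 ∧ ∀ k : ℤ, D.xh x (((m / q : ℕ) : ℤ) + m * l) z k ∈ K} else ∅
    | Sum.inr (s, ψ) => if ((s : ℕ) + 1).Prime ∧ ((s : ℕ) + 1) ∣ m then
        {z | z ∈ co N D.g 1 ∧ ∀ k : ℤ, D.xh x (((m / q : ℕ) : ℤ) + m * l) z k =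
          ψ (D.xh x (((m / q : ℕ) : ℤ) + m * l) z (k - ((m / ((s : ℕ) + 1) : ℕ) : ℤ)))} else ∅
  have hF : ∀ i, 4 ^ (m / 2) * (F i).ncard ≤ 3 ^ (m / 2) * Nat.card T ^ m := by
    rintro (K | ⟨s, ψ⟩)
    · by_cases hK : K ≠ ⊤
      · have e : F (Sum.inl K) =
            {z | z ∈ co N D.g 1 ∧ ∀ k : ℤ, D.xh x (((m / q : ℕ) : ℤ) + m * l) z k ∈ K} :=
          if_pos hK
        rw [e]
        exact D.dd_mov_P hq hqm hm hx K hK
      · have e : F (Sum.inl K) = ∅ := if_neg hK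
        rw [e, Set.ncard_empty, mul_zero]
        exact Nat.zero_le _
    · by_cases hs : ((s : ℕ) + 1).Prime ∧ ((s : ℕ) + 1) ∣ m
      · have e : F (Sum.inr (s, ψ)) =
            {z | z ∈ co N D.g 1 ∧ ∀ k : ℤ, D.xh x (((m / q : ℕ) : ℤ) + m * l) z k =
              ψ (D.xh x (((m / q : ℕ) : ℤ) + m * l) z
                (k - ((m / ((s : ℕ) + 1) : ℕ) : ℤ)))} := if_pos hs
        rw [e]
        exact D.dd_mov_D hT h4 hm hq hqm hx hs.1 hs.2 ψ
      · have e : F (Sum.inr (s, ψ)) = ∅ := if_neg hs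
        rw [e, Set.ncard_empty, mul_zero]
        exact Nat.zero_le _
  have hsub : {z | z ∈ co N D.g 1 ∧ ¬ Gen x z} ⊆ ⋃ i, F i := by
    rintro z ⟨hz, hng⟩
    rcases D.crit_xh hT hm hx hz hng with ⟨K0, hK0, _, hP⟩ | ⟨p, hp, hpm, ψ, _, hP⟩
    · refine Set.mem_iUnion.2 ⟨Sum.inl K0, ?_⟩
      have e : F (Sum.inl K0) =
          {z | z ∈ co N D.g 1 ∧ ∀ k : ℤ, D.xh x (((m / q : ℕ) : ℤ) + m * l) z k ∈ K0} :=
        if_pos hK0
      rw [e]
      exact ⟨hz, hP⟩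
    · have hp0 : 0 < p := hp.pos
      have hpm' : p ≤ m := Nat.le_of_dvd (by omega) hpm
      have hlt : p - 1 < m := by omega
      have hp1 : p - 1 + 1 = p := by omega
      refine Set.mem_iUnion.2 ⟨Sum.inr (⟨p - 1, hlt⟩, ψ), ?_⟩
      have hs : ((((⟨p - 1, hlt⟩ : Fin m) : ℕ) + 1).Prime ∧
          (((⟨p - 1, hlt⟩ : Fin m) : ℕ) + 1) ∣ m) := by
        show (p - 1 + 1).Prime ∧ (p - 1 + 1) ∣ m
        rw [hp1]
        exact ⟨hp, hpm⟩
      have e : F (Sum.inr (⟨p - 1, hlt⟩, ψ)) =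
            {z | z ∈ co N D.g 1 ∧ ∀ k : ℤ, D.xh x (((m / q : ℕ) : ℤ) + m * l) z k =
              ψ (D.xh x (((m / q : ℕ) : ℤ) + m * l) z
                (k - ((m / (p - 1 + 1) : ℕ) : ℤ)))} := if_pos hs
      rw [e, hp1]
      exact ⟨hz, hP⟩
  set B := {z | z ∈ co N D.g 1 ∧ ¬ Gen x z} with hB
  have h1 : B.ncard ≤ ∑ i, (F i).ncard := by
    refine (Set.ncard_le_ncard hsub (Set.toFinite _)).trans ?_
    exact Set.ncard_iUnion_le_of_fintype F
  have h2 : 4 ^ (m / 2) * B.ncard ≤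
      (Nat.card (Subgroup T) + m * Nat.card (MulAut T)) * (3 ^ (m / 2) * Nat.card T ^ m) :=
    calc 4 ^ (m / 2) * B.ncard ≤ 4 ^ (m / 2) * ∑ i, (F i).ncard :=
        Nat.mul_le_mul_left _ h1
    _ = ∑ i, 4 ^ (m / 2) * (F i).ncard := Finset.mul_sum _ _ _
    _ ≤ ∑ _i : Subgroup T ⊕ (Fin m × MulAut T), 3 ^ (m / 2) * Nat.card T ^ m :=
        Finset.sum_le_sum fun i _ => hF i
    _ = (Nat.card (Subgroup T) + m * Nat.card (MulAut T)) * (3 ^ (m / 2) * Nat.card T ^ m) := by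
        rw [Finset.sum_const, Finset.card_univ, Fintype.card_sum, Fintype.card_prod,
          Fintype.card_fin, Nat.card_eq_fintype_card (α := Subgroup T),
          Nat.card_eq_fintype_card (α := MulAut T), smul_eq_mul]
  have h3 : 4 ^ (m / 2) * (2 * B.ncard) ≤ 4 ^ (m / 2) * Nat.card T ^ m :=
    calc 4 ^ (m / 2) * (2 * B.ncard) = 2 * (4 ^ (m / 2) * B.ncard) := by ring
    _ ≤ 2 * ((Nat.card (Subgroup T) + m * Nat.card (MulAut T)) *
        (3 ^ (m / 2) * Nat.card T ^ m)) := Nat.mul_le_mul_left _ h2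
    _ = 2 * (Nat.card (Subgroup T) + m * Nat.card (MulAut T)) * 3 ^ (m / 2) *
        Nat.card T ^ m := by ring
    _ ≤ 4 ^ (m / 2) * Nat.card T ^ m := Nat.mul_le_mul_right _ hnum
  have h5 : 2 * B.ncard ≤ Nat.card T ^ m := Nat.le_of_mul_le_mul_left h3 (by positivity)
  have h6 : (co N D.g 1).ncard = dd N D.g x + B.ncard := by
    have hunion : co N D.g 1 = {z | z ∈ co N D.g 1 ∧ Gen x z} ∪ B := by
      ext z
      constructor
      · intro hz
        by_cases hg : Gen x z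
        · exact Or.inl ⟨hz, hg⟩
        · exact Or.inr ⟨hz, hg⟩
      · rintro (h | h)
        · exact h.1
        · exact h.1
    have hdisj : Disjoint {z | z ∈ co N D.g 1 ∧ Gen x z} B :=
      Set.disjoint_left.2 fun z h h' => h'.2 h.2
    conv_lhs => rw [hunion]
    rw [Set.ncard_union_eq hdisj (Set.toFinite _) (Set.toFinite _)]
    rfl
  rw [card_co] at h6
  have h7 := D.card_N
  omega

end Dat

end HG17
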