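import Pool.Agent.HG17.Xi

/-!
# HG17/L1d: no twisted period when x and z generate (PROVE ME, 80-120 lines)

Proof. Put c = az z, F = D.frame z hz (F.g = z, F.a = c), P k = F.P k. For r, r' in N let
rho r r' mean: P k r' = psi (P (k - s) r) for all k : Z.
(1) For every r there is exactly one r' with rho r r': P_surj for F gives r' with this for 0 <= k < m; it
then holds for all k, since P_per_mul gives P (k - m j) r' = c^j (P k r') and
psi (P (k - m j - s) r) = psi (c^j (P (k - s) r)) = c^j (psi (P (k - s) r)) (psi commutes with c^j).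
Unique by P_ext. Similarly for every r' there is r with rho r r' (P k r = psi^-1 (P (k + s) r')).
(2) rho is multiplicative: rho r r', rho u u' give rho (r u) (r' u'), and inverses.
(3) rho r r' implies rho (conjNormal z r) (conjNormal z r') : P_conj with j = 1. rho r r' implies
rho (conjNormal x r) (conjNormal x r'): by xiz_act, P k (x r') = xiz k (P k r') = xiz k (psi (P (k-s) r)) and
psi (P (k-s) (x r)) = psi (xiz (k-s) (P (k-s) r)); equal since h says xiz k * psi = psi * xiz (k-s).
(4) The set of g' in G with (rho r r' iff rho (conjNormal g' r) (conjNormal g' r')) for all r, r' is a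
subgroup; it contains x and z (for iff use (3) and uniqueness and surjectivity, or: the set of g' satisfying
the implication for all r, r' is closed under products, and G is finite; if it is easier add the inverse
statements: P_conj with j = -1, and xiz_act for r := conjNormal x^-1 r). So it is everything (hgen).
(5) Let n in N with rho n n'. For rho r r': rho (n r n^-1) (n r' n^-1) by (4), and
rho (n r n^-1) (n' r' n'^-1) by (2); uniqueness: n r' n^-1 = n' r' n'^-1 for all r' in N (every r' occurs). So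
n^-1 n' commutes with N, and n' = n by D.faith. So P k n = psi (P (k - s) n) for all n in N and k. For k = 0
P_indep for F (m does not divide 0 - (0 - s) = s) gives n with P 0 n = 1 and P (0 - s) n = t <> 1, and
psi t = 1: contradiction. Do not change the statement.
-/

namespace HG17

namespace Dat

variable {G : Type*} [Group G] {T : Type*} [Group T] {N : Subgroup G} [N.Normal] {m : ℕ}
variable (D : Dat T N m)

private theorem P_fill_L1d (F : Dat T N m) (hm : 0 < m) (f : ℤ → T)
    (hf : ∀ k l, f (k - m * l) = (F.a ^ l) (f k)) : ∃ r : N, ∀ k, F.P k r = f k := by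
  obtain ⟨r, hr⟩ := F.P_surj f
  refine ⟨r, fun k => ?_⟩
  have hm' : (0 : ℤ) < m := by exact_mod_cast hm
  rw [F.P_mod, hr _ (Int.emod_nonneg _ hm'.ne') (Int.emod_lt_of_pos _ hm'), ← hf]
  congr 1
  have := Int.emod_add_mul_ediv k m
  linarith

theorem no_rel [Finite G] [Nontrivial T] (hm : 0 < m) {x z : G} {l : ℤ}
    (hx : x ∈ co N D.g (m * l)) (hz : z ∈ co N D.g 1) (hgen : Gen x z) {s : ℤ}
    (hs : ¬ (m : ℤ) ∣ s) (ψ : MulAut T) (hc : Commute ψ (D.az z))
    (h : ∀ k : ℤ, D.xiz x l z k = ψ * D.xiz x l z (k - s) * ψ⁻¹) : False := by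
  obtain ⟨F, hF⟩ : ∃ F, F = D.frame z hz := ⟨_, rfl⟩
  have hFg : F.g = z := by rw [hF]; rfl
  have hFa : F.a = D.az z := by rw [hF]; rfl
  have hcp : ∀ (j : ℤ) (t : T), ψ ((F.a ^ j) t) = (F.a ^ j) (ψ t) := by
    intro j t
    have h1 := (hc.zpow_right j).eq
    rw [hFa, ← MulAut.mul_apply, h1, MulAut.mul_apply]
  -- the relation
  obtain ⟨rho, hrho⟩ : ∃ rho : N → N → Prop, ∀ r r', rho r r' ↔
      ∀ k : ℤ, F.P k r' = ψ (F.P (k - s) r) := ⟨_, fun _ _ => Iff.rfl⟩
  have hex : ∀ r, ∃ r', rho r r' := by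
    intro r
    obtain ⟨r', hr'⟩ := P_fill_L1d F hm (fun k => ψ (F.P (k - s) r)) (by
      intro k l
      have e : k - m * l - s = k - s - m * l := by ring
      rw [e, F.P_per_mul, hcp])
    exact ⟨r', (hrho r r').2 hr'⟩
  have hex' : ∀ r', ∃ r, rho r r' := by
    intro r'
    obtain ⟨r, hr⟩ := P_fill_L1d F hm (fun k => ψ⁻¹ (F.P (k + s) r')) (by
      intro k l
      have e : k - m * l + s = k + s - m * l := by ring
      rw [e, F.P_per_mul]
      apply ψ.injective
      rw [hcp, MulAut.apply_inv_self, MulAut.apply_inv_self])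
    refine ⟨r, (hrho r r').2 fun k => ?_⟩
    rw [hr (k - s), sub_add_cancel, MulAut.apply_inv_self]
  have huniq : ∀ r r' r'', rho r r' → rho r r'' → r' = r'' := by
    intro r r' r'' h1 h2
    apply F.P_ext
    intro k _ _
    rw [(hrho _ _).1 h1 k, (hrho _ _).1 h2 k]
  have hmul : ∀ r r' u u', rho r r' → rho u u' → rho (r * u) (r' * u') := by
    intro r r' u u' h1 h2
    rw [hrho]
    intro k
    rw [map_mul, map_mul, map_mul, (hrho _ _).1 h1 k, (hrho _ _).1 h2 k]
  have hinv : ∀ r r', rho r r' → rho r⁻¹ r'⁻¹ := by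
    intro r r' h1
    rw [hrho]
    intro k
    rw [map_inv, map_inv, map_inv, (hrho _ _).1 h1 k]
  let H : Subgroup G :=
    { carrier := {g' | ∀ r r', rho r r' ↔ rho (MulAut.conjNormal g' r) (MulAut.conjNormal g' r')}
      mul_mem' := by
        intro a b ha hb r r'
        rw [map_mul, MulAut.mul_apply, MulAut.mul_apply, ← ha, ← hb]
      one_mem' := by
        intro r r'
        rw [map_one]
        exact Iff.rfl
      inv_mem' := by
        intro a ha r r'
        rw [ha (MulAut.conjNormal a⁻¹ r) (MulAut.conjNormal a⁻¹ r'), map_inv,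
          MulAut.apply_inv_self, MulAut.apply_inv_self] }
  have hzH : z ∈ H := by
    intro r r'
    rw [hrho, hrho]
    have e : ∀ (k : ℤ) (u : N), F.P k (MulAut.conjNormal z u) = F.P (k - 1) u := by
      intro k u
      have := F.P_conj 1 k u
      rwa [zpow_one, hFg] at this
    constructor
    · intro h1 k
      rw [e, e, h1 (k - 1)]
      congr 3
      ring
    · intro h1 k
      have h2 := h1 (k + 1)
      rw [e, e, add_sub_cancel_right] at h2
      rw [h2]
      congr 3
      ring
  have hxH : x ∈ H := by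
    intro r r'
    rw [hrho, hrho]
    refine forall_congr' fun k => ?_
    have h1 := D.xiz_act hx hz k r'
    have h2 := D.xiz_act hx hz (k - s) r
    rw [← hF] at h1 h2
    rw [h1, h2]
    have h3 : ψ (D.xiz x l z (k - s) (F.P (k - s) r)) = D.xiz x l z k (ψ (F.P (k - s) r)) := by
      rw [h k, MulAut.mul_apply, MulAut.mul_apply, MulAut.inv_apply_self]
    rw [h3]
    exact ((D.xiz x l z k).injective.eq_iff).symm
  have hH : H = ⊤ := by
    have h' : Subgroup.closure {x, z} = ⊤ := hgen
    rw [eq_top_iff, ← h', Subgroup.closure_le]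
    rintro w (rfl | rfl)
    · exact hxH
    · exact hzH
  have hsame : ∀ n n' : N, rho n n' → n' = n := by
    intro n n' hn
    have hnH : (n : G) ∈ H := by rw [hH]; exact Subgroup.mem_top _
    have hcj : ∀ u : N, MulAut.conjNormal (n : G) u = n * u * n⁻¹ := by
      intro u
      apply Subtype.ext
      rw [MulAut.conjNormal_apply]
      rfl
    have h1 : ∀ r' : N, n * r' * n⁻¹ = n' * r' * n'⁻¹ := by
      intro r'
      obtain ⟨r, hr⟩ := hex' r'
      have h2 := (hnH r r').1 hr
      rw [hcj, hcj] at h2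
      have h3 := hmul _ _ _ _ (hmul _ _ _ _ hn hr) (hinv _ _ hn)
      exact huniq _ _ _ h2 h3
    have h4 : ((n⁻¹ * n' : N) : G) = 1 := by
      apply D.faith
      intro r hr
      have h5 := h1 ⟨r, hr⟩
      have h6 : (n⁻¹ * n') * (⟨r, hr⟩ : N) = ⟨r, hr⟩ * (n⁻¹ * n') := by
        calc (n⁻¹ * n') * (⟨r, hr⟩ : N) = n⁻¹ * (n' * ⟨r, hr⟩ * n'⁻¹) * n' := by group
          _ = n⁻¹ * (n * ⟨r, hr⟩ * n⁻¹) * n' := by rw [h5]
          _ = ⟨r, hr⟩ * (n⁻¹ * n') := by group
      exact congrArg Subtype.val h6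
    have h5 : n⁻¹ * n' = 1 := Subtype.ext h4
    exact (inv_mul_eq_one.1 h5).symm
  obtain ⟨t, ht⟩ := exists_ne (1 : T)
  obtain ⟨n, hn1, hn2⟩ := F.P_indep hm (k := 0) (l := 0 - s) (by
    rw [sub_sub_cancel]
    exact hs) 1 t
  obtain ⟨n', hn'⟩ := hex n
  have h1 := hsame n n' hn'
  subst h1
  have h2 := (hrho _ _).1 hn' 0
  rw [hn1, hn2] at h2
  exact ht ((map_eq_one_iff ψ ψ.injective).1 h2.symm)

end Dat

end HG17
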