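import Pool.Agent.HG17.L1a
import Pool.Agent.HG17.L1c
import Pool.Agent.HG17.L1d
import Pool.Agent.HG17.Coord

/-!
# HG17/DdSmall: x acting on few factors (PROVE ME, 50-80 lines)

Notation: t = card T, M = mov x l (a finite set of Fin m).
Proof. Let W be the finset of k with (k : N) = 0 or k in M; card W <= 1 + M.ncard. Let
E = {z in co 1 | crd z k = crd z0 k for all k in W}. Claim: Gen x z for z in E. Indeed:
eta z m = eta z0 m (coordinate 0; crd_zero), so az z = az z0 (az_congr). For k : Z with 0 <= k < m: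
xiz x l z k = xiz x l z0 k: if k = 0 by xiz_zero (both), if k in M, k > 0: eta z k = eta z0 k (crd_pos) and
xiz_congr; if k is not in M then xiz x l g k = 1 and both are 1 by xiz_eq. Then for all k : Z by xiz_per
(write k = k0 - m j with 0 <= k0 < m; induction on j in both directions). If not Gen x z: hinn for z is
inn_le for z0 (the same closure), so rel_of_not_gen gives a relation for z, which is a relation for z0 with
s = m / q, 0 < m/q < m, contradiction to no_rel for z0.
So E is contained in {z in co 1 | Gen x z}, and fib_z: t^m = t^(card W) * card E <=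
t^(1 + M.ncard) * dd x. Do not change the statement.
-/

namespace HG17

namespace Dat

variable {G : Type*} [Group G] {T : Type*} [Group T] {N : Subgroup G} [N.Normal] {m : ℕ}
variable (D : Dat T N m)

theorem dd_small [Finite G] [Finite T] [IsSimpleGroup T] (hT : ∃ a b : T, a * b ≠ b * a)
    (hm : 2 ≤ m) {x z0 : G} {l : ℤ} (hx : x ∈ co N D.g (m * l)) (hz0 : z0 ∈ co N D.g 1)
    (hgen : Gen x z0) :
    Nat.card T ^ m ≤ dd N D.g x * Nat.card T ^ (1 + (D.mov x l).ncard) := by
  classical
  have hm0 : 0 < m := by omega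
  have hm' : (0 : ℤ) < m := by exact_mod_cast hm0
  have : Nontrivial T := inferInstance
  obtain ⟨W, hW⟩ : ∃ W : Finset (Fin m), W = Finset.univ.filter
    (fun k : Fin m => (k : ℕ) = 0 ∨ k ∈ D.mov x l) := ⟨_, rfl⟩
  have hWm : ∀ k : Fin m, k ∈ W ↔ ((k : ℕ) = 0 ∨ k ∈ D.mov x l) := by
    intro k
    rw [hW, Finset.mem_filter]
    simp
  have hWc : W.card ≤ 1 + (D.mov x l).ncard := by
    have h1 : (W : Set (Fin m)) ⊆ {⟨0, hm0⟩} ∪ D.mov x l := by
      intro k hk
      rcases (hWm k).1 hk with h | h
      · left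
        exact Fin.ext h
      · exact Or.inr h
    have h2 := Set.ncard_le_ncard h1 (Set.toFinite _)
    rw [Set.ncard_coe_finset] at h2
    refine h2.trans ((Set.ncard_union_le _ _).trans ?_)
    rw [Set.ncard_singleton]
  have hE : {z | z ∈ co N D.g 1 ∧ ∀ k ∈ W, D.crd z k = D.crd z0 k} ⊆
      {z | z ∈ co N D.g 1 ∧ Gen x z} := by
    rintro z ⟨hz, hzW⟩
    refine ⟨hz, ?_⟩
    have haz : D.az z = D.az z0 := by
      apply D.az_congr
      have h1 := hzW ⟨0, hm0⟩ ((hWm _).2 (Or.inl rfl))
      rwa [D.crd_zero z rfl, D.crd_zero z0 rfl] at h1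
    have hbase : ∀ k : Fin m, D.xiz x l z ((k : ℕ) : ℤ) = D.xiz x l z0 ((k : ℕ) : ℤ) := by
      intro k
      by_cases h0 : (k : ℕ) = 0
      · rw [h0, Nat.cast_zero, D.xiz_zero hm0 hx hz, D.xiz_zero hm0 hx hz0]
      · by_cases hk : k ∈ D.mov x l
        · have h1 := hzW k ((hWm k).2 (Or.inr hk))
          rw [D.crd_pos z h0, D.crd_pos z0 h0] at h1
          exact D.xiz_congr hm0 hx hz hz0 h1
        · have h1 : D.xiz x l D.g ((k : ℕ) : ℤ) = 1 := by
            by_contra h2
            exact hk h2
          rw [D.xiz_eq hm0 hx hz, D.xiz_eq hm0 hx hz0, h1, mul_one, mul_one, inv_mul_cancel,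
            inv_mul_cancel]
    have hstep : ∀ (j : ℤ) (k : ℤ), D.xiz x l z (k + m * j) = D.xiz x l z0 (k + m * j) ↔
        D.xiz x l z k = D.xiz x l z0 k := by
      have h1 : ∀ k : ℤ, D.xiz x l z (k - m) = D.xiz x l z0 (k - m) ↔
          D.xiz x l z k = D.xiz x l z0 k := by
        intro k
        rw [D.xiz_per hx hz, D.xiz_per hx hz0, haz]
        constructor
        · intro h2
          exact mul_left_cancel (mul_right_cancel h2)
        · intro h2
          rw [h2]
      intro j
      induction j using Int.induction_on with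
      | zero => intro k; rw [mul_zero, add_zero]
      | succ i ih =>
        intro k
        have e : k + (m : ℤ) * i = (k + m * ((i : ℤ) + 1)) - m := by ring
        rw [← ih k, e, h1]
      | pred i ih =>
        intro k
        have e : k + (m : ℤ) * (-(i : ℤ) - 1) = (k + m * (-(i : ℤ))) - m := by ring
        rw [e, h1, ih]
    have hall : ∀ k : ℤ, D.xiz x l z k = D.xiz x l z0 k := by
      intro k
      have h1 := Int.emod_nonneg k hm'.ne'
      have h2 := Int.emod_lt_of_pos k hm'
      have e : k % m + m * (k / m) = k := Int.emod_add_mul_ediv k m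
      rw [← e, hstep]
      have h3 := hbase ⟨(k % m).toNat, by omega⟩
      simp only at h3
      rwa [Int.toNat_of_nonneg h1] at h3
    by_contra hng
    have hinn0 := D.inn_le hm0 hx hz0 hgen
    have hset : (fun k : ℤ => D.xiz x l z k) = (fun k : ℤ => D.xiz x l z0 k) := funext hall
    have hinn : (MulAut.conj : T →* MulAut T).range ≤
        Subgroup.closure ({D.az z} ∪ Set.range (fun k : ℤ => D.xiz x l z k)) := by
      rw [hset, haz]
      exact hinn0
    obtain ⟨q, hq, hqm, ψ, hψ, hrel⟩ := D.rel_of_not_gen hT hm hx hz hinn hng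
    rw [haz] at hψ
    have hs : ¬ (m : ℤ) ∣ ((m / q : ℕ) : ℤ) := by
      intro hd
      have hd' : m ∣ m / q := by exact_mod_cast hd
      have h1 : 0 < m / q := Nat.div_pos (Nat.le_of_dvd hm0 hqm) hq.pos
      have h2 : m / q < m := Nat.div_lt_self hm0 hq.one_lt
      exact absurd (Nat.le_of_dvd h1 hd') (by omega)
    refine D.no_rel hm0 hx hz0 hgen hs ψ hψ fun k => ?_
    rw [← hall k, ← hall (k - _)]
    exact hrel k
  have hcard := Set.ncard_le_ncard hE (Set.toFinite _)
  have hfib := D.fib_z hm0 W hz0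
  have hTpos : 0 < Nat.card T := Nat.card_pos
  calc Nat.card T ^ m = Nat.card T ^ W.card *
        {z | z ∈ co N D.g 1 ∧ ∀ k ∈ W, D.crd z k = D.crd z0 k}.ncard := hfib.symm
    _ ≤ Nat.card T ^ (1 + (D.mov x l).ncard) * dd N D.g x :=
        Nat.mul_le_mul (Nat.pow_le_pow_right hTpos hWc) hcard
    _ = _ := mul_comm _ _

end Dat

end HG17
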