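import Pool.Agent.HG17.Coset
import Pool.Agent.HG17.GDefs

/-!
# HG17/Deg: degrees in the generating graph, coset by coset (PROVE ME, 40-80 lines)

`dd_pow_le`: closure {x^r, z} <= closure {x, z}; the set for x^r is contained in the set for x.
`dg_succ`: y |-> x^-1 * y is a bijection of co (i+1) onto co 1 (mul_mem_co, inv_mem_co) and
closure {x, y} = closure {x, x^-1 * y}. So {y in co (i+1) | Gen x y} corresponds to
{z in co 1 | Gen x z} (Set.ncard_image_of_injective).
`dg_pred`: y |-> x * y^-1 is a bijection of co (i-1) onto co 1 (inverse z |-> z^-1 * x), and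
closure {x, y} = closure {x, x * y^-1}.
`dg_neg_one`: y |-> y^-1 is a bijection of co (-1) onto co 1, closure {x, y} = closure {x, y^-1}.
Do not change the statements.
-/

namespace HG17

variable {G : Type*} [Group G]

theorem dd_pow_le [Finite G] (N : Subgroup G) (g x : G) (r : ℕ) :
    dd N g (x ^ r) ≤ dd N g x := by
  refine Set.ncard_le_ncard (fun z hz => ⟨hz.1, ?_⟩) (Set.toFinite _)
  have h : Subgroup.closure {x ^ r, z} = ⊤ := hz.2
  show Subgroup.closure {x, z} = ⊤
  rw [eq_top_iff, ← h, Subgroup.closure_le]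
  rintro w (rfl | rfl)
  · exact Subgroup.pow_mem _ (Subgroup.subset_closure (Set.mem_insert _ _)) r
  · exact Subgroup.subset_closure (Set.mem_insert_of_mem _ rfl)

private theorem gen_of_mem_Deg {x y z : G} (h : Gen x y) (hy : y ∈ Subgroup.closure {x, z}) :
    Gen x z := by
  show Subgroup.closure {x, z} = ⊤
  have h' : Subgroup.closure {x, y} = ⊤ := h
  rw [eq_top_iff, ← h', Subgroup.closure_le]
  rintro w (rfl | rfl)
  · exact Subgroup.subset_closure (Set.mem_insert _ _)
  · exact hy

private theorem mem_left_Deg (x z : G) : x ∈ Subgroup.closure {x, z} :=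
  Subgroup.subset_closure (Set.mem_insert _ _)

private theorem mem_right_Deg (x z : G) : z ∈ Subgroup.closure {x, z} :=
  Subgroup.subset_closure (Set.mem_insert_of_mem _ rfl)

theorem dg_succ (N : Subgroup G) [N.Normal] (g : G) {x : G} {i : ℤ} (hx : x ∈ co N g i) :
    dg Gen (co N g (i + 1)) x = dd N g x := by
  have h : {z | z ∈ co N g 1 ∧ Gen x z} =
      (fun y => x⁻¹ * y) '' {y | y ∈ co N g (i + 1) ∧ Gen x y} := by
    ext z
    constructor
    · rintro ⟨h1, h2⟩
      refine ⟨x * z, ⟨mul_mem_co hx h1, gen_of_mem_Deg h2 ?_⟩, by simp⟩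
      have h3 := Subgroup.mul_mem _ (Subgroup.inv_mem _ (mem_left_Deg x (x * z)))
        (mem_right_Deg x (x * z))
      rwa [inv_mul_cancel_left] at h3
    · rintro ⟨y, ⟨h1, h2⟩, rfl⟩
      constructor
      · have h3 := mul_mem_co (inv_mem_co hx) h1
        have e : -i + (i + 1) = 1 := by ring
        rwa [e] at h3
      · refine gen_of_mem_Deg h2 ?_
        have h3 := Subgroup.mul_mem _ (mem_left_Deg x (x⁻¹ * y)) (mem_right_Deg x (x⁻¹ * y))
        rwa [mul_inv_cancel_left] at h3
  show {y | y ∈ co N g (i + 1) ∧ Gen x y}.ncard = {z | z ∈ co N g 1 ∧ Gen x z}.ncard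
  rw [h, Set.ncard_image_of_injective _ (mul_right_injective _)]

theorem dg_pred (N : Subgroup G) [N.Normal] (g : G) {x : G} {i : ℤ} (hx : x ∈ co N g i) :
    dg Gen (co N g (i - 1)) x = dd N g x := by
  have h : {z | z ∈ co N g 1 ∧ Gen x z} =
      (fun y => x * y⁻¹) '' {y | y ∈ co N g (i - 1) ∧ Gen x y} := by
    ext z
    constructor
    · rintro ⟨h1, h2⟩
      refine ⟨z⁻¹ * x, ⟨?_, gen_of_mem_Deg h2 ?_⟩, by simp⟩
      · have h3 := mul_mem_co (inv_mem_co h1) hx
        have e : -1 + i = i - 1 := by ring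
        rwa [e] at h3
      · have h3 := Subgroup.mul_mem _ (mem_left_Deg x (z⁻¹ * x))
          (Subgroup.inv_mem _ (mem_right_Deg x (z⁻¹ * x)))
        have e : x * (z⁻¹ * x)⁻¹ = z := by group
        rwa [e] at h3
    · rintro ⟨y, ⟨h1, h2⟩, rfl⟩
      constructor
      · have h3 := mul_mem_co hx (inv_mem_co h1)
        have e : i + -(i - 1) = 1 := by ring
        rwa [e] at h3
      · refine gen_of_mem_Deg h2 ?_
        have h3 := Subgroup.mul_mem _ (Subgroup.inv_mem _ (mem_right_Deg x (x * y⁻¹)))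
          (mem_left_Deg x (x * y⁻¹))
        have e : (x * y⁻¹)⁻¹ * x = y := by group
        rwa [e] at h3
  show {y | y ∈ co N g (i - 1) ∧ Gen x y}.ncard = {z | z ∈ co N g 1 ∧ Gen x z}.ncard
  rw [h, Set.ncard_image_of_injective _ (fun a b hab => by simpa using hab)]

theorem dg_neg_one (N : Subgroup G) [N.Normal] (g x : G) :
    dg Gen (co N g (-1)) x = dd N g x := by
  have h : {z | z ∈ co N g 1 ∧ Gen x z} =
      (fun y => y⁻¹) '' {y | y ∈ co N g (-1) ∧ Gen x y} := by
    ext z
    constructor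
    · rintro ⟨h1, h2⟩
      refine ⟨z⁻¹, ⟨inv_mem_co h1, gen_of_mem_Deg h2 ?_⟩, by simp⟩
      have h3 := Subgroup.inv_mem _ (mem_right_Deg x z⁻¹)
      rwa [inv_inv] at h3
    · rintro ⟨y, ⟨h1, h2⟩, rfl⟩
      constructor
      · have h3 := inv_mem_co h1
        rwa [neg_neg] at h3
      · refine gen_of_mem_Deg h2 ?_
        have h3 := Subgroup.inv_mem _ (mem_right_Deg x y⁻¹)
        rwa [inv_inv] at h3
  show {y | y ∈ co N g (-1) ∧ Gen x y}.ncard = {z | z ∈ co N g 1 ∧ Gen x z}.ncard
  rw [h, Set.ncard_image_of_injective _ inv_injective]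

end HG17
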