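import Pool.Agent.HG17.Glue
import Pool.Agent.HG17.Bridge
import Pool.Agent.HG17.Closing
import Pool.Agent.HG17.CycG

/-!
# The main theorem
-/

namespace HG17

theorem main {G : Type*} [Group G] [Fintype G] [DecidableEq G] {T : Type*} [Group T] [Finite T]
    [IsSimpleGroup T] (hT : ∃ a b : T, a * b ≠ b * a) (N : Subgroup G) [N.Normal] {m : ℕ}
    (e : N ≃* (Fin m → T)) (hm : 12 * Nat.clog 2 (Nat.card T) ^ 2 ≤ m) :
    (SimpleGraph.fromRel (fun x y : {g : G // g ≠ 1} =>
      Subgroup.closure ({(x : G), (y : G)} : Set G) = ⊤)).IsHamiltonian ↔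
    ∀ x : G, x ≠ 1 → ∃ y : G, Subgroup.closure ({x, y} : Set G) = ⊤ := by
  have h5 := five_le_card hT
  have h4 := num4 h5 hm
  have hcard : 4 ≤ Fintype.card G := by
    have h1 : Nat.card N = Nat.card T ^ m := by
      rw [Nat.card_congr e.toEquiv, Nat.card_fun, Nat.card_fin]
    have h2 : Nat.card N ≤ Nat.card G := Subgroup.card_le_card_group N
    rw [Nat.card_eq_fintype_card (α := G)] at h2
    have h3 : Nat.card T ^ 1 ≤ Nat.card T ^ m := Nat.pow_le_pow_right (by omega) (by omega)
    rw [pow_one] at h3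
    omega
  constructor
  · exact partner_of_isHamiltonian hcard
  · intro hiso
    obtain ⟨D⟩ := exists_dat hT N (by omega) e hiso
    obtain ⟨n, H⟩ := D.dense hT hm hiso
    obtain ⟨u, w, huw, hwu⟩ := H.closing
    exact isHamiltonian_of_hamP hcard huw hwu

end HG17
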