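import Pool.Agent.HG17.Basic

/-!
# The frame of an element z of N g
-/

namespace HG17

namespace Dat

variable {G : Type*} [Group G] {T : Type*} [Group T] {N : Subgroup G} [N.Normal] {m : ℕ}
variable (D : Dat T N m)

/-- the automorphism of factor 0 induced by `z^m` -/
noncomputable def az (z : G) : MulAut T := D.a * MulAut.conj (D.eta z m)

/-- projections seen from `z` -/
theorem p_conj_zpow {z : G} (hz : z ∈ co N D.g 1) (k : ℤ) (r : N) :
    D.p (MulAut.conjNormal (z ^ (-k)) r) = (D.eta z k)⁻¹ * D.P k r * D.eta z k := by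
  have h1 : (MulAut.conjNormal (z ^ (-k)) r : N) =
      (⟨D.g ^ (-k) * z ^ k, D.gz_mem hz k⟩ : N)⁻¹ * MulAut.conjNormal (D.g ^ (-k)) r *
        ⟨D.g ^ (-k) * z ^ k, D.gz_mem hz k⟩ := by
    apply Subtype.ext
    simp only [MulAut.conjNormal_apply, Subgroup.coe_mul, InvMemClass.coe_inv]
    group
  rw [h1, map_mul, map_mul, map_inv]
  congr 1
  · congr 1
    congr 1
    exact (D.pv_of_mem _).symm
  · exact (D.pv_of_mem _).symm

/-- the data in which `g` is replaced by `z` -/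
noncomputable def frame (z : G) (hz : z ∈ co N D.g 1) : Dat T N m where
  g := z
  p := D.p
  a := D.az z
  cov := by
    intro x
    obtain ⟨i, hi⟩ := D.cov x
    refine ⟨i, ?_⟩
    have h := mul_mem_co hi (inv_mem_co (zpow_mem_co hz i))
    have e : i + -(1 * i) = 0 := by ring
    rw [e, co_zero] at h
    rw [mem_co, zpow_neg]
    exact h
  per := by
    intro r
    have h := D.p_conj_zpow hz (-(m : ℤ)) r
    rw [neg_neg] at h
    rw [h]
    have h2 : D.P (-(m : ℤ)) r = D.a (D.p r) := by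
      have := D.P_per 0 r
      rwa [zero_sub, P_zero] at this
    have h3 : D.eta z (-(m : ℤ)) = (D.a (D.eta z m))⁻¹ := by
      have h4 := D.eta_add_m hz (-(m : ℤ))
      rw [neg_add_cancel, eta_zero] at h4
      have h5 : D.a⁻¹ (D.eta z (-(m : ℤ))) = (D.eta z m)⁻¹ := eq_inv_of_mul_eq_one_left h4.symm
      have h6 := congrArg D.a h5
      rwa [MulAut.apply_inv_self, map_inv] at h6
    rw [h2, h3, inv_inv]
    unfold az
    rw [MulAut.mul_apply, MulAut.conj_apply, map_mul, map_mul, map_inv]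
  bij := by
    have h : (fun (r : N) (k : Fin m) =>
        D.p (MulAut.conjNormal (z ^ (-((k : ℕ) : ℤ))) r)) =
        (fun (f : Fin m → T) (k : Fin m) => (D.eta z ((k : ℕ) : ℤ))⁻¹ * f k *
          D.eta z ((k : ℕ) : ℤ)) ∘
        (fun (r : N) (k : Fin m) => D.p (MulAut.conjNormal (D.g ^ (-((k : ℕ) : ℤ))) r)) := by
      funext r k
      rw [D.p_conj_zpow hz]
      rfl
    rw [h]
    refine Function.Bijective.comp ?_ D.bij
    constructor
    · intro f f' hff
      funext k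
      have := congrFun hff k
      simpa using this
    · intro f
      refine ⟨fun k => D.eta z ((k : ℕ) : ℤ) * f k * (D.eta z ((k : ℕ) : ℤ))⁻¹, ?_⟩
      funext k
      group
  faith := D.faith

@[simp] theorem frame_g (z : G) (hz : z ∈ co N D.g 1) : (D.frame z hz).g = z := rfl
@[simp] theorem frame_p (z : G) (hz : z ∈ co N D.g 1) : (D.frame z hz).p = D.p := rfl
@[simp] theorem frame_a (z : G) (hz : z ∈ co N D.g 1) : (D.frame z hz).a = D.az z := rfl
@[simp] theorem frame_pv (z : G) (hz : z ∈ co N D.g 1) : (D.frame z hz).pv = D.pv := rfl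

theorem frame_P (z : G) (hz : z ∈ co N D.g 1) (k : ℤ) (r : N) :
    (D.frame z hz).P k r = (D.eta z k)⁻¹ * D.P k r * D.eta z k :=
  D.p_conj_zpow hz k r

/-- the coordinates of `x z^(-i)` seen from `z` (for `x` in `N g^i`, `z` in `N g`) -/
noncomputable def xh (x : G) (i : ℤ) (z : G) (k : ℤ) : T := D.pv (z ^ (-k) * x * z ^ (k - i))

/-- `x z^(-i)` lies in `N` -/
theorem xz_mem {x z : G} {i : ℤ} (hx : x ∈ co N D.g i) (hz : z ∈ co N D.g 1) :
    x * z ^ (-i) ∈ N := by
  have h := mul_mem_co hx (zpow_mem_co hz (-i))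
  have e : i + 1 * -i = 0 := by ring
  rw [e, co_zero] at h
  exact h

/-- `xh` are the coordinates of `x z^(-i)` in the frame of `z` -/
theorem frame_P_eq_xh {x z : G} {i : ℤ} (hx : x ∈ co N D.g i) (hz : z ∈ co N D.g 1) (k : ℤ) :
    (D.frame z hz).P k ⟨x * z ^ (-i), D.xz_mem hx hz⟩ = D.xh x i z k := by
  rw [P_eq_pv, frame_pv, frame_g]
  unfold xh
  congr 1
  rw [zpow_sub]
  group

/-- the formula for `xh` -/
theorem xh_eq {x z : G} {i : ℤ} (hx : x ∈ co N D.g i) (hz : z ∈ co N D.g 1) (k : ℤ) :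
    D.xh x i z k = (D.eta z k)⁻¹ * D.P k ⟨x * D.g ^ (-i), hx⟩ * D.eta z (k - i) := by
  rw [P_eq_pv]
  unfold xh eta
  have h1 := D.gz_mem hz k
  have h2 := D.gz_mem hz (k - i)
  have h3 : D.g ^ (-k) * (x * D.g ^ (-i)) * D.g ^ k ∈ N := by
    have := (inferInstance : N.Normal).conj_mem _ hx (D.g ^ (-k))
    rwa [zpow_neg D.g k, inv_inv, ← zpow_neg D.g k] at this
  rw [← D.pv_inv h1, ← D.pv_mul (N.inv_mem h1) h3, ← D.pv_mul (N.mul_mem (N.inv_mem h1) h3) h2]
  congr 1
  group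

/-- periodicity of `xh` -/
theorem xh_per {x z : G} {i : ℤ} (hx : x ∈ co N D.g i) (hz : z ∈ co N D.g 1) (k : ℤ) :
    D.xh x i z (k - m) = D.az z (D.xh x i z k) := by
  rw [← D.frame_P_eq_xh hx hz, ← D.frame_P_eq_xh hx hz, P_per, frame_a]

theorem xh_per_mul {x z : G} {i : ℤ} (hx : x ∈ co N D.g i) (hz : z ∈ co N D.g 1) (l k : ℤ) :
    D.xh x i z (k - m * l) = (D.az z ^ l) (D.xh x i z k) := by
  rw [← D.frame_P_eq_xh hx hz, ← D.frame_P_eq_xh hx hz, P_per_mul, frame_a]

end Dat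

end HG17
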