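import Pool.Agent.HG17.Clos
import Pool.Agent.HG17.Cat

/-!
# HG17/GenPath: Hamiltonian paths in dense graphs
-/

namespace HG17

theorem gen_path {V : Type*} {R : V → V → Prop} (hs : ∀ a b, R a b → R b a)
    (hirr : ∀ a, ¬ R a a) {s : Set V} (hf : s.Finite) {h l : ℕ}
    (hsh : s.ncard = h) (hl : 4 * l + 8 ≤ h) (ds : ∀ x ∈ s, l + 3 ≤ dg R s x)
    (lo : {x | x ∈ s ∧ 4 * dg R s x < 3 * h}.ncard ≤ l) :
    ∀ u ∈ s, ∀ w ∈ s, u ≠ w → HamP R s u w := by
  classical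
  intro u hu w hw huw
  let hi : V → Prop := fun v => 3 * h ≤ 4 * dg R s v
  let cr : V → V → Prop := fun p q => p ≠ q ∧ p ∈ s ∧ q ∈ s
  have crs : ∀ p q, cr p q → cr q p := fun p q hpq => ⟨hpq.1.symm, hpq.2.2, hpq.2.1⟩
  let R1 : V → V → Prop := fun p q => R p q ∨ (cr p q ∧ hi p ∧ hi q)
  let R2 : V → V → Prop := fun p q => R p q ∨ (cr p q ∧ (hi p ∨ hi q))
  let R3 : V → V → Prop := fun p q => R p q ∨ cr p q
  have s1 : ∀ p q, R1 p q → R1 q p := by
    rintro p q (h1 | ⟨h1, h2, h3⟩)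
    · exact Or.inl (hs _ _ h1)
    · exact Or.inr ⟨crs _ _ h1, h3, h2⟩
  have s2 : ∀ p q, R2 p q → R2 q p := by
    rintro p q (h1 | ⟨h1, h2⟩)
    · exact Or.inl (hs _ _ h1)
    · exact Or.inr ⟨crs _ _ h1, h2.symm⟩
  have s3 : ∀ p q, R3 p q → R3 q p := by
    rintro p q (h1 | h1)
    · exact Or.inl (hs _ _ h1)
    · exact Or.inr (crs _ _ h1)
  have i3 : ∀ a, ¬ R3 a a := by
    rintro a (h1 | h1)
    · exact hirr a h1
    · exact h1.1 rfl
  have l01 : ∀ p q, R p q → R1 p q := fun p q hpq => Or.inl hpq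
  have l12 : ∀ p q, R1 p q → R2 p q := by
    rintro p q (h1 | ⟨h1, h2, h3⟩)
    · exact Or.inl h1
    · exact Or.inr ⟨h1, Or.inl h2⟩
  have l23 : ∀ p q, R2 p q → R3 p q := by
    rintro p q (h1 | ⟨h1, h2⟩)
    · exact Or.inl h1
    · exact Or.inr h1
  -- the number of high vertices
  have F2 : h ≤ {q | q ∈ s ∧ hi q}.ncard + l := by
    have hsub : s ⊆ {q | q ∈ s ∧ hi q} ∪ {x | x ∈ s ∧ 4 * dg R s x < 3 * h} := by
      intro q hq
      by_cases hq' : hi q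
      · exact Or.inl ⟨hq, hq'⟩
      · have h3 : ¬ (3 * h ≤ 4 * dg R s q) := hq'
        exact Or.inr ⟨hq, by omega⟩
    calc h = s.ncard := hsh.symm
      _ ≤ ({q | q ∈ s ∧ hi q} ∪ {x | x ∈ s ∧ 4 * dg R s x < 3 * h}).ncard :=
          Set.ncard_le_ncard hsub ((hf.subset fun q hq => hq.1).union
            (hf.subset fun q hq => hq.1))
      _ ≤ _ := Set.ncard_union_le _ _
      _ ≤ _ := Nat.add_le_add_left lo _
  have P3 : HamP R3 s u w := ham_complete hf (fun a ha b hb hab => Or.inr ⟨hab, ha, hb⟩) hu hw huw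
  have P2 : HamP R2 s u w := by
    refine clos_gen hf s2 s3 i3 l23 ?_ P3
    intro p hp q hq hpq hnot
    rw [hsh]
    have hpq' : p ≠ q := by rintro rfl; exact i3 _ hpq
    have hnp : ¬ hi p := fun h => hnot (Or.inr ⟨⟨hpq', hp, hq⟩, Or.inl h⟩)
    have hnq : ¬ hi q := fun h => hnot (Or.inr ⟨⟨hpq', hp, hq⟩, Or.inr h⟩)
    have key : ∀ v ∈ s, ¬ hi v → {q | q ∈ s ∧ hi q}.ncard ≤ dg R2 s v := by
      intro v hv hnv
      refine Set.ncard_le_ncard (fun q hq => ⟨hq.1, Or.inr ⟨⟨?_, hv, hq.1⟩, Or.inr hq.2⟩⟩)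
        (hf.subset fun q hq => hq.1)
      rintro rfl
      exact hnv hq.2
    have b1 := key p hp hnp
    have b2 := key q hq hnq
    omega
  have P1 : HamP R1 s u w := by
    refine clos_gen hf s1 s2 (fun a ha => i3 a (l23 _ _ ha)) l12 ?_ P2
    intro p hp q hq hpq hnot
    rw [hsh]
    have hpq' : p ≠ q := by rintro rfl; exact i3 _ (l23 _ _ hpq)
    have key : ∀ v ∈ s, hi v → {q | q ∈ s ∧ hi q}.ncard ≤ dg R1 s v + 1 := by
      intro v hv hhv
      have hsub : {q | q ∈ s ∧ hi q} ⊆ insert v {y | y ∈ s ∧ R1 v y} := by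
        intro q hq
        by_cases e : q = v
        · exact Or.inl e
        · exact Or.inr ⟨hq.1, Or.inr ⟨⟨Ne.symm e, hv, hq.1⟩, hhv, hq.2⟩⟩
      exact le_trans (Set.ncard_le_ncard hsub ((hf.subset fun q hq => hq.1).insert _))
        (Set.ncard_insert_le _ _)
    have low : ∀ v ∈ s, l + 3 ≤ dg R1 s v := fun v hv =>
      le_trans (ds v hv) (dg_mono hf l01 v)
    rcases hpq with h1 | ⟨h1, h2⟩
    · exact absurd (l01 _ _ h1) hnot
    rcases h2 with h2 | h2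
    · have b1 := key p hp h2
      have b2 := low q hq
      omega
    · have b1 := key q hq h2
      have b2 := low p hp
      omega
  refine clos_gen hf hs s1 (fun a ha => i3 a (l23 _ _ (l12 _ _ ha))) l01 ?_ P1
  intro p hp q hq hpq hnot
  rw [hsh]
  rcases hpq with h1 | ⟨-, h2, h3⟩
  · exact absurd h1 hnot
  have h2' : 3 * h ≤ 4 * dg R s p := h2
  have h3' : 3 * h ≤ 4 * dg R s q := h3
  omega

end HG17
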