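import Pool.Agent.HG17.BadCard

/-!
# HG17/Low: few elements of a coset have few partners (PROVE ME, 60-100 lines)

Notation: t = card T, X = card (Subgroup T) + m * card (MulAut T), card N = t^m (`Dat.card_N`).
Proof. Count the pairs (x, z), x in co i, z in co 1, with not Gen x z.
(1) For every z in co 1 the map x |-> x z^(-i) is a bijection of co i onto N (xz_mem; the
inverse is mu |-> mu z^i: mul_mem_co, zpow_mem_co), and Gen x z iff Gen (x z^(-i)) z (the two
closures are equal: each generator lies in the other closure). By `bad_card` for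
D.frame z hz the number of x in co i with not Gen x z, multiplied by 2^m, is at most X * t^m.
(2) So 2^m * #pairs <= card N * X * t^m (card_co).
(3) For a low x (4 * dd x < 3 * card N): {z in co 1 | not Gen x z} has card N - dd x elements
(complement in co 1), and 4 * (card N - dd x) > card N. So card N * #low <= 4 * #pairs.
(4) Hence 2^m * card N * #low <= 4 * X * t^m * card N; cancel card N > 0.
Double counting: use finsets of G x G (classical) and Finset.card_eq_sum_card_fiberwise, or
Finset.sum_card_bipartiteAbove_eq_sum_card_bipartiteBelow. Do not change the statement.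
-/

namespace HG17

theorem gen_mul_zpow {G : Type*} [Group G] (x z : G) (k : ℤ) : Gen (x * z ^ k) z ↔ Gen x z := by
  unfold Gen
  have a1 : x * z ^ k ∈ Subgroup.closure ({x * z ^ k, z} : Set G) :=
    Subgroup.subset_closure (by simp)
  have a2 : z ∈ Subgroup.closure ({x * z ^ k, z} : Set G) := Subgroup.subset_closure (by simp)
  have a3 : x ∈ Subgroup.closure ({x, z} : Set G) := Subgroup.subset_closure (by simp)
  have a4 : z ∈ Subgroup.closure ({x, z} : Set G) := Subgroup.subset_closure (by simp)
  have a5 : x ∈ Subgroup.closure ({x * z ^ k, z} : Set G) := by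
    have h3 := Subgroup.mul_mem _ a1 (Subgroup.inv_mem _ (Subgroup.zpow_mem _ a2 k))
    rwa [mul_assoc, mul_inv_cancel, mul_one] at h3
  have a6 : x * z ^ k ∈ Subgroup.closure ({x, z} : Set G) :=
    Subgroup.mul_mem _ a3 (Subgroup.zpow_mem _ a4 k)
  have h : Subgroup.closure ({x * z ^ k, z} : Set G) = Subgroup.closure ({x, z} : Set G) := by
    apply le_antisymm
    · rw [Subgroup.closure_le]
      intro y hy
      rcases hy with hy | hy
      · rw [hy]
        exact a6
      · rw [Set.mem_singleton_iff.1 hy]
        exact a4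
    · rw [Subgroup.closure_le]
      intro y hy
      rcases hy with hy | hy
      · rw [hy]
        exact a5
      · rw [Set.mem_singleton_iff.1 hy]
        exact a2
  rw [h]

namespace Dat

variable {G : Type*} [Group G] {T : Type*} [Group T] {N : Subgroup G} [N.Normal] {m : ℕ}
variable (D : Dat T N m)

theorem low_card [Finite G] [Finite T] [IsSimpleGroup T] (hT : ∃ a b : T, a * b ≠ b * a)
    (h4 : 4 ≤ Nat.card T) (hm : 2 ≤ m) (i : ℤ) :
    2 ^ m * {x | x ∈ co N D.g i ∧ 4 * dd N D.g x < 3 * Nat.card N}.ncard ≤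
      4 * ((Nat.card (Subgroup T) + m * Nat.card (MulAut T)) * Nat.card T ^ m) := by
  classical
  haveI := Fintype.ofFinite G
  set X : ℕ := Nat.card (Subgroup T) + m * Nat.card (MulAut T) with hX
  have hN : Nat.card N = Nat.card T ^ m := D.card_N
  have hNpos : 0 < Nat.card N := Nat.card_pos
  -- step 1
  have hfib : ∀ z ∈ co N D.g 1,
      2 ^ m * {x | x ∈ co N D.g i ∧ ¬ Gen x z}.ncard ≤ X * Nat.card T ^ m := by
    intro z hz
    have h1 := (D.frame z hz).bad_card hT h4 hm
    rw [frame_g] at h1
    refine le_trans (Nat.mul_le_mul_left _ ?_) h1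
    have h2 : {x | x ∈ co N D.g i ∧ ¬ Gen x z} =
        (fun μ : N => (μ : G) * z ^ i) '' {μ : N | ¬ Gen (μ : G) z} := by
      ext x
      constructor
      · rintro ⟨hx, hg⟩
        refine ⟨⟨x * z ^ (-i), D.xz_mem hx hz⟩, ?_, ?_⟩
        · intro hg'
          exact hg ((gen_mul_zpow x z (-i)).1 hg')
        · change x * z ^ (-i) * z ^ i = x
          rw [mul_assoc, ← zpow_add]
          simp
      · rintro ⟨μ, hμ, rfl⟩
        refine ⟨?_, ?_⟩
        · have h3 : (μ : G) ∈ co N D.g 0 := by
            rw [co_zero]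
            exact μ.2
          have h4 := mul_mem_co h3 (zpow_mem_co hz i)
          have e : (0 : ℤ) + 1 * i = i := by ring
          rw [e] at h4
          exact h4
        · intro hg
          exact hμ ((gen_mul_zpow (μ : G) z i).1 hg)
    rw [h2]
    exact Set.ncard_image_le (Set.toFinite _)
  -- the pairs
  set C1 : Finset G := (co N D.g 1).toFinset with hC1
  set Ci : Finset G := (co N D.g i).toFinset with hCi
  set L : Finset G := Ci.filter (fun x => 4 * dd N D.g x < 3 * Nat.card N) with hL
  have hC1c : C1.card = Nat.card N := by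
    rw [hC1, ← Set.ncard_eq_toFinset_card', card_co]
  have hLc : {x | x ∈ co N D.g i ∧ 4 * dd N D.g x < 3 * Nat.card N}.ncard = L.card := by
    rw [← Set.ncard_coe_finset]
    congr 1
    ext x
    simp [hL, hCi]
  have hdc : ∑ x ∈ Ci, (C1.filter (fun z => ¬ Gen x z)).card =
      ∑ z ∈ C1, (Ci.filter (fun x => ¬ Gen x z)).card :=
    Finset.sum_card_bipartiteAbove_eq_sum_card_bipartiteBelow (fun x z => ¬ Gen x z)
  have hz : 2 ^ m * ∑ z ∈ C1, (Ci.filter (fun x => ¬ Gen x z)).card ≤
      Nat.card N * (X * Nat.card T ^ m) := by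
    rw [Finset.mul_sum, ← hC1c, ← smul_eq_mul]
    refine Finset.sum_le_card_nsmul _ _ _ (fun z hz => ?_)
    have hz' : z ∈ co N D.g 1 := by simpa [hC1] using hz
    refine le_trans (le_of_eq ?_) (hfib z hz')
    congr 1
    rw [← Set.ncard_coe_finset]
    congr 1
    ext x
    simp [hCi]
  have hx : L.card * Nat.card N ≤ 4 * ∑ x ∈ Ci, (C1.filter (fun z => ¬ Gen x z)).card := by
    have h1 : ∑ x ∈ L, (C1.filter (fun z => ¬ Gen x z)).card ≤
        ∑ x ∈ Ci, (C1.filter (fun z => ¬ Gen x z)).card :=
      Finset.sum_le_sum_of_subset (Finset.filter_subset _ _)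
    refine le_trans ?_ (Nat.mul_le_mul_left 4 h1)
    rw [Finset.mul_sum, ← smul_eq_mul]
    refine Finset.card_nsmul_le_sum _ _ _ (fun x hx => ?_)
    have hx' : 4 * dd N D.g x < 3 * Nat.card N := (Finset.mem_filter.1 hx).2
    have h2 : dd N D.g x = (C1.filter (fun z => Gen x z)).card := by
      unfold dd
      rw [← Set.ncard_coe_finset]
      congr 1
      ext z
      simp [hC1]
    have h3 := Finset.card_filter_add_card_filter_not (s := C1) (fun z => Gen x z)
    rw [hC1c, ← h2] at h3
    omega
  rw [hLc]
  have h5 : (2 ^ m * L.card) * Nat.card N ≤ (4 * (X * Nat.card T ^ m)) * Nat.card N := by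
    calc (2 ^ m * L.card) * Nat.card N = 2 ^ m * (L.card * Nat.card N) := by ring
      _ ≤ 2 ^ m * (4 * ∑ x ∈ Ci, (C1.filter (fun z => ¬ Gen x z)).card) :=
          Nat.mul_le_mul_left _ hx
      _ = 4 * (2 ^ m * ∑ z ∈ C1, (Ci.filter (fun x => ¬ Gen x z)).card) := by
          rw [hdc]
          ring
      _ ≤ 4 * (Nat.card N * (X * Nat.card T ^ m)) := Nat.mul_le_mul_left _ hz
      _ = (4 * (X * Nat.card T ^ m)) * Nat.card N := by ring
  exact Nat.le_of_mul_le_mul_right h5 hNpos

end Dat

end HG17
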