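import Pool.Agent.HG17.DdMov
import Pool.Agent.HG17.Deg

/-!
# HG17/MovRed: every element moving the factors has many partners (PROVE ME, 30-60 lines)

`dd_moving`. Let d = gcd (i, m) (as integers / natural numbers: Int.gcd), d < m as m does not divide i. Let q
be a prime divisor of m / d; then q | m and d | m / q, so there is a natural number r with
r * i = m / q + m * l for some integer l (Bezout: d = u i + v m; multiply by (m/q)/d; replace u by
u mod m to make it natural). x^r is in co (i * r) (pow_mem_co), so dd (x^r) >= card N / 2 by dd_mov, and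
dd (x^r) <= dd x (dd_pow_le).
`dvd_of_zpow_mem`. Suppose g^j in N and m does not divide j. For r in N, conjNormal (g^j) r =
n * r * n^-1 with n = g^j in N, so P k (conjNormal (g^j) r) = P k n * P k r * (P k n)^-1, and it is
P (k - j) r by P_conj. Take k = 0 and, by P_indep (m does not divide 0 - (0 - j) = j), r with P 0 r = 1
and P (0 - j) r = t <> 1 (T is nontrivial): contradiction. Do not change the statements.
-/

namespace HG17

namespace Dat

variable {G : Type*} [Group G] {T : Type*} [Group T] {N : Subgroup G} [N.Normal] {m : ℕ}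
variable (D : Dat T N m)

omit [N.Normal] in
private theorem arith_MR {m : ℕ} (hm : 2 ≤ m) {i : ℤ} (hi : ¬ (m : ℤ) ∣ i) :
    ∃ q : ℕ, q.Prime ∧ q ∣ m ∧ ∃ (r : ℕ) (l : ℤ), i * r = ((m / q : ℕ) : ℤ) + m * l := by
  have hm0 : 0 < m := by omega
  obtain ⟨d, hd⟩ : ∃ d, d = Int.gcd i m := ⟨_, rfl⟩
  have hdm : d ∣ m := by
    have h1 : (d : ℤ) ∣ (m : ℤ) := by
      rw [hd]
      exact Int.gcd_dvd_right _ _
    exact_mod_cast h1
  obtain ⟨e, he⟩ := hdm
  have he1 : e ≠ 1 := by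
    intro h1
    rw [h1, mul_one] at he
    apply hi
    have h2 : ((Int.gcd i m : ℕ) : ℤ) ∣ i := Int.gcd_dvd_left _ _
    rw [← hd, ← he] at h2
    exact h2
  obtain ⟨q, hq, hqe⟩ := Nat.exists_prime_and_dvd he1
  obtain ⟨c, hc⟩ := hqe
  have hmq : m = q * (d * c) := by
    rw [he, hc]
    ring
  refine ⟨q, hq, ⟨d * c, hmq⟩, ?_⟩
  have hdiv : m / q = d * c := by
    conv_lhs => rw [hmq]
    exact Nat.mul_div_cancel_left _ hq.pos
  have hb := Int.gcd_eq_gcd_ab i m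
  rw [← hd] at hb
  obtain ⟨A, hA⟩ : ∃ A, A = Int.gcdA i m := ⟨_, rfl⟩
  obtain ⟨B, hB⟩ : ∃ B, B = Int.gcdB i m := ⟨_, rfl⟩
  rw [← hA, ← hB] at hb
  have hmZ : (0 : ℤ) < m := by exact_mod_cast hm0
  refine ⟨((A * c) % m).toNat, -(B * c) - i * ((A * c) / m), ?_⟩
  have h1 : ((((A * c) % m).toNat : ℕ) : ℤ) = (A * c) % m :=
    Int.toNat_of_nonneg (Int.emod_nonneg _ hmZ.ne')
  rw [h1, hdiv]
  have h2 := Int.emod_add_mul_ediv (A * c) m
  push_cast
  rw [hb]
  have h3 : (A * c) % (m : ℤ) = A * c - m * ((A * c) / m) := by linarith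
  rw [h3]
  ring

theorem dd_moving [Finite G] [Finite T] [IsSimpleGroup T] (hT : ∃ a b : T, a * b ≠ b * a)
    (h4 : 4 ≤ Nat.card T) (hm : 2 ≤ m)
    (hnum : 2 * (Nat.card (Subgroup T) + m * Nat.card (MulAut T)) * 3 ^ (m / 2) ≤ 4 ^ (m / 2))
    {x : G} {i : ℤ} (hx : x ∈ co N D.g i) (hi : ¬ (m : ℤ) ∣ i) :
    Nat.card N ≤ 2 * dd N D.g x := by
  obtain ⟨q, hq, hqm, r, l, hr⟩ := arith_MR hm hi
  have h1 := pow_mem_co hx r
  rw [hr] at h1
  have h2 := D.dd_mov hT h4 hm hnum hq hqm h1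
  have h3 := dd_pow_le N D.g x r
  omega

theorem dvd_of_zpow_mem [Nontrivial T] (hm : 0 < m) {j : ℤ} (h : D.g ^ j ∈ N) :
    (m : ℤ) ∣ j := by
  by_contra hj
  obtain ⟨t, ht⟩ := exists_ne (1 : T)
  obtain ⟨r, hr0, hrt⟩ := D.P_indep hm (k := 0) (l := 0 - j) (by
    rw [sub_sub_cancel]
    exact hj) 1 t
  have h1 : MulAut.conjNormal (D.g ^ j) r = (⟨D.g ^ j, h⟩ : N) * r * (⟨D.g ^ j, h⟩ : N)⁻¹ := by
    apply Subtype.ext
    rw [MulAut.conjNormal_apply]
    rfl
  have h2 := D.P_conj j 0 r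
  rw [h1, map_mul, map_mul, map_inv, hr0, mul_one, mul_inv_cancel, hrt] at h2
  exact ht h2.symm

end Dat

end HG17
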