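import Pool.Agent.HG17.Basic

/-!
# HG17/Nbr: an element with a partner has a partner in N g (PROVE ME, 70-120 lines)

Proof. Let n > 0 be the order of g N in G / N, so that g^j in N iff n | j (j in Z); n divides
card G. Say x in co i, y in co j (D.cov).
(1) gcd (i, j, n) = 1: g is in closure {x, y} = top; the set of h such that h lies in co (c) for
some c in the ideal (i, j, n) of Z is a subgroup containing x and y (mul_mem_co, inv_mem_co,
zpow_mem_of_mem_co, mem_co_of_zpow_mem), so it contains g, and g in co 1 and g in co c give n | 1 - c.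
So 1 = u i + v j + w n for integers u, v, w.
(2) There is k with j + k i coprime to n: let k be the product of the primes p dividing n and not
dividing j. If a prime p | n divides j, it does not divide i (by 1), and not k, so not j + k i;
if p does not divide j, it divides k, so not j + k i.
(3) y' = y x^k has closure {x, y'} = top (y = y' x^(-k)), y' in co j', j' = j + k i, coprime to n.
(4) There is an integer r, coprime to card G, with r j' = 1 modulo n: j' is a unit of ZMod n,
take its inverse and lift it to a unit of ZMod (card G) (ZMod.unitsMap_surjective, n | card G).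
z = y'^r is in co (j' r) = co 1 (mem_co_of_zpow_mem), and y' is a power of z (r is invertible modulo
the order of y', which divides card G), so closure {x, z} = closure {x, y'} = top.
(For step 4 the natural representative r = (unit).val.val is convenient.)
Do not change the statement.
-/

namespace HG17

namespace Dat

variable {G : Type*} [Group G] {T : Type*} [Group T] {N : Subgroup G} [N.Normal] {m : ℕ}
variable (D : Dat T N m)

include D in
theorem exists_partner [Finite G] {x y : G} (h : Gen x y) :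
    ∃ z, z ∈ co N D.g 1 ∧ Gen x z := by
  classical
  obtain ⟨i, hi⟩ := D.cov x
  obtain ⟨j, hj⟩ := D.cov y
  set g := D.g with hg
  set n := orderOf (g : G ⧸ N) with hn
  have hdiv : ∀ c : ℤ, g ^ c ∈ N ↔ (n : ℤ) ∣ c := by
    intro c
    rw [← QuotientGroup.eq_one_iff, QuotientGroup.mk_zpow, ← orderOf_dvd_iff_zpow_eq_one]
  have hnG : n ∣ Nat.card G :=
    (orderOf_dvd_natCard _).trans (Subgroup.card_quotient_dvd_card N)
  have hGpos : 0 < Nat.card G := Nat.card_pos
  have hnpos : 0 < n := Nat.pos_of_dvd_of_pos hnG hGpos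
  have : NeZero n := ⟨hnpos.ne'⟩
  have : NeZero (Nat.card G) := ⟨hGpos.ne'⟩
  -- step 1
  obtain ⟨u, v, w, huvw⟩ : ∃ u v w : ℤ, u * i + v * j + w * n = 1 := by
    let H : Subgroup G :=
      { carrier := {a | ∃ c : ℤ, a ∈ co N g c ∧ ∃ u v w : ℤ, c = u * i + v * j + w * n}
        mul_mem' := by
          rintro a b ⟨c, hc, u, v, w, rfl⟩ ⟨c', hc', u', v', w', rfl⟩
          exact ⟨_, mul_mem_co hc hc', u + u', v + v', w + w', by ring⟩
        one_mem' := ⟨0, by rw [co_zero]; exact N.one_mem, 0, 0, 0, by ring⟩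
        inv_mem' := by
          rintro a ⟨c, hc, u, v, w, rfl⟩
          exact ⟨_, inv_mem_co hc, -u, -v, -w, by ring⟩ }
    have hH : g ∈ H := by
      have h' : (⊤ : Subgroup G) ≤ H := by
        have h0 : Subgroup.closure ({x, y} : Set G) = ⊤ := h
        rw [← h0, Subgroup.closure_le]
        rintro a (rfl | rfl)
        · exact ⟨i, hi, 1, 0, 0, by ring⟩
        · exact ⟨j, hj, 0, 1, 0, by ring⟩
      exact h' (Subgroup.mem_top g)
    obtain ⟨c, hc, u, v, w, rfl⟩ := hH
    have h1 := zpow_mem_of_mem_co (g_mem_co_one N g) hc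
    obtain ⟨s, hs⟩ := (hdiv _).1 h1
    exact ⟨u, v, w + s, by linear_combination -hs⟩
  -- step 2
  set d : ℕ := Int.gcd i n with hd
  have hdn : d ∣ n := by
    have := Int.gcd_dvd_right i n
    exact_mod_cast this
  obtain ⟨n', hn'⟩ := hdn
  obtain ⟨i', hi'⟩ : (d : ℤ) ∣ i := Int.gcd_dvd_left i n
  have hdn : d ∣ n := ⟨n', hn'⟩
  have hnZ : (n : ℤ) = d * n' := by exact_mod_cast hn'
  have hjd : (j : ZMod d) * (v : ZMod d) = 1 := by
    have e : j * v = 1 - (d : ℤ) * (u * i' + w * n') := by
      rw [hi', hnZ] at huvw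
      linear_combination huvw
    have := congrArg (fun t : ℤ => (t : ZMod d)) e
    push_cast at this
    rw [this]
    simp
  let U0 : (ZMod d)ˣ := ⟨j, v, hjd, by rw [mul_comm]; exact hjd⟩
  obtain ⟨U, hU⟩ := ZMod.unitsMap_surjective hdn U0
  set b : ℕ := (U : ZMod n).val with hb
  have hbU : (b : ZMod n) = (U : ZMod n) := ZMod.natCast_zmod_val _
  have hbj : ((b : ℤ) : ZMod d) = (j : ZMod d) := by
    have h1 : ZMod.castHom hdn (ZMod d) (U : ZMod n) = (j : ZMod d) := by
      have := congrArg Units.val hU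
      simpa [ZMod.unitsMap_def, U0] using this
    rw [← hbU, map_natCast] at h1
    exact_mod_cast h1
  obtain ⟨s, hs⟩ := (ZMod.intCast_eq_intCast_iff_dvd_sub j (b : ℤ) d).1 hbj.symm
  have hbez := Int.gcd_eq_gcd_ab i n
  set α := Int.gcdA i n
  set β := Int.gcdB i n
  set k : ℤ := α * s with hk
  have hy' : y * x ^ k ∈ co N g (b : ℤ) := by
    apply mem_co_of_zpow_mem (mul_mem_co hj (zpow_mem_co hi k))
    rw [hdiv]
    refine ⟨-(β * s), ?_⟩
    have hbez' : (d : ℤ) = i * α + n * β := hbez
    rw [hk]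
    linear_combination -hs - s * hbez'
  set y' := y * x ^ k with hy'd
  -- step 4
  obtain ⟨R, hR⟩ := ZMod.unitsMap_surjective hnG U⁻¹
  set r : ℕ := (R : ZMod (Nat.card G)).val with hr
  have hrR : (r : ZMod (Nat.card G)) = (R : ZMod (Nat.card G)) := ZMod.natCast_zmod_val _
  have hrn : (r : ZMod n) = ((U⁻¹ : (ZMod n)ˣ) : ZMod n) := by
    have h1 : ZMod.castHom hnG (ZMod n) (R : ZMod (Nat.card G)) = ((U⁻¹ : (ZMod n)ˣ) : ZMod n) := by
      have := congrArg Units.val hR
      simpa [ZMod.unitsMap_def] using this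
    rw [← hrR, map_natCast] at h1
    exact h1
  have hbr : (n : ℤ) ∣ (b : ℤ) * r - 1 := by
    rw [← ZMod.intCast_eq_intCast_iff_dvd_sub]
    push_cast
    rw [hbU, hrn, Units.mul_inv]
  have hz : y' ^ (r : ℤ) ∈ co N g 1 := by
    apply mem_co_of_zpow_mem (zpow_mem_co hy' r)
    rw [hdiv]
    exact hbr
  have hcop : IsCoprime (r : ℤ) (Nat.card G : ℤ) :=
    Nat.isCoprime_iff_coprime.2 (ZMod.val_coe_unit_coprime R)
  obtain ⟨a, b', hab⟩ := hcop
  have hyz : y' = (y' ^ (r : ℤ)) ^ a := by
    have h1 : y' ^ (a * (r : ℤ) + b' * (Nat.card G : ℤ)) = y' := by rw [hab, zpow_one]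
    rw [zpow_add, mul_comm b', zpow_mul y' (Nat.card G : ℤ), zpow_natCast, pow_card_eq_one',
      one_zpow, mul_one, mul_comm a, zpow_mul] at h1
    exact h1.symm
  refine ⟨y' ^ (r : ℤ), hz, ?_⟩
  unfold Gen
  rw [eq_top_iff]
  have h0 : Subgroup.closure ({x, y} : Set G) = ⊤ := h
  rw [← h0, Subgroup.closure_le]
  have hx : x ∈ Subgroup.closure ({x, y' ^ (r : ℤ)} : Set G) :=
    Subgroup.subset_closure (by simp)
  have hzz : y' ^ (r : ℤ) ∈ Subgroup.closure ({x, y' ^ (r : ℤ)} : Set G) :=
    Subgroup.subset_closure (by simp)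
  have hyy : y' ∈ Subgroup.closure ({x, y' ^ (r : ℤ)} : Set G) := by
    have := Subgroup.zpow_mem _ hzz a
    rwa [← hyz] at this
  rintro c (rfl | rfl)
  · exact hx
  · have e : c = y' * x ^ (-k) := by
      rw [hy'd, mul_assoc, ← zpow_add]
      simp
    rw [SetLike.mem_coe]
    rw [e]
    exact Subgroup.mul_mem _ hyy (Subgroup.zpow_mem _ hx _)

end Dat

end HG17
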