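import Pool.Agent.HG17.NumA

/-!
# HG17/NumB: the numerical conditions (PROVE ME, 80-120 lines)

Notation: L = clog 2 t >= 3 (t >= 5), la = clog 2 m, X = sT + m * aT, R = 4 L + 2 la + 2.
t <= 2^L, m <= 2^la (Nat.le_pow_clog), so t^L <= 2^(L^2), m + 1 <= 2^(la + 1),
X <= (m + 1) * t^L <= 2^(la + 1 + L^2), t^(1+R) <= 2^(L * (4 L + 2 la + 3)). By num_linear
(i) 16 * X * t^(1+R) <= 2^(4 + la + 1 + L^2 + 4 L^2 + 2 L la + 3 L) = 2^(5 L^2 + 3 L + 5 + (2 L + 1) la) <= 2^m.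
(ii) 8 * t^(1+R) < t^m: 8 < t^2 and 3 + R <= m (num_linear: 4 L + 2 la + 5 <= 5 L^2 + 3 L + 5 + (2 L + 1) la).
`num1` (2 X 3^h <= 4^h, h = m / 2): 4 * 3^5 <= 4^5, so 4^k * 3^(5k) <= 4^(5k). Let k = (L^2 + la + 3) / 2, so
L^2 + la + 2 <= 2 k <= L^2 + la + 3, 2 X <= 2^(la + 2 + L^2) <= 4^k. And 5 k <= h, since
10 k <= 5 L^2 + 5 la + 15 <= m - 1 <= 2 h (num_linear: m >= 5 L^2 + 9 + 5 + 7 la, la >= 1). So
2 X 3^h <= 4^k 3^(5k) 3^(h-5k) <= 4^(5k) 4^(h-5k) = 4^h.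
`num2`: suppose d <= l + 2 with l = 4 * (X * t^m) / 2^m; 2^m * l <= 4 X t^m (Nat.div_mul_le_self).
2^m t^m <= 2^m * 2 (l + 2) t^(1+R) <= 8 X t^(1+R) t^m + 2^(m+2) t^(1+R). Twice this:
2 * 2^m t^m <= (16 X t^(1+R)) t^m + 2^m (8 t^(1+R)) < 2^m t^m + 2^m t^m by (i), (ii): contradiction.
`num3`: 32 X <= 16 X t^(1+R) <= 2^m, so 2^m * 8 l <= 32 X t^m <= 2^m t^m, 8 l <= t^m; 16 <= t^m; so
2 (4 l + 8) <= 2 t^m. `num4`: m >= 12 L^2 >= 108. Do not change the statements.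
-/

namespace HG17

private theorem clog3 {t : ℕ} (ht : 5 ≤ t) : 3 ≤ Nat.clog 2 t := by
  have h1 : Nat.clog 2 5 ≤ Nat.clog 2 t := Nat.clog_mono_right 2 ht
  have h2 : Nat.clog 2 5 = 3 := by decide +kernel
  omega

theorem num4 {t m : ℕ} (ht : 5 ≤ t) (hm : 12 * Nat.clog 2 t ^ 2 ≤ m) : 4 ≤ m := by
  have h := clog3 ht
  have : 3 ^ 2 ≤ Nat.clog 2 t ^ 2 := Nat.pow_le_pow_left h 2
  omega

private theorem Xle {t sT aT m : ℕ} (hs : sT ≤ t ^ Nat.clog 2 t)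
    (ha : aT ≤ t ^ Nat.clog 2 t) :
    sT + m * aT ≤ 2 ^ (Nat.clog 2 m + 1 + Nat.clog 2 t ^ 2) := by
  have h1 : t ≤ 2 ^ Nat.clog 2 t := Nat.le_pow_clog (by norm_num) t
  have h2 : m ≤ 2 ^ Nat.clog 2 m := Nat.le_pow_clog (by norm_num) m
  have h3 : t ^ Nat.clog 2 t ≤ 2 ^ (Nat.clog 2 t ^ 2) := by
    calc t ^ Nat.clog 2 t ≤ (2 ^ Nat.clog 2 t) ^ Nat.clog 2 t := Nat.pow_le_pow_left h1 _
      _ = 2 ^ (Nat.clog 2 t ^ 2) := by rw [← pow_mul, sq]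
  have h4 : m + 1 ≤ 2 ^ (Nat.clog 2 m + 1) := by
    have : 1 ≤ 2 ^ Nat.clog 2 m := Nat.one_le_two_pow
    rw [pow_succ]
    omega
  calc sT + m * aT ≤ t ^ Nat.clog 2 t + m * t ^ Nat.clog 2 t :=
        add_le_add hs (Nat.mul_le_mul_left _ ha)
    _ = (m + 1) * t ^ Nat.clog 2 t := by ring
    _ ≤ 2 ^ (Nat.clog 2 m + 1) * 2 ^ (Nat.clog 2 t ^ 2) := Nat.mul_le_mul h4 h3
    _ = 2 ^ (Nat.clog 2 m + 1 + Nat.clog 2 t ^ 2) := by rw [← pow_add]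

private theorem fact1 {t sT aT m : ℕ} (ht : 5 ≤ t) (hs : sT ≤ t ^ Nat.clog 2 t)
    (ha : aT ≤ t ^ Nat.clog 2 t) (hm : 12 * Nat.clog 2 t ^ 2 ≤ m) :
    16 * (sT + m * aT) * t ^ (1 + (4 * Nat.clog 2 t + 2 * Nat.clog 2 m + 2)) ≤ 2 ^ m := by
  have h0 := num_linear (clog3 ht) hm
  have h1 : t ≤ 2 ^ Nat.clog 2 t := Nat.le_pow_clog (by norm_num) t
  have hX := Xle (m := m) hs ha
  generalize Nat.clog 2 t = L at *
  generalize Nat.clog 2 m = la at *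
  have h2 : t ^ (1 + (4 * L + 2 * la + 2)) ≤ 2 ^ (L * (1 + (4 * L + 2 * la + 2))) := by
    rw [pow_mul]
    exact Nat.pow_le_pow_left h1 _
  calc 16 * (sT + m * aT) * t ^ (1 + (4 * L + 2 * la + 2))
      ≤ 2 ^ 4 * 2 ^ (la + 1 + L ^ 2) * 2 ^ (L * (1 + (4 * L + 2 * la + 2))) :=
        Nat.mul_le_mul (Nat.mul_le_mul (by norm_num) hX) h2
    _ = 2 ^ (4 + (la + 1 + L ^ 2) + L * (1 + (4 * L + 2 * la + 2))) := by
        rw [← pow_add, ← pow_add]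
    _ ≤ 2 ^ m := by
        refine Nat.pow_le_pow_right (by norm_num) ?_
        nlinarith

private theorem fact2 {t m : ℕ} (ht : 5 ≤ t) (hm : 12 * Nat.clog 2 t ^ 2 ≤ m) :
    8 * t ^ (1 + (4 * Nat.clog 2 t + 2 * Nat.clog 2 m + 2)) < t ^ m := by
  have h0 := num_linear (clog3 ht) hm
  have hL := clog3 ht
  generalize Nat.clog 2 t = L at *
  generalize Nat.clog 2 m = la at *
  have h1 : 2 + (1 + (4 * L + 2 * la + 2)) ≤ m := by nlinarith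
  have hp : 0 < t ^ (1 + (4 * L + 2 * la + 2)) := by positivity
  calc 8 * t ^ (1 + (4 * L + 2 * la + 2)) < t ^ 2 * t ^ (1 + (4 * L + 2 * la + 2)) := by
        refine Nat.mul_lt_mul_of_pos_right ?_ hp
        nlinarith
    _ = t ^ (2 + (1 + (4 * L + 2 * la + 2))) := by rw [← pow_add]
    _ ≤ t ^ m := Nat.pow_le_pow_right (by omega) h1

theorem num1 {t sT aT m : ℕ} (ht : 5 ≤ t) (hs : sT ≤ t ^ Nat.clog 2 t)
    (ha : aT ≤ t ^ Nat.clog 2 t) (hm : 12 * Nat.clog 2 t ^ 2 ≤ m) :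
    2 * (sT + m * aT) * 3 ^ (m / 2) ≤ 4 ^ (m / 2) := by
  have h0 := num_linear (clog3 ht) hm
  have hL := clog3 ht
  have hX := Xle (m := m) hs ha
  have hla : 1 ≤ Nat.clog 2 m := Nat.clog_pos (by norm_num) (by have := num4 ht hm; omega)
  generalize Nat.clog 2 t = L at *
  generalize Nat.clog 2 m = la at *
  obtain ⟨k, hk⟩ : ∃ k, k = (L ^ 2 + la + 3) / 2 := ⟨_, rfl⟩
  have hk1 : la + 2 + L ^ 2 ≤ 2 * k := by omega
  have hk2 : 5 * k ≤ m / 2 := by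
    have h1 : 2 * k ≤ L ^ 2 + la + 3 := by omega
    have h2 : 5 * L ^ 2 + 5 * la + 16 ≤ m := by nlinarith
    omega
  have h1 : 2 * (sT + m * aT) ≤ 4 ^ k := by
    calc 2 * (sT + m * aT) ≤ 2 * 2 ^ (la + 1 + L ^ 2) := Nat.mul_le_mul_left _ hX
      _ = 2 ^ (la + 2 + L ^ 2) := by
          rw [← pow_succ']
          congr 1
          ring
      _ ≤ 2 ^ (2 * k) := Nat.pow_le_pow_right (by norm_num) hk1
      _ = 4 ^ k := by
          rw [pow_mul]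
          norm_num
  have h2 : 4 ^ k * 3 ^ (5 * k) ≤ 4 ^ (5 * k) := by
    calc 4 ^ k * 3 ^ (5 * k) = (4 * 3 ^ 5) ^ k := by rw [mul_pow, ← pow_mul]
      _ ≤ (4 ^ 5) ^ k := Nat.pow_le_pow_left (by norm_num) k
      _ = 4 ^ (5 * k) := by rw [← pow_mul]
  obtain ⟨r, hr⟩ := Nat.exists_eq_add_of_le hk2
  rw [hr, pow_add, pow_add]
  calc 2 * (sT + m * aT) * (3 ^ (5 * k) * 3 ^ r) ≤ 4 ^ k * (3 ^ (5 * k) * 4 ^ r) :=
        Nat.mul_le_mul h1 (Nat.mul_le_mul_left _ (Nat.pow_le_pow_left (by norm_num) r))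
    _ = 4 ^ k * 3 ^ (5 * k) * 4 ^ r := by ring
    _ ≤ 4 ^ (5 * k) * 4 ^ r := Nat.mul_le_mul_right _ h2

theorem num2 {t sT aT m : ℕ} (ht : 5 ≤ t) (hs : sT ≤ t ^ Nat.clog 2 t)
    (ha : aT ≤ t ^ Nat.clog 2 t) (hm : 12 * Nat.clog 2 t ^ 2 ≤ m) {d : ℕ}
    (hd : t ^ m ≤ 2 * d * t ^ (1 + (4 * Nat.clog 2 t + 2 * Nat.clog 2 m + 2))) :
    4 * ((sT + m * aT) * t ^ m) / 2 ^ m + 3 ≤ d := by
  by_contra hc
  have f1 := fact1 ht hs ha hm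
  have f2 := fact2 ht hm
  generalize t ^ (1 + (4 * Nat.clog 2 t + 2 * Nat.clog 2 m + 2)) = P at *
  generalize sT + m * aT = X at *
  have hl : 4 * (X * t ^ m) / 2 ^ m * 2 ^ m ≤ 4 * (X * t ^ m) := Nat.div_mul_le_self _ _
  generalize 4 * (X * t ^ m) / 2 ^ m = l at *
  have hdl : d ≤ l + 2 := by omega
  have hT : 0 < t ^ m := by positivity
  have hE : 0 < 2 ^ m := by positivity
  generalize t ^ m = T at *
  generalize 2 ^ m = E at *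
  have h1 : T ≤ 2 * (l + 2) * P := le_trans hd (Nat.mul_le_mul_right _ (by omega))
  have h2 : 2 * (E * T) ≤ 16 * X * P * T + E * (8 * P) := by
    calc 2 * (E * T) ≤ 2 * (E * (2 * (l + 2) * P)) :=
          Nat.mul_le_mul_left _ (Nat.mul_le_mul_left _ h1)
      _ = 4 * (l * E) * P + E * (8 * P) := by ring
      _ ≤ 4 * (4 * (X * T)) * P + E * (8 * P) :=
          Nat.add_le_add_right (Nat.mul_le_mul_right _ (Nat.mul_le_mul_left _ hl)) _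
      _ = 16 * X * P * T + E * (8 * P) := by ring
  have h3 : 16 * X * P * T ≤ E * T := Nat.mul_le_mul_right _ f1
  have h4 : E * (8 * P) < E * T := Nat.mul_lt_mul_of_pos_left f2 hE
  omega

theorem num3 {t sT aT m : ℕ} (ht : 5 ≤ t) (hs : sT ≤ t ^ Nat.clog 2 t)
    (ha : aT ≤ t ^ Nat.clog 2 t) (hm : 12 * Nat.clog 2 t ^ 2 ≤ m) :
    4 * (4 * ((sT + m * aT) * t ^ m) / 2 ^ m) + 8 ≤ t ^ m := by
  have f1 := fact1 ht hs ha hm
  have h2 : 2 ≤ t ^ (1 + (4 * Nat.clog 2 t + 2 * Nat.clog 2 m + 2)) := by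
    calc 2 ≤ t ^ 1 := by rw [pow_one]; omega
      _ ≤ _ := Nat.pow_le_pow_right (by omega) (by omega)
  have h16 : 16 ≤ t ^ m := by
    have := num4 ht hm
    calc 16 ≤ t ^ 2 := by nlinarith
      _ ≤ t ^ m := Nat.pow_le_pow_right (by omega) (by omega)
  generalize t ^ (1 + (4 * Nat.clog 2 t + 2 * Nat.clog 2 m + 2)) = P at *
  generalize sT + m * aT = X at *
  have hl : 4 * (X * t ^ m) / 2 ^ m * 2 ^ m ≤ 4 * (X * t ^ m) := Nat.div_mul_le_self _ _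
  generalize 4 * (X * t ^ m) / 2 ^ m = l at *
  have hE : 0 < 2 ^ m := by positivity
  generalize t ^ m = T at *
  generalize 2 ^ m = E at *
  have h3 : 32 * X ≤ E := by
    calc 32 * X = 16 * X * 2 := by ring
      _ ≤ 16 * X * P := Nat.mul_le_mul_left _ h2
      _ ≤ E := f1
  have h4 : E * (8 * l) ≤ E * T := by
    calc E * (8 * l) = 8 * (l * E) := by ring
      _ ≤ 8 * (4 * (X * T)) := Nat.mul_le_mul_left _ hl
      _ = 32 * X * T := by ring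
      _ ≤ E * T := Nat.mul_le_mul_right _ h3
  have h5 : 8 * l ≤ T := Nat.le_of_mul_le_mul_left h4 hE
  omega

end HG17
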