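import Pool.Agent.HG17.Gens

/-!
# HG17/SubCard: number of subgroups and automorphisms (PROVE ME, 40-70 lines)

`card_subgroup_le`: by `exists_gens` the map v |-> closure (range v) from
(Fin (clog 2 (card T)) -> T) to Subgroup T is surjective (Nat.card_le_card_of_surjective,
Nat.card_fun / Nat.card_pi, Nat.card_fin).
`card_aut_le`: take v with closure (range v) = top; the map phi |-> phi o v from MulAut T is
injective (two homomorphisms equal on a generating set are equal: MonoidHom.eqOn_closure or
MonoidHom.eq_of_eqOn_dense); Nat.card_le_card_of_injective.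
`five_le_card`: a group of order 1, 2, 3 is cyclic (isCyclic_of_prime_card, or trivial), of order
4 = 2^2 commutative (IsPGroup.commutative_of_card_eq_prime_sq / IsPGroup.commGroupOfCardEqPrimeSq),
so card T >= 5. (Or: 1, a, b, a*b, b*a are five distinct elements if a*b <> b*a.)
Do not change the statements.
-/

namespace HG17

theorem card_subgroup_le (T : Type*) [Group T] [Finite T] :
    Nat.card (Subgroup T) ≤ Nat.card T ^ Nat.clog 2 (Nat.card T) := by
  have h : Function.Surjective
      (fun v : Fin (Nat.clog 2 (Nat.card T)) → T => Subgroup.closure (Set.range v)) := by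
    intro H
    obtain ⟨v, hv⟩ := exists_gens H
    exact ⟨v, hv⟩
  have h2 := Nat.card_le_card_of_surjective _ h
  rwa [Nat.card_fun, Nat.card_fin] at h2

theorem card_aut_le (T : Type*) [Group T] [Finite T] :
    Nat.card (MulAut T) ≤ Nat.card T ^ Nat.clog 2 (Nat.card T) := by
  obtain ⟨v, hv⟩ := exists_gens (⊤ : Subgroup T)
  have h : Function.Injective
      (fun (φ : MulAut T) (i : Fin (Nat.clog 2 (Nat.card T))) => φ (v i)) := by
    intro φ ψ hφ
    have he : Set.EqOn (φ.toMonoidHom) (ψ.toMonoidHom) (Set.range v) := by
      rintro _ ⟨i, rfl⟩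
      exact congrFun hφ i
    have := MonoidHom.eq_of_eqOn_dense hv he
    apply MulEquiv.ext
    intro x
    exact DFunLike.congr_fun this x
  have h2 := Nat.card_le_card_of_injective _ h
  rwa [Nat.card_fun, Nat.card_fin] at h2

theorem five_le_card {T : Type*} [Group T] [Finite T] (hT : ∃ a b : T, a * b ≠ b * a) :
    5 ≤ Nat.card T := by
  by_contra hlt
  push Not at hlt
  obtain ⟨a, b, hab⟩ := hT
  apply hab
  have hpos : 0 < Nat.card T := Nat.card_pos
  have hcyc : IsCyclic T → a * b = b * a := by
    intro h
    letI := h.commGroup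
    exact mul_comm a b
  interval_cases h : Nat.card T
  · have := (Nat.card_eq_one_iff_unique.1 h).1
    exact Subsingleton.elim _ _
  · haveI : Fact (Nat.Prime 2) := ⟨Nat.prime_two⟩
    exact hcyc (isCyclic_of_prime_card h)
  · haveI : Fact (Nat.Prime 3) := ⟨Nat.prime_three⟩
    exact hcyc (isCyclic_of_prime_card h)
  · haveI : Fact (Nat.Prime 2) := ⟨Nat.prime_two⟩
    have h4 : Nat.card T = 2 ^ 2 := by rw [h]; norm_num
    exact IsPGroup.commutative_of_card_eq_prime_sq h4 a b

end HG17
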