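import Pool.Agent.HG17.DdSmall
import Pool.Agent.HG17.DdLarge
import Pool.Agent.HG17.MovRed
import Pool.Agent.HG17.Low
import Pool.Agent.HG17.Nbr
import Pool.Agent.HG17.SubCard
import Pool.Agent.HG17.NumB
import Pool.Agent.HG17.DDefs

/-!
# Assembly: the data satisfy the hypotheses of the graph part
-/

namespace HG17

namespace Dat

variable {G : Type*} [Group G] {T : Type*} [Group T] {N : Subgroup G} [N.Normal] {m : ℕ}
variable (D : Dat T N m)

/-- elements fixing the factors have many partners -/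
theorem dd_fixing [Finite G] [Finite T] [IsSimpleGroup T] (hT : ∃ a b : T, a * b ≠ b * a)
    (hm : 2 ≤ m) {x y : G} {l : ℤ} (hx : x ∈ co N D.g (m * l)) (h : Gen x y) :
    Nat.card T ^ m ≤ 2 * dd N D.g x *
      Nat.card T ^ (1 + (4 * Nat.clog 2 (Nat.card T) + 2 * Nat.clog 2 m + 2)) := by
  obtain ⟨z0, hz0, hgen⟩ := D.exists_partner h
  have hpos : 0 < Nat.card T := Nat.card_pos
  rcases Nat.lt_or_ge (4 * Nat.clog 2 (Nat.card T) + 2 * Nat.clog 2 m + 2)
    (D.mov x l).ncard with hY | hY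
  · refine (D.dd_large hT hm hx hz0 hgen hY).trans ?_
    apply Nat.mul_le_mul_left
    exact Nat.pow_le_pow_right hpos (by omega)
  · refine (D.dd_small hT hm hx hz0 hgen).trans ?_
    apply Nat.mul_le_mul
    · omega
    · exact Nat.pow_le_pow_right hpos (by omega)

/-- the bound `l` for the number of elements with few partners -/
noncomputable def ell (_ : Dat T N m) : ℕ :=
  4 * ((Nat.card (Subgroup T) + m * Nat.card (MulAut T)) * Nat.card T ^ m) / 2 ^ m

theorem dd_all [Finite G] [Finite T] [IsSimpleGroup T] (hT : ∃ a b : T, a * b ≠ b * a)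
    (hm : 12 * Nat.clog 2 (Nat.card T) ^ 2 ≤ m) (hiso : ∀ x : G, x ≠ 1 → ∃ y, Gen x y)
    (x : G) (hx : x ≠ 1) : D.ell + 3 ≤ dd N D.g x := by
  have h5 := five_le_card hT
  have h4 := num4 h5 hm
  have hs := card_subgroup_le T
  have ha := card_aut_le T
  have hpos : 0 < Nat.card T := Nat.card_pos
  apply num2 h5 hs ha hm
  obtain ⟨i, hi⟩ := D.cov x
  by_cases hd : (m : ℤ) ∣ i
  · obtain ⟨l, rfl⟩ := hd
    obtain ⟨y, hy⟩ := hiso x hx
    exact D.dd_fixing hT (by omega) hi hy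
  · have h1 := D.dd_moving hT (by omega) (by omega) (num1 h5 hs ha hm) hi hd
    rw [D.card_N] at h1
    refine h1.trans ?_
    exact Nat.le_mul_of_pos_right _ (Nat.pow_pos hpos)

include D in
theorem not_gen_one [IsSimpleGroup T] (hT : ∃ a b : T, a * b ≠ b * a) (hm : 0 < m) (x : G) :
    ¬ Gen x 1 := by
  intro h
  obtain ⟨a, b, hab⟩ := hT
  obtain ⟨r, hr⟩ := D.P_onto hm 0 a
  obtain ⟨s, hs⟩ := D.P_onto hm 0 b
  have h1 : Subgroup.zpowers x = ⊤ := by
    rw [eq_top_iff, ← show Subgroup.closure ({x, 1} : Set G) = ⊤ from h, Subgroup.closure_le]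
    rintro y (rfl | rfl)
    · exact Subgroup.mem_zpowers y
    · exact one_mem _
  have h2 : ∀ u v : G, u * v = v * u := by
    intro u v
    have hu : u ∈ Subgroup.zpowers x := by rw [h1]; trivial
    have hv : v ∈ Subgroup.zpowers x := by rw [h1]; trivial
    obtain ⟨i, rfl⟩ := Subgroup.mem_zpowers_iff.1 hu
    obtain ⟨j, rfl⟩ := Subgroup.mem_zpowers_iff.1 hv
    rw [← zpow_add, ← zpow_add, add_comm]
  apply hab
  rw [← hr, ← hs, ← map_mul, ← map_mul]
  congr 1
  exact Subtype.ext (h2 r s)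

theorem dense [Finite G] [Finite T] [IsSimpleGroup T] (hT : ∃ a b : T, a * b ≠ b * a)
    (hm : 12 * Nat.clog 2 (Nat.card T) ^ 2 ≤ m) (hiso : ∀ x : G, x ≠ 1 → ∃ y, Gen x y) :
    ∃ n, Dense N D.g n D.ell := by
  have h5 := five_le_card hT
  have h4 := num4 h5 hm
  have hs := card_subgroup_le T
  have ha := card_aut_le T
  refine ⟨orderOf (QuotientGroup.mk' N D.g), ?_⟩
  have hord : ∀ j : ℤ, D.g ^ j ∈ N ↔ ((orderOf (QuotientGroup.mk' N D.g) : ℕ) : ℤ) ∣ j := by
    intro j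
    rw [orderOf_dvd_iff_zpow_eq_one, ← map_zpow, QuotientGroup.mk'_apply,
      QuotientGroup.eq_one_iff]
  have hn0 : 0 < orderOf (QuotientGroup.mk' N D.g) := orderOf_pos _
  have hmn : (m : ℤ) ∣ ((orderOf (QuotientGroup.mk' N D.g) : ℕ) : ℤ) :=
    D.dvd_of_zpow_mem (by omega) ((hord _).2 dvd_rfl)
  have hmn' : m ≤ orderOf (QuotientGroup.mk' N D.g) :=
    Nat.le_of_dvd hn0 (Int.natCast_dvd_natCast.1 hmn)
  refine ⟨h4.trans hmn', hord, D.cov, D.not_gen_one hT (by omega), D.dd_all hT hm hiso, ?_, ?_⟩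
  · intro i
    rw [ell, Nat.le_div_iff_mul_le (by positivity), mul_comm]
    exact D.low_card hT (by omega) (by omega) i
  · rw [D.card_N]
    exact num3 h5 hs ha hm

end Dat

end HG17
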