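import Pool.Agent.HG17.Xi

/-!
# HG17/L1a: if x and z generate, the actions generate all inner automorphisms (PROVE ME, 60-100 lines)

Proof. Let B be the closure, F = D.frame z hz (so F.g = z), P k = F.P k. Define the subgroup
H = {h in G | there is j : Z such that for all k : Z there is theta in B with
P k (conjNormal h r) = theta (P (k - j) r) for all r in N}.
1 in H: j = 0, theta = 1. Products: h with (j, theta_k), h' with (j', theta'_k): conjNormal (h * h') r =
conjNormal h (conjNormal h' r), so theta_k * theta'_(k-j) works for h h' with j + j'. Inverses: in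
P k (conjNormal h r) = theta_k (P (k - j) r) put r = conjNormal h^-1 r': P (k - j) (conjNormal h^-1 r') =
theta_k^-1 (P k r'); so -j and theta_(k+j)^-1 work for h^-1.
z in H: j = 1, theta = 1 (P_conj with F, F.g = z). x in H: j = m l and theta_k = xiz x l z k * (az z)^(-l):
xiz_act, and P (k - m l) r = (az z)^l (P k r) (P_per_mul for F, frame_a); it is in B.
So H = top by h. Let t in T. Take n in N with P 0 n = t (P_onto for F). From (n : G) in H, j, k = 0: there is
theta in B with P 0 (conjNormal n r) = theta (P (0 - j) r) for all r, and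
P 0 (conjNormal n r) = t * P 0 r * t^-1 (conjNormal by an element n of N is n * r * n^-1 in N). If m does not
divide j then P_indep (for F; 0 - (0 - j) = j) gives r with P (0 - j) r = 1 and P 0 r <> 1 (T nontrivial),
contradiction. So j = m j', P (0 - j) r = (az z)^j' (P 0 r), conj t (P 0 r) = (theta * (az z)^j') (P 0 r) for all
r, P 0 is onto, so conj t = theta * (az z)^j' in B. Do not change the statement.
-/

namespace HG17

namespace Dat

variable {G : Type*} [Group G] {T : Type*} [Group T] {N : Subgroup G} [N.Normal] {m : ℕ}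
variable (D : Dat T N m)

theorem inn_le [Nontrivial T] (hm : 0 < m) {x z : G} {l : ℤ} (hx : x ∈ co N D.g (m * l))
    (hz : z ∈ co N D.g 1) (h : Gen x z) :
    (MulAut.conj : T →* MulAut T).range ≤
      Subgroup.closure ({D.az z} ∪ Set.range (fun k : ℤ => D.xiz x l z k)) := by
  obtain ⟨B, hB⟩ : ∃ B, B = Subgroup.closure ({D.az z} ∪ Set.range (fun k : ℤ => D.xiz x l z k)) :=
    ⟨_, rfl⟩
  rw [← hB]
  have haB : D.az z ∈ B := by
    rw [hB]
    exact Subgroup.subset_closure (Or.inl rfl)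
  have hxB : ∀ k : ℤ, D.xiz x l z k ∈ B := by
    intro k
    rw [hB]
    exact Subgroup.subset_closure (Or.inr ⟨k, rfl⟩)
  obtain ⟨F, hF⟩ : ∃ F, F = D.frame z hz := ⟨_, rfl⟩
  have hFg : F.g = z := by rw [hF]; rfl
  have hFa : F.a = D.az z := by rw [hF]; rfl
  let H : Subgroup G :=
    { carrier := {h | ∃ j : ℤ, ∀ k : ℤ, ∃ θ ∈ B, ∀ r : N,
        F.P k (MulAut.conjNormal h r) = θ (F.P (k - j) r)}
      mul_mem' := by
        rintro h1 h2 ⟨j1, hj1⟩ ⟨j2, hj2⟩
        refine ⟨j1 + j2, fun k => ?_⟩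
        obtain ⟨θ1, hθ1, e1⟩ := hj1 k
        obtain ⟨θ2, hθ2, e2⟩ := hj2 (k - j1)
        refine ⟨θ1 * θ2, B.mul_mem hθ1 hθ2, fun r => ?_⟩
        rw [map_mul, MulAut.mul_apply, e1, e2, MulAut.mul_apply, sub_sub]
      one_mem' := by
        refine ⟨0, fun k => ⟨1, B.one_mem, fun r => ?_⟩⟩
        rw [map_one, sub_zero]
        rfl
      inv_mem' := by
        rintro h1 ⟨j, hj⟩
        refine ⟨-j, fun k => ?_⟩
        obtain ⟨θ, hθ, e⟩ := hj (k + j)
        refine ⟨θ⁻¹, B.inv_mem hθ, fun r => ?_⟩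
        have e1 := e (MulAut.conjNormal h1⁻¹ r)
        rw [map_inv, MulAut.apply_inv_self, add_sub_cancel_right] at e1
        rw [map_inv, sub_neg_eq_add, e1, MulAut.inv_apply_self] }
  have hzH : z ∈ H := by
    refine ⟨1, fun k => ⟨1, B.one_mem, fun r => ?_⟩⟩
    have := F.P_conj 1 k r
    rw [zpow_one, hFg] at this
    exact this
  have hxH : x ∈ H := by
    refine ⟨m * l, fun k => ⟨D.xiz x l z k * (D.az z) ^ (-l),
      B.mul_mem (hxB k) (B.zpow_mem haB _), fun r => ?_⟩⟩
    have h1 := D.xiz_act hx hz k r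
    rw [← hF] at h1
    rw [h1, MulAut.mul_apply, F.P_per_mul, hFa, zpow_neg, MulAut.inv_apply_self]
  have hH : H = ⊤ := by
    have h' : Subgroup.closure {x, z} = ⊤ := h
    rw [eq_top_iff, ← h', Subgroup.closure_le]
    rintro w (rfl | rfl)
    · exact hxH
    · exact hzH
  rintro _ ⟨t, rfl⟩
  obtain ⟨n, hn⟩ := F.P_onto hm 0 t
  have hnH : (n : G) ∈ H := by rw [hH]; exact Subgroup.mem_top _
  obtain ⟨j, hj⟩ := hnH
  obtain ⟨θ, hθ, e⟩ := hj 0
  have e2 : ∀ r : N, t * F.P 0 r * t⁻¹ = θ (F.P (0 - j) r) := by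
    intro r
    rw [← e r, ← hn, ← map_inv, ← map_mul, ← map_mul]
    rfl
  have hdiv : (m : ℤ) ∣ j := by
    by_contra hnd
    obtain ⟨s, hs⟩ := exists_ne (1 : T)
    obtain ⟨r, hr1, hr2⟩ := F.P_indep hm (k := 0) (l := 0 - j) (by
      rw [sub_sub_cancel]
      exact hnd) s 1
    have h1 := e2 r
    rw [hr1, hr2, map_one] at h1
    apply hs
    have h2 : t * s = t := by
      have := mul_inv_eq_one.1 h1
      exact this
    simpa using h2
  obtain ⟨j', hj'⟩ := hdiv
  have e3 : MulAut.conj t = θ * (D.az z) ^ j' := by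
    ext u
    obtain ⟨r, rfl⟩ := F.P_onto hm 0 u
    rw [MulAut.conj_apply, e2 r, hj', F.P_per_mul, hFa]
    rfl
  rw [e3]
  exact B.mul_mem hθ (B.zpow_mem haB _)

end Dat

end HG17
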