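import Pool.Agent.HG17.Coord

/-!
# HG17/L2P: coordinates in a proper subgroup, x moving the factors
-/

namespace HG17

namespace Dat

variable {G : Type*} [Group G] {T : Type*} [Group T] {N : Subgroup G} [N.Normal] {m : ℕ}
variable (D : Dat T N m)

theorem card_filter_le_fin (m i0 : ℕ) :
    (Finset.univ.filter (fun j : Fin m => i0 ≤ (j : ℕ))).card = m - i0 := by
  rw [← Nat.card_Ico i0 m]
  refine Finset.card_bij (fun j _ => (j : ℕ)) ?_ ?_ ?_
  · intro j hj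
    rw [Finset.mem_filter] at hj
    exact Finset.mem_Ico.2 ⟨hj.2, j.2⟩
  · intro a _ b _ hab
    exact Fin.ext hab
  · intro b hb
    rw [Finset.mem_Ico] at hb
    exact ⟨⟨b, hb.2⟩, Finset.mem_filter.2 ⟨Finset.mem_univ _, hb.1⟩, rfl⟩

theorem l2P [Finite G] [Finite T] {x : G} {i0 : ℕ} {l : ℤ}
    (hx : x ∈ co N D.g ((i0 : ℤ) + m * l)) (h1 : 1 ≤ i0) (h2 : i0 < m) (K0 : Subgroup T)
    (hK : K0 ≠ ⊤) :
    2 ^ (m - i0) *
      {z | z ∈ co N D.g 1 ∧ ∀ k : ℤ, D.xh x ((i0 : ℤ) + m * l) z k ∈ K0}.ncard ≤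
        Nat.card T ^ m := by
  classical
  have hK2 : 2 * Nat.card K0 ≤ Nat.card T := by
    have h3 := K0.card_mul_index
    have h4 : K0.index ≠ 1 := fun h => hK (Subgroup.index_eq_one.1 h)
    have h5 : K0.index ≠ 0 := Subgroup.index_ne_zero_of_finite
    have h6 : 2 ≤ K0.index := by omega
    calc 2 * Nat.card K0 ≤ K0.index * Nat.card K0 := Nat.mul_le_mul_right _ h6
      _ = Nat.card T := by rw [mul_comm]; exact h3
  have key := D.seq_z (by omega)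
    {z | z ∈ co N D.g 1 ∧ ∀ k : ℤ, D.xh x ((i0 : ℤ) + m * l) z k ∈ K0}
    (fun z hz => hz.1) (Finset.univ.filter (fun j : Fin m => i0 ≤ (j : ℕ)))
    (fun j => (j : ℕ)) (fun _ => 2) (fun _ => 1) ?_
  · simpa [Finset.prod_const, card_filter_le_fin] using key
  intro j hj z0 hz0
  have hj' : i0 ≤ (j : ℕ) := (Finset.mem_filter.1 hj).2
  rw [one_mul]
  refine le_trans (Nat.mul_le_mul_left 2 ?_) hK2
  by_cases hne : {v | ∃ z ∈ {z | z ∈ co N D.g 1 ∧
      ∀ k : ℤ, D.xh x ((i0 : ℤ) + m * l) z k ∈ K0},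
      (∀ k : Fin m, (k : ℕ) < (j : ℕ) → D.crd z k = D.crd z0 k) ∧ D.crd z j = v}.Nonempty
  · obtain ⟨v', z', hz', hag', hv'⟩ := hne
    have hsub : {v | ∃ z ∈ {z | z ∈ co N D.g 1 ∧
        ∀ k : ℤ, D.xh x ((i0 : ℤ) + m * l) z k ∈ K0},
        (∀ k : Fin m, (k : ℕ) < (j : ℕ) → D.crd z k = D.crd z0 k) ∧ D.crd z j = v} ⊆
        (fun t => v' * t) '' (K0 : Set T) := by
      rintro v ⟨z, hz, hag, hv⟩
      have hjpos : 0 < (j : ℕ) := by omega
      obtain ⟨e1, e2⟩ := D.agree hz.1 hz'.1 j hjpos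
        (fun k hk => (hag k hk).trans (hag' k hk).symm)
      have hz1 := hz.2 ((j : ℕ) : ℤ)
      have hz2 := hz'.2 ((j : ℕ) : ℤ)
      rw [D.xh_eq hx hz.1] at hz1
      rw [D.xh_eq hx hz'.1] at hz2
      have hsplit : (((j : ℕ) : ℤ) - ((i0 : ℤ) + m * l)) = ((((j : ℕ) : ℤ) - i0) - m * l) := by
        ring
      have hw : D.eta z (((j : ℕ) : ℤ) - ((i0 : ℤ) + m * l)) =
          D.eta z' (((j : ℕ) : ℤ) - ((i0 : ℤ) + m * l)) := by
        rw [hsplit, D.eta_sub_mul hz.1, D.eta_sub_mul hz'.1]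
        have a1 := e1 (((j : ℕ) : ℤ) - i0) (by omega) (by omega)
        have a2 := e2 (-l)
        rw [a1]
        congr 1
        rwa [mul_neg] at a2
      rw [hw] at hz1
      rw [D.crd_pos z (by omega)] at hv
      rw [D.crd_pos z' (by omega)] at hv'
      refine ⟨v'⁻¹ * v, ?_, by group⟩
      have h3 := K0.mul_mem hz2 (K0.inv_mem hz1)
      rw [hv, hv'] at *
      have e3 : v'⁻¹ * v = v'⁻¹ * D.P ((j : ℕ) : ℤ) ⟨x * D.g ^ (-((i0 : ℤ) + m * l)), hx⟩ *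
          D.eta z' (((j : ℕ) : ℤ) - ((i0 : ℤ) + m * l)) *
          (v⁻¹ * D.P ((j : ℕ) : ℤ) ⟨x * D.g ^ (-((i0 : ℤ) + m * l)), hx⟩ *
          D.eta z' (((j : ℕ) : ℤ) - ((i0 : ℤ) + m * l)))⁻¹ := by
        group
      rw [SetLike.mem_coe, e3]
      exact h3
    calc _ ≤ ((fun t => v' * t) '' (K0 : Set T)).ncard :=
          Set.ncard_le_ncard hsub (Set.toFinite _)
      _ = (K0 : Set T).ncard := Set.ncard_image_of_injective _ (mul_right_injective _)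
      _ = Nat.card K0 := rfl
  · rw [Set.not_nonempty_iff_eq_empty] at hne
    have : {v | ∃ z ∈ {z | z ∈ co N D.g 1 ∧
      ∀ k : ℤ, D.xh x ((i0 : ℤ) + m * l) z k ∈ K0},
      (∀ k : Fin m, (k : ℕ) < (j : ℕ) → D.crd z k = D.crd z0 k) ∧ D.crd z j = v}.ncard = 0 := by
      rw [hne, Set.ncard_empty]
    rw [this]
    exact Nat.zero_le _

end Dat

end HG17
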