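import Pool.Agent.HG17.Xi

/-!
# HG17/MovHalf: a relation makes the set of moved factors periodic (PROVE ME, 30-60 lines)

Proof. Let s = m / q; 0 < s, 2 s <= m (q * s = m, q >= 2). xiz x l z k = 1 iff xiz x l g k = 1 (xiz_eq), and by
h: xiz x l z k = 1 iff xiz x l z (k - s) = 1. So for k in Fin m with k < s: k in mov iff k + s in mov.
The elements k of mov with k < s inject by k |-> k + s (< m) into the elements of mov with s <= k.
Hence card mov <= 2 * card {k in mov | s <= k}. Do not change the statement.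
-/

namespace HG17

namespace Dat

variable {G : Type*} [Group G] {T : Type*} [Group T] {N : Subgroup G} [N.Normal] {m : ℕ}
variable (D : Dat T N m)

theorem mov_half (hm : 2 ≤ m) {x z : G} {l : ℤ} (hx : x ∈ co N D.g (m * l))
    (hz : z ∈ co N D.g 1) {q : ℕ} (hq : q.Prime) (hqm : q ∣ m) (ψ : MulAut T)
    (h : ∀ k : ℤ, D.xiz x l z k = ψ * D.xiz x l z (k - (m / q : ℕ)) * ψ⁻¹) :
    (D.mov x l).ncard ≤ 2 * {k : Fin m | k ∈ D.mov x l ∧ m / q ≤ (k : ℕ)}.ncard := by
  classical
  obtain ⟨s, hs⟩ : ∃ s, s = m / q := ⟨_, rfl⟩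
  rw [← hs] at h ⊢
  have hqs : q * s = m := by rw [hs]; exact Nat.mul_div_cancel' hqm
  have hs2 : 2 * s ≤ m := by
    rw [← hqs]
    exact Nat.mul_le_mul_right _ hq.two_le
  have hz1 : ∀ k : ℤ, D.xiz x l z k = 1 ↔ D.xiz x l D.g k = 1 := by
    intro k
    rw [D.xiz_eq (by omega) hx hz k]
    constructor
    · intro h1
      have h2 : D.xiz x l D.g k * MulAut.conj (D.eta z k) = MulAut.conj (D.eta z k) := by
        rw [mul_assoc] at h1
        have := eq_inv_of_mul_eq_one_right h1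
        rwa [inv_inv] at this
      simpa using h2
    · intro h1
      rw [h1, mul_one, inv_mul_cancel]
  have hper : ∀ k : ℤ, D.xiz x l D.g k = 1 ↔ D.xiz x l D.g (k - s) = 1 := by
    intro k
    rw [← hz1, ← hz1, h k]
    constructor
    · intro h1
      have h2 := mul_inv_eq_one.1 h1
      simpa using h2
    · intro h1
      rw [h1, mul_one, mul_inv_cancel]
  have hsub : D.mov x l ⊆ {k : Fin m | k ∈ D.mov x l ∧ s ≤ (k : ℕ)} ∪
      {k : Fin m | k ∈ D.mov x l ∧ (k : ℕ) < s} := by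
    intro k hk
    by_cases h1 : s ≤ (k : ℕ)
    · exact Or.inl ⟨hk, h1⟩
    · exact Or.inr ⟨hk, by omega⟩
  have hle : {k : Fin m | k ∈ D.mov x l ∧ (k : ℕ) < s}.ncard ≤
      {k : Fin m | k ∈ D.mov x l ∧ s ≤ (k : ℕ)}.ncard := by
    refine Set.ncard_le_ncard_of_injOn
      (fun k : Fin m => if hk : (k : ℕ) + s < m then (⟨(k : ℕ) + s, hk⟩ : Fin m) else k) ?_ ?_
      (Set.toFinite _)
    · rintro k ⟨hk1, hk2⟩
      have hk3 : (k : ℕ) + s < m := by omega
      rw [dif_pos hk3]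
      refine ⟨?_, by simp⟩
      show D.xiz x l D.g (((k : ℕ) + s : ℕ) : ℤ) ≠ 1
      intro h1
      apply hk1
      have h2 := (hper (((k : ℕ) + s : ℕ) : ℤ)).1 h1
      push_cast at h2
      rwa [add_sub_cancel_right] at h2
    · rintro k ⟨hk1, hk2⟩ k' ⟨hk1', hk2'⟩ hkk
      have hk3 : (k : ℕ) + s < m := by omega
      have hk3' : (k' : ℕ) + s < m := by omega
      simp only [dif_pos hk3, dif_pos hk3', Fin.mk.injEq] at hkk
      exact Fin.ext (by omega)
  calc (D.mov x l).ncard ≤ _ := Set.ncard_le_ncard hsub (Set.toFinite _)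
    _ ≤ _ := Set.ncard_union_le _ _
    _ ≤ _ := by omega

end Dat

end HG17
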