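import Mathlib

/-!
# HG17/NumA: a linear inequality
-/

namespace HG17

private theorem num_pow {n : ℕ} (hn : 8 ≤ n) : 11 * n ^ 2 + 34 * n + 50 ≤ 9 * 2 ^ (n - 1) := by
  induction n, hn using Nat.le_induction with
  | base => norm_num
  | succ k hk ih =>
    obtain ⟨j, rfl⟩ : ∃ j, k = j + 1 := ⟨k - 1, by omega⟩
    rw [Nat.add_sub_cancel] at ih ⊢
    have h2 : (2 : ℕ) ^ (j + 1) = 2 * 2 ^ j := by ring
    rw [h2]
    nlinarith

theorem num_linear {L m : ℕ} (hL : 3 ≤ L) (hm : 12 * L ^ 2 ≤ m) :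
    5 * L ^ 2 + 3 * L + 5 + (2 * L + 1) * Nat.clog 2 m ≤ m := by
  have hm1 : 1 < m := by nlinarith
  have hlt : 2 ^ (Nat.clog 2 m - 1) < m := Nat.pow_pred_clog_lt_self (by norm_num) hm1
  generalize Nat.clog 2 m = n at *
  rcases Nat.lt_or_ge (3 * L) (n + 2) with h | h
  · have hn : 8 ≤ n := by omega
    have h1 := num_pow hn
    have h3 : 3 * L ≤ n + 1 := by omega
    nlinarith [Nat.mul_le_mul h3 h3, Nat.mul_le_mul_right n h3]
  · nlinarith [Nat.mul_le_mul_left L h]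

end HG17
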