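import Pool.Agent.HG17.DDefs
import Pool.Agent.HG17.Deg
import Pool.Agent.HG17.BipPath
import Pool.Agent.HG17.GenPath

/-!
# HG17/Pieces: Hamiltonian paths of pairs of cosets
-/

namespace HG17

variable {G : Type*} [Group G] {N : Subgroup G} [N.Normal] {g : G} {n l : ℕ}

theorem Dense.mem_co_iff_dvd (H : Dense N g n l) {x : G} {i : ℤ} (hx : x ∈ co N g i) (j : ℤ) :
    x ∈ co N g j ↔ (n : ℤ) ∣ i - j := by
  constructor
  · intro h
    exact (H.ord _).1 (zpow_mem_of_mem_co hx h)
  · intro h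
    exact mem_co_of_zpow_mem hx ((H.ord _).2 h)

theorem Dense.one_mem_co (H : Dense N g n l) (i : ℤ) :
    (1 : G) ∈ co N g i ↔ (n : ℤ) ∣ i := by
  have h0 : (1 : G) ∈ co N g 0 := by rw [co_zero]; exact N.one_mem
  rw [H.mem_co_iff_dvd h0 i, zero_sub, dvd_neg]

theorem Dense.disj (H : Dense N g n l) (i : ℤ) :
    Disjoint (co N g i) (co N g (i + 1)) := by
  rw [Set.disjoint_left]
  intro x hx hx'
  have := (H.mem_co_iff_dvd hx (i + 1)).1 hx'
  have h4 := H.four
  have h1 : (n : ℤ) ∣ 1 := by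
    have e : i - (i + 1) = -1 := by ring
    rw [e, dvd_neg] at this
    exact this
  have := Int.le_of_dvd (by norm_num) h1
  omega

theorem Dense.pieceA [Finite G] (H : Dense N g n l) {i : ℤ} (h0 : ¬ (n : ℤ) ∣ i)
    (h1 : ¬ (n : ℤ) ∣ i + 1) {u w : G} (hu : u ∈ co N g i) (hw : w ∈ co N g (i + 1)) :
    HamP Gen (co N g i ∪ co N g (i + 1)) u w := by
  have ne0 : ∀ x ∈ co N g i, x ≠ 1 := by
    rintro x hx rfl
    exact h0 ((H.one_mem_co i).1 hx)
  have ne1 : ∀ x ∈ co N g (i + 1), x ≠ 1 := by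
    rintro x hx rfl
    exact h1 ((H.one_mem_co (i + 1)).1 hx)
  have eX : ∀ x ∈ co N g i, dg Gen (co N g (i + 1)) x = dd N g x := fun x hx => dg_succ N g hx
  have eY : ∀ y ∈ co N g (i + 1), dg Gen (co N g i) y = dd N g y := by
    intro y hy
    have := dg_pred N g hy
    rwa [add_sub_cancel_right] at this
  have key := bip_path (R := Gen) (fun a b h => gen_comm.1 h) (Set.toFinite (co N g i))
    (Set.toFinite (co N g (i + 1))) (H.disj i) (card_co N g (i + 1)) H.big
    (fun x hx => by rw [eX x hx]; exact H.deg x (ne0 x hx))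
    (fun y hy => by rw [eY y hy]; exact H.deg y (ne1 y hy))
    (by
      have := H.low i
      refine le_trans (Set.ncard_le_ncard ?_ (Set.toFinite _)) this
      rintro x ⟨hx, h⟩
      rw [eX x hx] at h
      exact ⟨hx, h⟩)
    (by
      have := H.low (i + 1)
      refine le_trans (Set.ncard_le_ncard ?_ (Set.toFinite _)) this
      rintro x ⟨hx, h⟩
      rw [eY x hx] at h
      exact ⟨hx, h⟩)
  exact key.1 (card_co N g i) u hu w hw

theorem Dense.pieceB [Finite G] (H : Dense N g n l) {u w : G} (hu : u ∈ co N g 1)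
    (hw : w ∈ co N g 1) (huw : u ≠ w) :
    HamP Gen ((co N g 0 \ {1}) ∪ co N g 1) u w := by
  have h1 : ¬ (n : ℤ) ∣ 1 := by
    intro h
    have := Int.le_of_dvd (by norm_num) h
    have := H.four
    omega
  have ne1 : ∀ x ∈ co N g 1, x ≠ 1 := by
    rintro x hx rfl
    exact h1 ((H.one_mem_co 1).1 hx)
  have m1 : (1 : G) ∈ co N g 0 := by rw [co_zero]; exact N.one_mem
  have eX : ∀ x ∈ co N g 0, dg Gen (co N g 1) x = dd N g x := by
    intro x hx
    have := dg_succ N g hx
    rwa [zero_add] at this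
  have eY : ∀ y ∈ co N g 1, dg Gen (co N g 0 \ {1}) y = dd N g y := by
    intro y hy
    have h2 := dg_pred N g hy
    rw [sub_self] at h2
    rw [← h2]
    unfold dg
    congr 1
    ext z
    constructor
    · rintro ⟨⟨hz, _⟩, h⟩
      exact ⟨hz, h⟩
    · rintro ⟨hz, h⟩
      refine ⟨⟨hz, ?_⟩, h⟩
      rintro rfl
      exact H.ncyc y h
  have hd : Disjoint (co N g 0 \ {1}) (co N g 1) := by
    have := H.disj 0
    rw [zero_add] at this
    exact this.mono_left Set.sdiff_subset
  have key := bip_path (R := Gen) (fun a b h => gen_comm.1 h) (Set.toFinite (co N g 0 \ {1}))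
    (Set.toFinite (co N g 1)) hd (card_co N g 1) H.big
    (fun x hx => by rw [eX x hx.1]; exact H.deg x hx.2)
    (fun y hy => by rw [eY y hy]; exact H.deg y (ne1 y hy))
    (by
      have := H.low 0
      refine le_trans (Set.ncard_le_ncard ?_ (Set.toFinite _)) this
      rintro x ⟨hx, h⟩
      rw [eX x hx.1] at h
      exact ⟨hx.1, h⟩)
    (by
      have := H.low 1
      refine le_trans (Set.ncard_le_ncard ?_ (Set.toFinite _)) this
      rintro x ⟨hx, h⟩
      rw [eY x hx] at h
      exact ⟨hx, h⟩)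
  refine key.2 ?_ u hu w hw huw
  rw [Set.ncard_sdiff_singleton_add_one m1 (Set.toFinite _)]
  exact card_co N g 0

theorem Dense.pieceC [Finite G] (H : Dense N g n l) {u w : G} (hu : u ∈ co N g (-1))
    (hw : w ∈ co N g (-1)) (huw : u ≠ w) : HamP Gen (co N g (-1)) u w := by
  have h1 : ¬ (n : ℤ) ∣ -1 := by
    rw [dvd_neg]
    intro h
    have := Int.le_of_dvd (by norm_num) h
    have := H.four
    omega
  have ne1 : ∀ x ∈ co N g (-1), x ≠ 1 := by
    rintro x hx rfl
    exact h1 ((H.one_mem_co (-1)).1 hx)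
  have hirr : ∀ a : G, ¬ Gen a a := by
    intro a h
    apply H.ncyc a
    unfold Gen at h ⊢
    rw [eq_top_iff, ← h]
    apply Subgroup.closure_mono
    intro z hz
    rcases hz with rfl | rfl <;> simp
  refine gen_path (R := Gen) (fun a b h => gen_comm.1 h) hirr (Set.toFinite (co N g (-1)))
    (card_co N g (-1)) H.big ?_ ?_ u hu w hw huw
  · intro x hx
    rw [dg_neg_one]
    exact H.deg x (ne1 x hx)
  · have := H.low (-1)
    refine le_trans (Set.ncard_le_ncard ?_ (Set.toFinite _)) this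
    rintro x ⟨hx, h⟩
    rw [dg_neg_one] at h
    exact ⟨hx, h⟩

end HG17
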