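import Pool.Agent.HG17.Frame

/-!
# Coordinates of the elements of N g, and actions on the factors: definitions
-/

namespace HG17

namespace Dat

variable {G : Type*} [Group G] {T : Type*} [Group T] {N : Subgroup G} [N.Normal] {m : ℕ}
variable (D : Dat T N m)

/-- the coordinates of `z`: coordinate number 0 is `eta z m`, coordinate number `k` is
`eta z k` for `0 < k < m` -/
noncomputable def crd (z : G) (k : Fin m) : T :=
  D.eta z (if (k : ℕ) = 0 then (m : ℤ) else ((k : ℕ) : ℤ))

/-- the action of `x` in `N g^(m l)` on factor number `k`, in the frame of `z` -/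
noncomputable def xiz (x : G) (l : ℤ) (z : G) (k : ℤ) : MulAut T :=
  MulAut.conj (D.xh x (m * l) z k) * (D.az z) ^ l

/-- the set of factors on which `x` acts nontrivially -/
def mov (x : G) (l : ℤ) : Set (Fin m) := {k | D.xiz x l D.g ((k : ℕ) : ℤ) ≠ 1}

theorem crd_zero (z : G) {k : Fin m} (hk : (k : ℕ) = 0) : D.crd z k = D.eta z m := by
  unfold crd
  rw [if_pos hk]

theorem crd_pos (z : G) {k : Fin m} (hk : (k : ℕ) ≠ 0) : D.crd z k = D.eta z ((k : ℕ) : ℤ) := by
  unfold crd
  rw [if_neg hk]

theorem az_congr {z z' : G} (h : D.eta z m = D.eta z' m) : D.az z = D.az z' := by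
  unfold az
  rw [h]

end Dat

end HG17
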