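import Pool.Agent.HG17.XDefs

/-!
# HG17/Xi: the action of x on the factors, seen from z (PROVE ME, 80-120 lines)

`az_g`: eta g m = pv (g^(-m) * g^m) = pv 1 = 1 (pv_one), conj 1 = 1.
`az_zpow`: for r in N, by P_per_mul for the frame of z (frame_a) with k = 0:
(frame).P (0 - m l) r = (az z)^l ((frame).P 0 r), where (frame).P 0 r = p r (P_zero, frame_p); by frame_P
(frame).P (-(m l)) r = e^-1 * P (-(m l)) r * e, e = eta z (-(m l)), and P (0 - m l) r = a^l (p r)
(P_per_mul, P_zero). So (az z)^l (p r) = e^-1 * a^l (p r) * e for all r in N, and p is onto (P_onto with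
k = 0, P_zero). MulAut.ext.
`xiz_eq`: xh_eq for z: xh x (m l) z k = e^-1 * y * eta z (k - m l), e = eta z k,
y = P k (x g^(-(m l))); eta z (k - m l) = a^l e * eta z (-(m l)) (eta_sub_mul). For z = g: all eta g j = 1,
so xh x (m l) g k = y and az g = a. With az_zpow:
xiz z k = conj (e^-1 y (a^l e) eta z (-(m l))) * (conj (eta z (-(m l))))^-1 * a^l
= conj (e^-1 y (a^l e)) * a^l, and a^l * conj e = conj (a^l e) * a^l (MulAut: phi * conj t =
conj (phi t) * phi), so it is (conj e)^-1 * (conj y * a^l) * conj e.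
`xiz_congr`: from xiz_eq.
`xiz_zero`: from xiz_eq and eta_zero.
`xiz_per`: xh_per: xh (k - m) = az z (xh k); conj (phi t) = phi * conj t * phi^-1.
`xiz_act`: x = mu * z^(m l) with mu = x z^(-(m l)) in N (xz_mem). Write F = frame.
F.P k (conjNormal x r) = F.P k mu * F.P k (conjNormal (z^(m l)) r) * (F.P k mu)^-1
(conjNormal x r = mu * conjNormal (z^(m l)) r * mu^-1 in N),
F.P k (conjNormal (z^(m l)) r) = F.P (k - m l) r = (az z)^l (F.P k r) (P_conj, P_per_mul, frame_a),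
F.P k mu = xh x (m l) z k (frame_P_eq_xh). Do not change the statements.
-/

namespace HG17

namespace Dat

variable {G : Type*} [Group G] {T : Type*} [Group T] {N : Subgroup G} [N.Normal] {m : ℕ}
variable (D : Dat T N m)

theorem az_g : D.az D.g = D.a := by
  unfold az eta
  rw [← zpow_add, neg_add_cancel, zpow_zero, pv_one, map_one, mul_one]

private theorem aut_conj_Xi (φ : MulAut T) (u : T) :
    φ * MulAut.conj u = MulAut.conj (φ u) * φ := by
  ext t
  rw [MulAut.mul_apply, MulAut.mul_apply, MulAut.conj_apply, MulAut.conj_apply, map_mul,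
    map_mul, map_inv]

theorem az_zpow (hm : 0 < m) {z : G} (hz : z ∈ co N D.g 1) (l : ℤ) :
    (D.az z) ^ l = (MulAut.conj (D.eta z (-(m * l))))⁻¹ * D.a ^ l := by
  ext t
  obtain ⟨r, hr⟩ := D.P_onto hm 0 t
  rw [P_zero] at hr
  have h1 := (D.frame z hz).P_per_mul l 0 r
  rw [P_zero, frame_p, frame_a, hr, frame_P, zero_sub] at h1
  have h2 := D.P_per_mul l 0 r
  rw [zero_sub, P_zero, hr] at h2
  rw [h2] at h1
  rw [← h1, MulAut.mul_apply, ← map_inv, MulAut.conj_apply, inv_inv]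

private theorem eta_g_Xi (k : ℤ) : D.eta D.g k = 1 := by
  unfold eta
  rw [← zpow_add, neg_add_cancel, zpow_zero, pv_one]

theorem xiz_eq (hm : 0 < m) {x z : G} {l : ℤ} (hx : x ∈ co N D.g (m * l))
    (hz : z ∈ co N D.g 1) (k : ℤ) :
    D.xiz x l z k =
      (MulAut.conj (D.eta z k))⁻¹ * D.xiz x l D.g k * MulAut.conj (D.eta z k) := by
  unfold xiz
  rw [D.xh_eq hx hz, D.xh_eq hx (g_mem_co_one N D.g), az_g, eta_g_Xi, eta_g_Xi, D.az_zpow hm hz,
    D.eta_sub_mul hz]
  simp only [map_mul, map_inv, inv_one, one_mul, mul_one]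
  have h1 := aut_conj_Xi (D.a ^ l) (D.eta z k)
  generalize MulAut.conj (D.eta z k) = e at *
  generalize MulAut.conj (D.P k ⟨x * D.g ^ (-(m * l)), hx⟩) = y at *
  generalize MulAut.conj (D.eta z (-(m * l))) = w at *
  generalize MulAut.conj ((D.a ^ l) (D.eta z k)) = f at *
  have h2 : e⁻¹ * (y * D.a ^ l) * e = e⁻¹ * y * (D.a ^ l * e) := by group
  rw [h2, h1]
  group

theorem xiz_congr (hm : 0 < m) {x z z' : G} {l : ℤ} (hx : x ∈ co N D.g (m * l))
    (hz : z ∈ co N D.g 1) (hz' : z' ∈ co N D.g 1) {k : ℤ} (h : D.eta z k = D.eta z' k) :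
    D.xiz x l z k = D.xiz x l z' k := by
  rw [D.xiz_eq hm hx hz, D.xiz_eq hm hx hz', h]

theorem xiz_zero (hm : 0 < m) {x z : G} {l : ℤ} (hx : x ∈ co N D.g (m * l))
    (hz : z ∈ co N D.g 1) : D.xiz x l z 0 = D.xiz x l D.g 0 := by
  rw [D.xiz_eq hm hx hz, eta_zero, map_one, inv_one, one_mul, mul_one]

theorem xiz_per {x z : G} {l : ℤ} (hx : x ∈ co N D.g (m * l)) (hz : z ∈ co N D.g 1) (k : ℤ) :
    D.xiz x l z (k - m) = D.az z * D.xiz x l z k * (D.az z)⁻¹ := by
  unfold xiz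
  rw [D.xh_per hx hz]
  have h1 := aut_conj_Xi (D.az z) (D.xh x (m * l) z k)
  have h2 : D.az z * (MulAut.conj (D.xh x (m * l) z k) * D.az z ^ l) * (D.az z)⁻¹ =
      (D.az z * MulAut.conj (D.xh x (m * l) z k)) * (D.az z)⁻¹ * D.az z ^ l := by
    group
  rw [h2, h1]
  group

theorem xiz_act {x z : G} {l : ℤ} (hx : x ∈ co N D.g (m * l)) (hz : z ∈ co N D.g 1) (k : ℤ)
    (r : N) :
    (D.frame z hz).P k (MulAut.conjNormal x r) = D.xiz x l z k ((D.frame z hz).P k r) := by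
  have h1 : MulAut.conjNormal x r = (⟨x * z ^ (-(m * l)), D.xz_mem hx hz⟩ : N) *
      MulAut.conjNormal (z ^ (m * l)) r * (⟨x * z ^ (-(m * l)), D.xz_mem hx hz⟩ : N)⁻¹ := by
    apply Subtype.ext
    simp only [MulAut.conjNormal_apply, Subgroup.coe_mul, InvMemClass.coe_inv]
    group
  have h2 := (D.frame z hz).P_conj (m * l) k r
  rw [frame_g] at h2
  rw [h1, map_mul, map_mul, map_inv, D.frame_P_eq_xh hx hz, h2, (D.frame z hz).P_per_mul, frame_a]
  unfold xiz
  rw [MulAut.mul_apply, MulAut.conj_apply]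

end Dat

end HG17
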